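import Mathlib

/-!
Combinatorics of a subadditive function on pairs: the finite sets attached to pairs, their
coherence, and the representation by two chains.
-/

namespace H60Unc

open Finset

section order

variable {V : Type*} [LinearOrder V]

/-- the comparison of `u` and `a` in the row of `x` -/
def lt2 (rho : V → V → ℕ) (x u a : V) : Prop :=
  rho u x < rho a x ∨ (rho u x = rho a x ∧ u < a)

instance (rho : V → V → ℕ) (x u a : V) : Decidable (lt2 rho x u a) := by
  unfold lt2; infer_instance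

/-- the two subadditivity properties -/
structure Sub2 (rho : V → V → ℕ) : Prop where
  ha : ∀ a b c, a < b → b < c → rho a c ≤ max (rho a b) (rho b c)
  hb : ∀ a b c, a < b → b < c → rho a b ≤ max (rho a c) (rho b c)

variable {rho : V → V → ℕ}

theorem lt2_irrefl (x u : V) : ¬ lt2 rho x u u := by
  rintro (h | ⟨_, h⟩)
  · exact lt_irrefl _ h
  · exact lt_irrefl _ h

theorem lt2_trans {x u v a : V} (h1 : lt2 rho x u v) (h2 : lt2 rho x v a) : lt2 rho x u a := by
  rcases h1 with h1 | ⟨h1, h1'⟩ <;> rcases h2 with h2 | ⟨h2, h2'⟩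
  · exact Or.inl (h1.trans h2)
  · exact Or.inl (h2 ▸ h1)
  · exact Or.inl (h1 ▸ h2)
  · exact Or.inr ⟨h1.trans h2, h1'.trans h2'⟩

theorem lt2_tri {x u a : V} (h : u ≠ a) : lt2 rho x u a ∨ lt2 rho x a u := by
  rcases lt_trichotomy (rho u x) (rho a x) with h1 | h1 | h1
  · exact Or.inl (Or.inl h1)
  · rcases lt_or_gt_of_ne h with h2 | h2
    · exact Or.inl (Or.inr ⟨h1, h2⟩)
    · exact Or.inr (Or.inr ⟨h1.symm, h2⟩)
  · exact Or.inr (Or.inl h1)

theorem lt2_asymm {x u a : V} (h : lt2 rho x u a) : ¬ lt2 rho x a u := fun h' =>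
  lt2_irrefl x u (lt2_trans h h')

theorem lt2_gt {x u a : V} (h : a < u) : lt2 rho x u a ↔ rho u x < rho a x := by
  constructor
  · rintro (h1 | ⟨_, h1⟩)
    · exact h1
    · exact absurd h1 (lt_asymm h)
  · exact fun h1 => Or.inl h1

theorem lt2_lt {x u a : V} (h : u < a) : lt2 rho x u a ↔ rho u x ≤ rho a x := by
  constructor
  · rintro (h1 | ⟨h1, _⟩)
    · exact h1.le
    · exact h1.le
  · intro h1
    rcases lt_or_eq_of_le h1 with h2 | h2
    · exact Or.inl h2
    · exact Or.inr ⟨h2, h⟩

theorem Sub2.eq_of (H : Sub2 rho) {a m x : V} (ham : a < m) (hmx : m < x)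
    (h : rho m x < rho a x) : rho a m = rho a x := by
  have h1 := H.ha a m x ham hmx
  have h2 := H.hb a m x ham hmx
  rcases le_max_iff.mp h1 with h1 | h1
  · rcases le_max_iff.mp h2 with h2 | h2 <;> omega
  · omega

theorem Sub2.coh (H : Sub2 rho) {a m x u : V} (ham : a < m) (hmx : m < x)
    (h : lt2 rho x m a) (hu : u < m) (hua : u ≠ a) : lt2 rho x u a ↔ lt2 rho m u a := by
  rw [lt2_gt ham] at h
  have e := H.eq_of ham hmx h
  have h1 := H.ha u m x hu hmx
  have h2 := H.hb u m x hu hmx
  rcases lt_or_gt_of_ne hua with h3 | h3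
  · rw [lt2_lt h3, lt2_lt h3, e]
    constructor
    · intro h4; rcases le_max_iff.mp h2 with h5 | h5 <;> omega
    · intro h4; rcases le_max_iff.mp h1 with h5 | h5 <;> omega
  · rw [lt2_gt h3, lt2_gt h3, e]
    constructor
    · intro h4; rcases le_max_iff.mp h2 with h5 | h5 <;> omega
    · intro h4; rcases le_max_iff.mp h1 with h5 | h5 <;> omega

/-- no point above both `a < b` can be in both sets if each of `a`, `b` precedes the other -/
theorem Sub2.cross (H : Sub2 rho) {a b x y u : V} (hab : a < b) (hbx : lt2 rho x b a)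
    (hay : lt2 rho y a b) (hux : u < x) (huy : u < y)
    (hu1 : lt2 rho x u a) (hu2 : lt2 rho y u b) : u < b := by
  by_contra hcon
  have hne : u ≠ b := by
    rintro rfl
    exact lt2_irrefl _ _ hu2
  have hbu : b < u := lt_of_le_of_ne (not_lt.mp hcon) (Ne.symm hne)
  have h1 := (H.coh (hab.trans hbu) hux hu1 hbu hab.ne').mp hbx
  have h2 := (H.coh hbu huy hu2 (hab.trans hbu) hab.ne).mp hay
  exact lt2_asymm h1 h2

theorem Sub2.low (H : Sub2 rho) {a x w : V} (hwa : w < a) (hax : a < x) :
    lt2 rho x w a ↔ rho w a ≤ rho a x := by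
  rw [lt2_lt hwa]
  have h1 := H.ha w a x hwa hax
  have h2 := H.hb w a x hwa hax
  constructor
  · intro h; rcases le_max_iff.mp h2 with h3 | h3 <;> omega
  · intro h; rcases le_max_iff.mp h1 with h3 | h3 <;> omega

end order

section fin

variable {V : Type*} [LinearOrder V] [Fintype V]

/-- the finite set attached to a pair -/
def FF (rho : V → V → ℕ) (x a : V) : Finset V :=
  Finset.univ.filter fun u => u < x ∧ lt2 rho x u a

variable {rho : V → V → ℕ}

theorem mem_FF {x a u : V} : u ∈ FF rho x a ↔ u < x ∧ lt2 rho x u a := by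
  simp [FF]

theorem FF_subset {x a b : V} (h : lt2 rho x b a) : FF rho x b ⊆ FF rho x a := by
  intro u hu
  rw [mem_FF] at hu ⊢
  exact ⟨hu.1, lt2_trans hu.2 h⟩

theorem not_mem_FF {x a : V} : a ∉ FF rho x a := fun h => lt2_irrefl _ _ (mem_FF.mp h).2

/-- the part of the path of `x` above `a`, with `x` -/
def DD (rho : V → V → ℕ) (a x w : V) : Prop := w = x ∨ (a < w ∧ w < x ∧ lt2 rho x w a)

instance (rho : V → V → ℕ) (a x w : V) : Decidable (DD rho a x w) := by
  unfold DD; infer_instance

/-- first code of `x` -/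
def kap (rho : V → V → ℕ) (a x : V) : V → Fin 3 := fun w =>
  if x < w then 0 else if DD rho a x w then 1 else 2

/-- second code of `x` -/
def kap' (rho : V → V → ℕ) (a x : V) : V → Fin 3 := fun w =>
  if x < w then 0 else if DD rho a x w then 2 else 1

theorem DD_iff (H : Sub2 rho) {a u x w : V} (hau : a < u) (hux : u < x) (hu : lt2 rho x u a)
    (hw : w ≤ u) : DD rho a u w ↔ DD rho a x w := by
  unfold DD
  rcases lt_or_eq_of_le hw with h | h
  · constructor
    · rintro (h1 | ⟨h1, _, h3⟩)
      · exact absurd h1 h.ne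
      · exact Or.inr ⟨h1, h.trans hux, (H.coh hau hux hu h h1.ne').mpr h3⟩
    · rintro (h1 | ⟨h1, _, h3⟩)
      · exact absurd h1 (h.trans hux).ne
      · exact Or.inr ⟨h1, h, (H.coh hau hux hu h h1.ne').mp h3⟩
  · subst h
    exact ⟨fun _ => Or.inr ⟨hau, hux, hu⟩, fun _ => Or.inl rfl⟩

theorem kap_eq_zero {a x w : V} : kap rho a x w = 0 ↔ x < w := by
  unfold kap
  split_ifs with h1 h2 <;> simp [h1]

theorem kap'_eq_zero {a x w : V} : kap' rho a x w = 0 ↔ x < w := by
  unfold kap'
  split_ifs with h1 h2 <;> simp [h1]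

theorem kap_lt (H : Sub2 rho) {a u x : V} (hau : a < u) (hux : u < x) (hu : lt2 rho x u a) :
    toLex (kap rho a u) < toLex (kap rho a x) ∧ toLex (kap' rho a u) < toLex (kap' rho a x) := by
  classical
  have hex : ∃ w, u < w ∧ kap rho a x w ≠ 0 ∧ kap' rho a x w ≠ 0 ∧
      ∀ v, u < v → v < w → kap rho a x v = 0 ∧ kap' rho a x v = 0 := by
    have hne : (Finset.univ.filter fun w => u < w ∧ kap rho a x w ≠ 0).Nonempty := by
      refine ⟨x, ?_⟩
      simp only [Finset.mem_filter, Finset.mem_univ, true_and]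
      refine ⟨hux, ?_⟩
      simp [kap, DD]
    refine ⟨_, (Finset.mem_filter.mp (Finset.min'_mem _ hne)).2.1,
      (Finset.mem_filter.mp (Finset.min'_mem _ hne)).2.2, ?_, ?_⟩
    · have h1 := (Finset.mem_filter.mp (Finset.min'_mem _ hne)).2.2
      rw [Ne, kap_eq_zero] at h1
      rw [Ne, kap'_eq_zero]
      exact h1
    · intro v hv hvw
      have h1 : v ∉ (Finset.univ.filter fun w => u < w ∧ kap rho a x w ≠ 0) := by
        intro hv'
        exact absurd (Finset.min'_le _ _ hv') (not_le.mpr hvw)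
      simp only [Finset.mem_filter, Finset.mem_univ, true_and, not_and, not_not] at h1
      have h2 := h1 hv
      refine ⟨h2, ?_⟩
      rw [kap_eq_zero] at h2
      rw [kap'_eq_zero]
      exact h2
  obtain ⟨w, huw, hw1, hw2, hw3⟩ := hex
  have hlow : ∀ v, v ≤ u → kap rho a u v = kap rho a x v ∧ kap' rho a u v = kap' rho a x v := by
    intro v hv
    have h1 : ¬ u < v := not_lt.mpr hv
    have h2 : ¬ x < v := not_lt.mpr (hv.trans hux.le)
    have h3 := DD_iff H hau hux hu hv
    simp only [kap, kap', h1, h2, if_false, h3, and_self]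
  have hhigh : ∀ v, u < v → kap rho a u v = 0 ∧ kap' rho a u v = 0 := by
    intro v hv
    simp [kap, kap', hv]
  refine ⟨⟨w, ?_, ?_⟩, ⟨w, ?_, ?_⟩⟩
  · intro v hv
    change kap rho a u v = kap rho a x v
    rcases le_or_gt v u with h | h
    · exact (hlow v h).1
    · rw [(hhigh v h).1, (hw3 v h hv).1]
  · change kap rho a u w < kap rho a x w
    rw [(hhigh w huw).1]
    exact Fin.pos_iff_ne_zero.mpr hw1
  · intro v hv
    change kap' rho a u v = kap' rho a x v
    rcases le_or_gt v u with h | h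
    · exact (hlow v h).2
    · rw [(hhigh v h).2, (hw3 v h hv).2]
  · change kap' rho a u w < kap' rho a x w
    rw [(hhigh w huw).2]
    exact Fin.pos_iff_ne_zero.mpr hw2

theorem mem_of_kap {a u x : V}
    (h1 : toLex (kap rho a u) < toLex (kap rho a x))
    (h2 : toLex (kap' rho a u) < toLex (kap' rho a x)) : u < x ∧ lt2 rho x u a := by
  obtain ⟨w, hw, hw'⟩ := h1
  obtain ⟨v, hv, hv'⟩ := h2
  change ∀ j, j < w → kap rho a u j = kap rho a x j at hw
  change kap rho a u w < kap rho a x w at hw'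
  change ∀ j, j < v → kap' rho a u j = kap' rho a x j at hv
  change kap' rho a u v < kap' rho a x v at hv'
  have hkk : ∀ j, kap rho a u j = kap rho a x j ↔ kap' rho a u j = kap' rho a x j := by
    intro j
    unfold kap kap'
    split_ifs <;> simp
  have hwv : w = v := by
    rcases lt_trichotomy w v with h | h | h
    · exact absurd ((hkk w).mpr (hv w h)) hw'.ne
    · exact h
    · exact absurd ((hkk v).mp (hw v h)) hv'.ne
  subst hwv
  have huw : u < w := by
    by_contra hcon
    by_cases hxw : x < w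
    · have : kap rho a x w = 0 := by simp [kap, hxw]
      rw [this] at hw'
      exact absurd hw' (not_lt.mpr (Fin.zero_le _))
    · by_cases hD : DD rho a u w <;> by_cases hD' : DD rho a x w <;>
        simp [kap, kap', hcon, hxw, hD, hD'] at hw' hv'
  have hwx : ¬ x < w := by
    intro hxw
    have : kap rho a x w = 0 := by simp [kap, hxw]
    rw [this] at hw'
    exact absurd hw' (not_lt.mpr (Fin.zero_le _))
  have hux : u < x := lt_of_lt_of_le huw (not_lt.mp hwx)
  have h3 := hw u huw
  have hD : DD rho a x u := by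
    by_contra hD
    have h4 : DD rho a u u := Or.inl rfl
    simp [kap, h4, hD, not_lt.mpr hux.le] at h3
  rcases hD with h | ⟨_, _, h⟩
  · exact absurd h hux.ne
  · exact ⟨hux, h⟩

open Classical in
/-- first chain -/
noncomputable def LL (rho : V → V → ℕ) (a x : V) : Finset V := Finset.univ.filter fun u =>
  u < a ∨ (a < u ∧ (rho a x < rho a u ∨
    (rho a u = rho a x ∧ toLex (kap' rho a u) < toLex (kap' rho a x))))

open Classical in
/-- second chain -/
noncomputable def RR (rho : V → V → ℕ) (a x : V) : Finset V := Finset.univ.filter fun u =>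
  (u < a ∧ rho u a ≤ rho a x) ∨ (a < u ∧ (rho a u < rho a x ∨
    (rho a u = rho a x ∧ toLex (kap rho a u) < toLex (kap rho a x))))

theorem LL_inter_RR (H : Sub2 rho) {a x : V} (hax : a < x) :
    LL rho a x ∩ RR rho a x = FF rho x a := by
  classical
  ext u
  simp only [LL, RR, Finset.mem_inter, Finset.mem_filter, Finset.mem_univ, true_and, mem_FF]
  rcases lt_trichotomy u a with h | h | h
  · rw [H.low h hax]
    constructor
    · rintro ⟨_, h2 | h2⟩
      · exact ⟨h.trans hax, h2.2⟩
      · exact absurd h2.1 (lt_asymm h)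
    · rintro ⟨_, h2⟩
      exact ⟨Or.inl h, Or.inl ⟨h, h2⟩⟩
  · subst h
    constructor
    · rintro ⟨h1 | h1, _⟩
      · exact absurd h1 (lt_irrefl _)
      · exact absurd h1.1 (lt_irrefl _)
    · rintro ⟨_, h2⟩
      exact absurd h2 (lt2_irrefl _ _)
  · constructor
    · rintro ⟨h1 | h1, h2 | h2⟩
      · exact absurd h1 (lt_asymm h)
      · exact absurd h1 (lt_asymm h)
      · exact absurd h2.1 (lt_asymm h)
      · rcases h1.2 with h3 | h3 <;> rcases h2.2 with h4 | h4
        · exact absurd h3 (lt_asymm h4)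
        · exact absurd h4.1 h3.ne'
        · exact absurd h3.1 h4.ne
        · exact mem_of_kap h4.2 h3.2
    · rintro ⟨h1, h2⟩
      have h3 := H.eq_of h h1 ((lt2_gt h).mp h2)
      have h4 := kap_lt H h h1 h2
      exact ⟨Or.inr ⟨h, Or.inr ⟨h3, h4.2⟩⟩, Or.inr ⟨h, Or.inr ⟨h3, h4.1⟩⟩⟩

theorem LL_chain (a x y : V) : LL rho a x ⊆ LL rho a y ∨ LL rho a y ⊆ LL rho a x := by
  classical
  have key : ∀ x y : V, (rho a y < rho a x ∨
      (rho a y = rho a x ∧ toLex (kap' rho a x) ≤ toLex (kap' rho a y))) →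
      LL rho a x ⊆ LL rho a y := by
    intro x y hxy u hu
    simp only [LL, Finset.mem_filter, Finset.mem_univ, true_and] at hu ⊢
    rcases hu with hu | ⟨hu1, hu2⟩
    · exact Or.inl hu
    · refine Or.inr ⟨hu1, ?_⟩
      rcases hxy with hxy | hxy <;> rcases hu2 with hu2 | hu2
      · exact Or.inl (hxy.trans hu2)
      · exact Or.inl (hu2.1 ▸ hxy)
      · exact Or.inl (hxy.1 ▸ hu2)
      · exact Or.inr ⟨hu2.1.trans hxy.1.symm, lt_of_lt_of_le hu2.2 hxy.2⟩
  rcases lt_trichotomy (rho a x) (rho a y) with h | h | h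
  · exact Or.inr (key y x (Or.inl h))
  · rcases le_total (toLex (kap' rho a x)) (toLex (kap' rho a y)) with h2 | h2
    · exact Or.inl (key x y (Or.inr ⟨h.symm, h2⟩))
    · exact Or.inr (key y x (Or.inr ⟨h, h2⟩))
  · exact Or.inl (key x y (Or.inl h))

theorem RR_chain (a x y : V) : RR rho a x ⊆ RR rho a y ∨ RR rho a y ⊆ RR rho a x := by
  classical
  have key : ∀ x y : V, (rho a x < rho a y ∨
      (rho a x = rho a y ∧ toLex (kap rho a x) ≤ toLex (kap rho a y))) →
      RR rho a x ⊆ RR rho a y := by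
    intro x y hxy u hu
    simp only [RR, Finset.mem_filter, Finset.mem_univ, true_and] at hu ⊢
    rcases hu with hu | ⟨hu1, hu2⟩
    · refine Or.inl ⟨hu.1, hu.2.trans ?_⟩
      rcases hxy with hxy | hxy
      · exact hxy.le
      · exact hxy.1.le
    · refine Or.inr ⟨hu1, ?_⟩
      rcases hxy with hxy | hxy <;> rcases hu2 with hu2 | hu2
      · exact Or.inl (hu2.trans hxy)
      · exact Or.inl (hu2.1 ▸ hxy)
      · exact Or.inl (hxy.1 ▸ hu2)
      · exact Or.inr ⟨hu2.1.trans hxy.1, lt_of_lt_of_le hu2.2 hxy.2⟩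
  rcases lt_trichotomy (rho a x) (rho a y) with h | h | h
  · exact Or.inl (key x y (Or.inl h))
  · rcases le_total (toLex (kap rho a x)) (toLex (kap rho a y)) with h2 | h2
    · exact Or.inl (key x y (Or.inr ⟨h, h2⟩))
    · exact Or.inr (key y x (Or.inr ⟨h.symm, h2⟩))
  · exact Or.inr (key y x (Or.inl h))

end fin

end H60Unc
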