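import Pool.Agent.Helper60.Unc.Dual

/-!
From weighted square-norm bounds with majorant weights to exponents above two, and the
assembly of all exponents.
-/

namespace H60Unc

open Finset

/-- majorant weights with weighted square-norm multiplier bounds -/
def Major (r K : ℝ) : Prop :=
  0 < K ∧ ∀ (V : Type) [LinearOrder V] [Fintype V] (rho : V → V → ℕ), Sub2 rho →
    ∀ w : (V → Bool) → ℝ, (∀ x, 1 ≤ w x) → ∃ W : (V → Bool) → ℝ, (∀ x, w x ≤ W x) ∧
      ex (fun x => W x ^ r) ≤ K * ex (fun x => w x ^ r) ∧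
      ∀ d d' : Dat rho, |d'.al0| ≤ |d.al0| → (∀ x, |d'.al x| ≤ |d.al x|) →
        (∀ x a w, |d'.c x a w| ≤ |d.c x a w|) →
          ex (fun x => d'.F x ^ 2 * W x) ≤ K * ex (fun x => d.F x ^ 2 * W x)

theorem core_of_major {p K : ℝ} (hp : 2 < p) (hK : Major (p / (p - 2)) K) :
    ∃ C : ℝ, 0 < C ∧ ∀ (V : Type) [LinearOrder V] [Fintype V] (rho : V → V → ℕ), Sub2 rho →
      ∀ d d' : Dat rho, |d'.al0| ≤ |d.al0| → (∀ x, |d'.al x| ≤ |d.al x|) →
        (∀ x a w, |d'.c x a w| ≤ |d.c x a w|) →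
          ex (fun w => |d'.F w| ^ p) ≤ C * ex (fun w => |d.F w| ^ p) := by
  set r := p / (p - 2) with hr
  have hp2 : 0 < p - 2 := by linarith
  have hp0 : 0 < p := by linarith
  have hr1 : 1 < r := by rw [hr, lt_div_iff₀ hp2]; linarith
  have hr0 : 0 < r := by linarith
  obtain ⟨hK0, hmaj⟩ := hK
  set C1 : ℝ := K * (K * 2 ^ r) ^ (1 / r) with hC1
  have hC1pos : 0 < C1 := by positivity
  refine ⟨C1 ^ (p / 2), by positivity, ?_⟩
  intro V _ _ rho hrho d d' h0 h1 h2
  set X := ex (fun w => |d'.F w| ^ p) with hX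
  set Y := ex (fun w => |d.F w| ^ p) with hY
  have hX0 : 0 ≤ X := ex_nonneg fun w => by positivity
  have hY0 : 0 ≤ Y := ex_nonneg fun w => by positivity
  rcases hX0.eq_or_lt with h | hXpos
  · rw [← h]; positivity
  set s : ℝ := X ^ ((p - 2) / p) with hs
  have hspos : 0 < s := Real.rpow_pos_of_pos hXpos _
  set w0 : (V → Bool) → ℝ := fun w => |d'.F w| ^ (p - 2) / s with hw0
  have hw0n : ∀ w, 0 ≤ w0 w := fun w => div_nonneg (by positivity) hspos.le
  obtain ⟨W, hW1, hW2, hW3⟩ := hmaj V rho hrho (fun w => w0 w + 1) (fun w => by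
    have := hw0n w; linarith)
  have hWpos : ∀ w, 0 < W w := fun w => by
    have h5 : w0 w + 1 ≤ W w := hW1 w
    have h6 := hw0n w
    linarith
  -- the norm of the starting weight
  have hw0r : ex (fun w => w0 w ^ r) = 1 := by
    have e1 : (fun w => w0 w ^ r) = fun w => X⁻¹ * |d'.F w| ^ p := by
      funext w
      simp only [hw0]
      rw [Real.div_rpow (by positivity) hspos.le, ← Real.rpow_mul (abs_nonneg _), hs,
        ← Real.rpow_mul hX0]
      have e2 : (p - 2) * r = p := by rw [hr]; field_simp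
      have e3 : (p - 2) / p * r = 1 := by rw [hr]; field_simp
      rw [e2, e3, Real.rpow_one]
      ring
    rw [e1, ex_smul]
    exact inv_mul_cancel₀ hXpos.ne'
  have hwr : ex (fun w => (w0 w + 1) ^ r) ≤ 2 ^ r := by
    have e1 : ∀ w, (w0 w + 1) ^ r ≤ 2 ^ (r - 1) * (w0 w ^ r + 1) := by
      intro w
      have := NNReal.rpow_add_le_mul_rpow_add_rpow ⟨w0 w, hw0n w⟩ 1 hr1.le
      have h7 := NNReal.coe_le_coe.mpr this
      push_cast at h7
      rw [Real.one_rpow] at h7
      exact h7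
    calc ex (fun w => (w0 w + 1) ^ r) ≤ ex (fun w => 2 ^ (r - 1) * (w0 w ^ r + 1)) := ex_mono e1
      _ = 2 ^ (r - 1) * (1 + 1) := by rw [ex_smul, ex_add, hw0r, ex_const]
      _ = 2 ^ r := by
        rw [Real.rpow_sub_one (by norm_num)]
        ring
  have hWr : ex (fun w => W w ^ r) ≤ K * 2 ^ r :=
    hW2.trans (mul_le_mul_of_nonneg_left hwr hK0.le)
  -- left side
  have hL : X ≤ s * ex (fun w => d'.F w ^ 2 * W w) := by
    rw [hX, ← ex_smul]
    refine ex_mono fun w => ?_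
    have e1 : |d'.F w| ^ p = s * (d'.F w ^ 2 * w0 w) := by
      simp only [hw0]
      have e2 : s * (d'.F w ^ 2 * (|d'.F w| ^ (p - 2) / s)) = d'.F w ^ 2 * |d'.F w| ^ (p - 2) := by
        field_simp
      rw [e2, ← sq_abs]
      by_cases hz : d'.F w = 0
      · rw [hz, abs_zero, Real.zero_rpow hp0.ne']; simp
      · have hpos : 0 < |d'.F w| := abs_pos.mpr hz
        rw [← Real.rpow_natCast, ← Real.rpow_add hpos]
        congr 1
        push_cast; ring
    rw [e1]
    refine mul_le_mul_of_nonneg_left (mul_le_mul_of_nonneg_left ?_ (sq_nonneg _)) hspos.le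
    have h5 : w0 w + 1 ≤ W w := hW1 w
    linarith
  -- right side by Hoelder
  have hconj : (p / 2).HolderConjugate r := by
    rw [Real.holderConjugate_iff]
    refine ⟨by linarith, ?_⟩
    rw [hr]
    field_simp
    ring
  have hR : ex (fun w => d.F w ^ 2 * W w) ≤ Y ^ (2 / p) * (K * 2 ^ r) ^ (1 / r) := by
    have h5 := holder_ex hconj (fun w => d.F w ^ 2) W
    have e1 : (fun w => |d.F w ^ 2| ^ (p / 2)) = fun w => |d.F w| ^ p := by
      funext w
      rw [abs_of_nonneg (sq_nonneg (d.F w)), ← sq_abs, ← Real.rpow_natCast,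
        ← Real.rpow_mul (abs_nonneg _)]
      congr 1
      push_cast; ring
    have e2 : (fun w => |W w| ^ r) = fun w => W w ^ r := by
      funext w; rw [abs_of_pos (hWpos w)]
    rw [e1, e2] at h5
    have e3 : 1 / (p / 2) = 2 / p := by field_simp
    rw [e3] at h5
    refine h5.trans (mul_le_mul_of_nonneg_left ?_ (Real.rpow_nonneg hY0 _))
    refine Real.rpow_le_rpow (ex_nonneg fun w => Real.rpow_nonneg (hWpos w).le _) hWr (by positivity)
  have hM := hW3 d d' h0 h1 h2
  have hfin : X ≤ s * (C1 * Y ^ (2 / p)) := by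
    refine hL.trans (mul_le_mul_of_nonneg_left ?_ hspos.le)
    refine hM.trans ?_
    calc K * ex (fun x => d.F x ^ 2 * W x) ≤ K * (Y ^ (2 / p) * (K * 2 ^ r) ^ (1 / r)) :=
          mul_le_mul_of_nonneg_left hR hK0.le
      _ = C1 * Y ^ (2 / p) := by rw [hC1]; ring
  have hsplit : X = s * X ^ (2 / p) := by
    rw [hs, ← Real.rpow_add hXpos]
    have : (p - 2) / p + 2 / p = 1 := by field_simp; ring
    rw [this, Real.rpow_one]
  have h6 : X ^ (2 / p) ≤ C1 * Y ^ (2 / p) := by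
    rw [hsplit] at hfin
    have h7 : (s * X ^ (2 / p)) ^ (2 / p) = X ^ (2 / p) := by rw [← hsplit]
    exact le_of_mul_le_mul_left (by linarith [hfin]) hspos
  have h8 := Real.rpow_le_rpow (Real.rpow_nonneg hX0 _) h6 (by positivity : 0 ≤ p / 2)
  rw [← Real.rpow_mul hX0, Real.mul_rpow hC1pos.le (Real.rpow_nonneg hY0 _),
    ← Real.rpow_mul hY0] at h8
  have e4 : 2 / p * (p / 2) = 1 := by field_simp
  rw [e4, Real.rpow_one, Real.rpow_one] at h8
  exact h8

/-- all exponents above one, except two, from majorant weights -/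
theorem core_all (hmaj : ∀ r : ℝ, 1 < r → ∃ K, Major r K) (p : ℝ) (hp : 1 < p) (hp2 : p ≠ 2) :
    ∃ C : ℝ, 0 < C ∧ ∀ (V : Type) [LinearOrder V] [Fintype V] (rho : V → V → ℕ), Sub2 rho →
      ∀ d d' : Dat rho, |d'.al0| ≤ |d.al0| → (∀ x, |d'.al x| ≤ |d.al x|) →
        (∀ x a w, |d'.c x a w| ≤ |d.c x a w|) →
          ex (fun w => |d'.F w| ^ p) ≤ C * ex (fun w => |d.F w| ^ p) := by
  have big : ∀ p : ℝ, 2 < p → ∃ C : ℝ, 0 < C ∧ ∀ (V : Type) [LinearOrder V] [Fintype V]
      (rho : V → V → ℕ), Sub2 rho → ∀ d d' : Dat rho, |d'.al0| ≤ |d.al0| →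
        (∀ x, |d'.al x| ≤ |d.al x|) → (∀ x a w, |d'.c x a w| ≤ |d.c x a w|) →
          ex (fun w => |d'.F w| ^ p) ≤ C * ex (fun w => |d.F w| ^ p) := by
    intro p hp
    have hp2 : 0 < p - 2 := by linarith
    obtain ⟨K, hK⟩ := hmaj (p / (p - 2)) (by rw [lt_div_iff₀ hp2]; linarith)
    exact core_of_major hp hK
  rcases lt_or_gt_of_ne hp2 with h | h
  · -- duality
    set q := p / (p - 1) with hq
    have hp1 : 0 < p - 1 := by linarith
    have hpq : p.HolderConjugate q := Real.HolderConjugate.conjExponent hp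
    have hq2 : 2 < q := by rw [hq, lt_div_iff₀ hp1]; linarith
    obtain ⟨C, hC, hcore⟩ := big q hq2
    refine ⟨C ^ (p / q), by positivity, ?_⟩
    intro V _ _ rho hrho d d' h0 h1 h2
    exact dual_ineq hpq hC (fun d d' => hcore V rho hrho d d') d d' h0 h1 h2
  · exact big p h

end H60Unc
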