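import Mathlib

/-!
A complete family of non-zero vectors with the multiplier inequality gives unique
unconditionally convergent expansions.
-/

namespace H60Unc

open Finset

section

variable {X : Type*} [NormedAddCommGroup X] [NormedSpace ℝ X] {J : Type*}

theorem expansion (x : J → X) (hx : ∀ i, x i ≠ 0)
    (hspan : (Submodule.span ℝ (Set.range x)).topologicalClosure = ⊤) (M : ℝ)
    (hM : ∀ (d : Finset J) (a ep : J → ℝ), (∀ i, |ep i| ≤ 1) →
      ‖∑ i ∈ d, (ep i * a i) • x i‖ ≤ M * ‖∑ i ∈ d, a i • x i‖) (y : X) :
    ∃! a : J → ℝ, HasSum (fun i => a i • x i) y := by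
  classical
  have hM0 : 0 ≤ M ∨ IsEmpty J := by
    by_cases hJ : IsEmpty J
    · exact Or.inr hJ
    · left
      rw [not_isEmpty_iff] at hJ
      obtain ⟨i⟩ := hJ
      have h := hM {i} (fun _ => 1) (fun _ => 0) (fun _ => by simp)
      simp only [Finset.sum_singleton, zero_mul, zero_smul, norm_zero, one_smul] at h
      by_contra hcon
      push Not at hcon
      have := norm_pos_iff.mpr (hx i)
      nlinarith
  -- one coordinate
  have hone : ∀ (d : Finset J) (a : J → ℝ) (i : J), i ∈ d →
      |a i| * ‖x i‖ ≤ M * ‖∑ i ∈ d, a i • x i‖ := by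
    intro d a i hi
    have h := hM d a (fun j => if j = i then 1 else 0) (fun j => by split_ifs <;> simp)
    have h2 : ∑ j ∈ d, ((if j = i then (1 : ℝ) else 0) * a j) • x j = a i • x i := by
      rw [Finset.sum_eq_single i]
      · simp
      · intro j _ hj; simp [hj]
      · intro h; exact absurd hi h
    rw [h2, norm_smul, Real.norm_eq_abs] at h
    exact h
  -- the combination map
  set L : (J →₀ ℝ) →ₗ[ℝ] X := Finsupp.linearCombination ℝ x with hL
  have hLs : ∀ f : J →₀ ℝ, L f = ∑ i ∈ f.support, f i • x i := by
    intro f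
    rw [hL, Finsupp.linearCombination_apply, Finsupp.sum]
  have hinj : Function.Injective L := by
    rw [← LinearMap.ker_eq_bot, LinearMap.ker_eq_bot']
    intro f hf
    ext i
    by_contra hi
    have hi' : i ∈ f.support := Finsupp.mem_support_iff.mpr hi
    have h := hone f.support f i hi'
    rw [← hLs, hf, norm_zero, mul_zero] at h
    have h1 : 0 < |f i| * ‖x i‖ := mul_pos (abs_pos.mpr hi) (norm_pos_iff.mpr (hx i))
    linarith
  have hrange : LinearMap.range L = Submodule.span ℝ (Set.range x) :=
    Finsupp.range_linearCombination ℝ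
  set S := LinearMap.range L with hS
  let eq := LinearEquiv.ofInjective L hinj
  -- coordinate functionals on the span
  have hbd : ∀ (i : J) (s : S), ‖(Finsupp.lapply i : (J →₀ ℝ) →ₗ[ℝ] ℝ) (eq.symm s)‖
      ≤ (M / ‖x i‖) * ‖s‖ := by
    intro i s
    set f := eq.symm s with hf
    have hs : (s : X) = L f := by
      have : eq f = s := by rw [hf]; exact eq.apply_symm_apply s
      rw [← this]
      rfl
    have hxi := norm_pos_iff.mpr (hx i)
    have hnorm : ‖s‖ = ‖L f‖ := by rw [← hs]; rfl
    rw [hnorm, Finsupp.lapply_apply, Real.norm_eq_abs, div_mul_eq_mul_div, le_div_iff₀ hxi]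
    by_cases hi : i ∈ f.support
    · have h := hone f.support f i hi
      rw [← hLs] at h
      exact h
    · rw [Finsupp.notMem_support_iff] at hi
      rw [hi, abs_zero, zero_mul]
      rcases hM0 with h | h
      · exact mul_nonneg h (norm_nonneg _)
      · exact (h.false i).elim
  have hext : ∀ i : J, ∃ g : X →L[ℝ] ℝ, ∀ f : J →₀ ℝ, g (L f) = f i := by
    intro i
    let ph : S →L[ℝ] ℝ := LinearMap.mkContinuous
      ((Finsupp.lapply i : (J →₀ ℝ) →ₗ[ℝ] ℝ).comp eq.symm.toLinearMap) (M / ‖x i‖) (hbd i)
    obtain ⟨g, hg, _⟩ := exists_extension_norm_eq S ph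
    refine ⟨g, fun f => ?_⟩
    have h1 := hg (eq f)
    have h2 : ((eq f : S) : X) = L f := rfl
    rw [h2] at h1
    rw [h1]
    change (Finsupp.lapply i : (J →₀ ℝ) →ₗ[ℝ] ℝ) (eq.symm (eq f)) = f i
    rw [LinearEquiv.symm_apply_apply]
    rfl
  choose ph hph using hext
  have hphx : ∀ i j, ph i (x j) = if i = j then 1 else 0 := by
    intro i j
    have h := hph i (Finsupp.single j 1)
    have h2 : L (Finsupp.single j 1) = x j := by
      rw [hL, Finsupp.linearCombination_single, one_smul]
    rw [h2] at h
    rw [h, Finsupp.single_apply]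
    simp only [eq_comm]
  -- partial sum operators are bounded
  have hP : ∀ (F : Finset J) (z : X), ‖∑ i ∈ F, ph i z • x i‖ ≤ M * ‖z‖ := by
    intro F z
    have hcl : IsClosed {z : X | ‖∑ i ∈ F, ph i z • x i‖ ≤ M * ‖z‖} := by
      apply isClosed_le
      · refine (continuous_finsetSum _ fun i _ => ?_).norm
        exact (ph i).continuous.smul continuous_const
      · exact continuous_const.mul continuous_norm
    have hsub : (S : Set X) ⊆ {z : X | ‖∑ i ∈ F, ph i z • x i‖ ≤ M * ‖z‖} := by
      rintro z ⟨f, rfl⟩
      simp only [Set.mem_ofPred_eq, hph]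
      have h := hM (f.support ∪ F) f (fun i => if i ∈ F then 1 else 0)
        (fun i => by split_ifs <;> simp)
      have h1 : ∑ i ∈ f.support ∪ F, ((if i ∈ F then (1 : ℝ) else 0) * f i) • x i
          = ∑ i ∈ F, f i • x i := by
        rw [← Finset.sum_subset (Finset.subset_union_right (s₁ := f.support) (s₂ := F))]
        · exact Finset.sum_congr rfl fun i hi => by simp [hi]
        · intro i _ hi; simp [hi]
      have h2 : ∑ i ∈ f.support ∪ F, f i • x i = L f := by
        rw [hLs]
        symm
        apply Finset.sum_subset Finset.subset_union_left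
        intro i _ hi
        rw [Finsupp.notMem_support_iff] at hi
        rw [hi, zero_smul]
      rw [h1, h2] at h
      exact h
    have h3 : z ∈ closure (S : Set X) := by
      have : z ∈ (Submodule.span ℝ (Set.range x)).topologicalClosure := by
        rw [hspan]; trivial
      rw [← hrange] at this
      exact this
    exact closure_minimal hsub hcl h3
  refine ⟨fun i => ph i y, ?_, ?_⟩
  · -- convergence
    change HasSum (fun i => ph i y • x i) y
    rw [HasSum, SummationFilter.unconditional_filter, Metric.tendsto_atTop]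
    intro ε hε
    have hy : y ∈ closure (S : Set X) := by
      have : y ∈ (Submodule.span ℝ (Set.range x)).topologicalClosure := by
        rw [hspan]; trivial
      rw [← hrange] at this
      exact this
    obtain ⟨s, ⟨f, rfl⟩, hs⟩ := Metric.mem_closure_iff.mp hy (ε / (2 * (|M| + 1))) (by positivity)
    refine ⟨f.support, fun F hF => ?_⟩
    have h1 : ∑ i ∈ F, ph i (L f) • x i = L f := by
      simp only [hph]
      rw [hLs]
      symm
      apply Finset.sum_subset hF
      intro i _ hi
      rw [Finsupp.notMem_support_iff] at hi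
      rw [hi, zero_smul]
    have h2 : ∑ i ∈ F, ph i y • x i - y = ∑ i ∈ F, ph i (y - L f) • x i - (y - L f) := by
      have h3 : ∑ i ∈ F, ph i (y - L f) • x i
          = ∑ i ∈ F, ph i y • x i - ∑ i ∈ F, ph i (L f) • x i := by
        rw [← Finset.sum_sub_distrib]
        refine Finset.sum_congr rfl fun i _ => ?_
        rw [map_sub, sub_smul]
      rw [h3, h1]; abel
    rw [dist_eq_norm, h2]
    have h4 := hP F (y - L f)
    have h5 : ‖y - L f‖ < ε / (2 * (|M| + 1)) := by rw [← dist_eq_norm]; exact hs
    have h6 : ‖∑ i ∈ F, ph i (y - L f) • x i - (y - L f)‖ ≤ (|M| + 1) * ‖y - L f‖ := by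
      refine (norm_sub_le _ _).trans ?_
      have := mul_le_mul_of_nonneg_right (le_abs_self M) (norm_nonneg (y - L f))
      linarith
    have h7 : (|M| + 1) * ‖y - L f‖ ≤ (|M| + 1) * (ε / (2 * (|M| + 1))) :=
      mul_le_mul_of_nonneg_left h5.le (by positivity)
    have h8 : (|M| + 1) * (ε / (2 * (|M| + 1))) = ε / 2 := by
      have : (|M| + 1) ≠ 0 := by positivity
      field_simp
    linarith
  · intro b hb
    change HasSum (fun i => b i • x i) y at hb
    funext j
    have h1 := hb.mapL (ph j)
    simp only [map_smul, hphx, smul_eq_mul, mul_ite, mul_one, mul_zero] at h1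
    have h2 : HasSum (fun i => if j = i then b i else 0) (b j) := by
      have h3 := hasSum_single (f := fun i => if j = i then b i else 0) j
        (fun i hi => by simp [Ne.symm hi])
      simpa using h3
    exact h2.unique h1

end

end H60Unc
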