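import Pool.Agent.Helper60.Unc.Span

/-!
The system in the space of fourth-power integrable functions.
-/

namespace H60Unc

open MeasureTheory Finset

variable {I : Type*} [LinearOrder I]

section scalars

variable (K : Type*) [RCLike K] {P : Pack I}

instance fact4 : Fact ((1 : ENNReal) ≤ 4) := ⟨by norm_num⟩

/-- the elements of the system -/
noncomputable def E (i : Idx P) : Lp K 4 (mu I) := (e_memLp i 4).toLp _

theorem E_coe (i : Idx P) : (E K i : (I → Bool) → K) =ᵐ[mu I] fun w => ((e i w : ℝ) : K) :=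
  MemLp.coeFn_toLp _

theorem sum_coe (d : Finset (Idx P)) (al : Idx P → K) :
    ((∑ i ∈ d, al i • E K i : Lp K 4 (mu I)) : (I → Bool) → K)
      =ᵐ[mu I] fun w => ∑ i ∈ d, al i * ((e i w : ℝ) : K) := by
  classical
  induction d using Finset.induction_on with
  | empty =>
    simp only [Finset.sum_empty]
    exact Lp.coeFn_zero _ _ _
  | insert i d hi ih =>
    simp only [Finset.sum_insert hi]
    filter_upwards [Lp.coeFn_add (al i • E K i) (∑ i ∈ d, al i • E K i), ih,
      Lp.coeFn_smul (al i) (E K i), E_coe K i] with w h1 h2 h3 h4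
    rw [h1, Pi.add_apply, h2, h3, Pi.smul_apply, h4, smul_eq_mul]

theorem norm_pow_four (f : Lp K 4 (mu I)) (g : (I → Bool) → K) (h : f =ᵐ[mu I] g) :
    ‖f‖ ^ 4 = ∫ w, ‖g w‖ ^ 4 ∂(mu I) := by
  have h1 : ∫ w, ‖g w‖ ^ 4 ∂(mu I) = ∫ w, ‖f w‖ ^ 4 ∂(mu I) :=
    integral_congr_ae (h.mono fun w hw => by simp only [hw])
  have hpos : 0 ≤ ∫ w, ‖f w‖ ^ 4 ∂(mu I) := integral_nonneg fun w => by positivity
  rw [h1, Lp.norm_def, (Lp.memLp f).eLpNorm_eq_integral_rpow_norm (by norm_num) (by norm_num)]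
  have h2 : (4 : ENNReal).toReal = ((4 : ℕ) : ℝ) := by norm_num
  rw [h2]
  simp only [Real.rpow_natCast]
  rw [ENNReal.toReal_ofReal (Real.rpow_nonneg hpos _), ← Real.rpow_natCast, ← Real.rpow_mul hpos]
  norm_num

/-- the multiplier constant -/
def MM : ℝ := 4 * KK

theorem MM_pos : 0 < MM := by unfold MM KK; positivity

theorem mult_ineq (d : Finset (Idx P)) (al : Idx P → K) (ep : Idx P → ℝ)
    (hep : ∀ i, |ep i| ≤ 1) :
    ‖∑ i ∈ d, (((ep i : ℝ) : K) * al i) • E K i‖ ≤ MM * ‖∑ i ∈ d, al i • E K i‖ := by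
  have h1 := norm_pow_four K _ _ (sum_coe K d (fun i => ((ep i : ℝ) : K) * al i))
  have h2 := norm_pow_four K _ _ (sum_coe K d al)
  have h3 := scalar_ineq d al ep hep
  rw [← h1, ← h2] at h3
  have h4 : ‖∑ i ∈ d, (((ep i : ℝ) : K) * al i) • E K i‖ ^ 4
      ≤ (MM * ‖∑ i ∈ d, al i • E K i‖) ^ 4 := by
    refine h3.trans ?_
    rw [mul_pow]
    refine mul_le_mul_of_nonneg_right ?_ (by positivity)
    have h5 : (1 : ℝ) ≤ MM := by unfold MM KK; norm_num
    have h6 : MM ^ 1 ≤ MM ^ 4 := pow_le_pow_right₀ h5 (by norm_num)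
    unfold MM at h6 ⊢
    linarith
  exact le_of_pow_le_pow_left₀ (by norm_num) (mul_nonneg MM_pos.le (norm_nonneg _)) h4

theorem e_witness (i : Idx P) : ∃ w : I → Bool, e i w ≠ 0 := by
  classical
  rcases i with _ | x | t
  · exact ⟨fun _ => true, by simp [e]⟩
  · refine ⟨fun _ => true, ?_⟩
    have := abs_chi' x (fun _ => true)
    intro h
    simp only [e] at h
    rw [h] at this
    simp at this
  · refine ⟨fun u => decide (u ∈ t.s), ?_⟩
    have h1 := abs_chi' t.x (fun u => decide (u ∈ t.s))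
    have h2 := abs_chi' t.a (fun u => decide (u ∈ t.s))
    have h3 : t.ind (fun u => decide (u ∈ t.s)) = 1 := by
      unfold Tri.ind
      rw [if_pos]
      intro u _
      simp
    simp only [e, h3, mul_one]
    refine mul_ne_zero ?_ ?_
    · intro h; rw [h] at h1; simp at h1
    · intro h; rw [h] at h2; simp at h2

theorem cyl_pos (s : Finset I) (w0 : I → Bool) :
    0 < mu I (Set.pi (s : Set I) fun u => {w0 u}) := by
  unfold mu
  rw [Measure.infinitePi_pi]
  · simp only [coin_singleton, Finset.prod_const]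
    exact ENNReal.pow_pos (by norm_num) _
  · intro u _
    exact measurableSet_singleton _

theorem E_ne_zero (i : Idx P) : E K i ≠ 0 := by
  intro h
  have h1 := E_coe K i
  rw [h] at h1
  have h2 := (Lp.coeFn_zero K 4 (mu I)).symm.trans h1
  obtain ⟨w0, hw0⟩ := e_witness i
  have h3 : mu I {w | ¬ ((0 : (I → Bool) → K) w = ((e i w : ℝ) : K))} = 0 := h2
  have h4 : (Set.pi (supp i : Set I) fun u => {w0 u})
      ⊆ {w | ¬ ((0 : (I → Bool) → K) w = ((e i w : ℝ) : K))} := by
    intro w hw hcon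
    have h5 : e i w = e i w0 := e_dep i _ _ fun u hu => by
      have := hw u (by exact_mod_cast hu)
      simpa using this
    rw [h5] at hcon
    have h6 : ((e i w0 : ℝ) : K) = 0 := hcon.symm
    rw [RCLike.ofReal_eq_zero] at h6
    exact hw0 h6
  have h7 := measure_mono h4 (μ := mu I)
  rw [h3] at h7
  exact absurd (cyl_pos (supp i) w0) (not_lt.mpr h7)

theorem walsh_mem (P : Pack I) (W : Finset I) (f : Lp K 4 (mu I))
    (hf : f =ᵐ[mu I] fun w => ((∏ i ∈ W, chi i w : ℝ) : K)) :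
    f ∈ Submodule.span K (Set.range (E K : Idx P → Lp K 4 (mu I))) := by
  obtain ⟨d, al, hd⟩ := walsh_comb P W
  have h1 : f = ∑ i ∈ d, ((al i : ℝ) : K) • E K i := by
    apply Lp.ext
    have h2 : (fun w => ((∏ i ∈ W, chi i w : ℝ) : K))
        = fun w => ∑ i ∈ d, ((al i : ℝ) : K) * ((e i w : ℝ) : K) := by
      funext w
      rw [hd w]
      simp only [map_sum, map_mul]
    rw [h2] at hf
    exact hf.trans (sum_coe K d (fun i => ((al i : ℝ) : K))).symm
  rw [h1]
  exact Submodule.sum_mem _ fun i _ => Submodule.smul_mem _ _ (Submodule.subset_span ⟨i, rfl⟩)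

end scalars

end H60Unc
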