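import Pool.Agent.Helper60.Unc.LpPart

/-!
Density of the products of signs, and non-separability.
-/

namespace H60Unc

open MeasureTheory Finset

section dense

variable {I : Type*} [DecidableEq I] {K : Type*} [RCLike K]

/-- indicator of a point of a finite cube as a combination of products of signs -/
theorem point_comb (s : Finset I) (v : s → Bool) (w : I → Bool) :
    (if s.restrict w = v then (1 : ℝ) else 0)
      = ∑ W ∈ s.powerset, ((2 : ℝ)⁻¹ ^ s.card *
          ∏ i ∈ W, (if h : i ∈ s then (if v ⟨i, h⟩ then (1 : ℝ) else -1) else 0)) * ∏ i ∈ W, chi i w := by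
  have h1 : (if s.restrict w = v then (1 : ℝ) else 0)
      = ∏ i ∈ s, ((2 : ℝ)⁻¹ * (1 + (if h : i ∈ s then (if v ⟨i, h⟩ then (1 : ℝ) else -1) else 0)
          * chi i w)) := by
    split_ifs with h
    · symm
      apply Finset.prod_eq_one
      intro i hi
      have h2 : w i = v ⟨i, hi⟩ := by rw [← h]; rfl
      simp only [hi, dif_pos, chi, h2]
      cases v ⟨i, hi⟩ <;> norm_num
    · symm
      have : ∃ i : s, w i ≠ v i := by
        by_contra hcon
        push Not at hcon
        apply h
        funext i
        exact hcon i
      obtain ⟨i, hi⟩ := this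
      apply Finset.prod_eq_zero i.2
      simp only [i.2, dif_pos, chi]
      cases hv : v i <;> cases hw : w (i : I) <;> simp_all
  rw [h1, Finset.prod_mul_distrib, Finset.prod_const, Finset.prod_one_add, Finset.mul_sum]
  refine Finset.sum_congr rfl fun W _ => ?_
  rw [Finset.prod_mul_distrib]
  ring

theorem dense_walsh {p : ENNReal} [Fact (1 ≤ p)] (hp : p ≠ ⊤)
    (Q : Submodule K (Lp K p (mu I))) (hQ : IsClosed (Q : Set (Lp K p (mu I))))
    (h : ∀ (W : Finset I) (f : Lp K p (mu I)),
      (f =ᵐ[mu I] fun w => ((∏ i ∈ W, chi i w : ℝ) : K)) → f ∈ Q) : Q = ⊤ := by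
  classical
  have hmemW : ∀ W : Finset I, MemLp (fun w : I → Bool => ((∏ i ∈ W, chi i w : ℝ) : K)) p (mu I) := by
    intro W
    refine MemLp.of_bound (C := 1) ?_ ?_
    · refine (RCLike.measurable_ofReal.comp (Finset.measurable_fun_prod W fun i _ => ?_)).aestronglyMeasurable
      exact (measurable_of_finite (fun b : Bool => if b then (1 : ℝ) else -1)).comp
        (measurable_pi_apply i)
    · refine Filter.Eventually.of_forall fun w => ?_
      rw [RCLike.norm_ofReal, Finset.abs_prod]
      refine (Finset.prod_eq_one fun i _ => ?_).le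
      simp only [chi]; split_ifs <;> norm_num
  -- indicators of all measurable sets
  have hind : ∀ s : Set (I → Bool), MeasurableSet s → ∀ hs : MeasurableSet s,
      indicatorConstLp p hs (measure_ne_top (mu I) s) (1 : K) ∈ Q := by
    refine MeasurableSpace.induction_on_inter (m := MeasurableSpace.pi)
      (C := fun s _ => ∀ hs : MeasurableSet s,
        indicatorConstLp p hs (measure_ne_top (mu I) s) (1 : K) ∈ Q)
      (generateFrom_measurableCylinders (α := fun _ : I => Bool)).symm
      (isPiSystem_measurableCylinders) ?_ ?_ ?_ ?_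
    · intro hs
      rw [indicatorConstLp_empty]
      exact Q.zero_mem
    · intro t ht hs
      obtain ⟨s, S, _, rfl⟩ := (mem_measurableCylinders _).mp ht
      have hsum : indicatorConstLp p hs (measure_ne_top (mu I) (cylinder s S)) (1 : K)
          = ∑ v ∈ (Finset.univ : Finset (s → Bool)).filter (· ∈ S), ∑ W ∈ s.powerset,
            (((2 : ℝ)⁻¹ ^ s.card *
              ∏ i ∈ W, (if h : i ∈ s then (if v ⟨i, h⟩ then (1 : ℝ) else -1) else 0) : ℝ) : K)
                • (hmemW W).toLp _ := by
        apply Lp.ext
        have hfin : ∀ (T : Finset ((s → Bool) × Finset I)) (co : (s → Bool) × Finset I → K),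
            ((∑ q ∈ T, co q • (hmemW q.2).toLp _ : Lp K p (mu I)) : (I → Bool) → K)
              =ᵐ[mu I] fun w => ∑ q ∈ T, co q * ((∏ i ∈ q.2, chi i w : ℝ) : K) := by
          intro T co
          induction T using Finset.induction_on with
          | empty =>
            simp only [Finset.sum_empty]
            exact Lp.coeFn_zero _ _ _
          | insert q T hq ih =>
            simp only [Finset.sum_insert hq]
            filter_upwards [Lp.coeFn_add (co q • (hmemW q.2).toLp _)
              (∑ q ∈ T, co q • (hmemW q.2).toLp _), ih,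
              Lp.coeFn_smul (co q) ((hmemW q.2).toLp _), (hmemW q.2).coeFn_toLp] with w h1 h2 h3 h4
            rw [h1, Pi.add_apply, h2, h3, Pi.smul_apply, h4, smul_eq_mul]
        have h5 := hfin (((Finset.univ : Finset (s → Bool)).filter (· ∈ S)) ×ˢ s.powerset)
          (fun q => (((2 : ℝ)⁻¹ ^ s.card *
              ∏ i ∈ q.2, (if h : i ∈ s then (if q.1 ⟨i, h⟩ then (1 : ℝ) else -1) else 0) : ℝ) : K))
        rw [Finset.sum_product] at h5
        refine (indicatorConstLp_coeFn).trans (Filter.EventuallyEq.trans ?_ h5.symm)
        refine Filter.Eventually.of_forall fun w => ?_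
        simp only
        rw [Finset.sum_product]
        simp only
        have h6 : ∀ v : s → Bool, ∑ W ∈ s.powerset, (((2 : ℝ)⁻¹ ^ s.card *
              ∏ i ∈ W, (if h : i ∈ s then (if v ⟨i, h⟩ then (1 : ℝ) else -1) else 0) : ℝ) : K)
                * ((∏ i ∈ W, chi i w : ℝ) : K) = if s.restrict w = v then 1 else 0 := by
          intro v
          have h7 := congrArg (fun z : ℝ => (z : K)) (point_comb s v w)
          simp only [map_sum, map_mul] at h7
          rw [apply_ite (fun z : ℝ => (z : K))] at h7
          simp only [RCLike.ofReal_one, RCLike.ofReal_zero] at h7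
          rw [h7]
          refine Finset.sum_congr rfl fun W _ => ?_
          simp only [map_mul]
        rw [Finset.sum_congr rfl fun v _ => h6 v, Finset.sum_ite_eq]
        simp only [Set.indicator, mem_cylinder, Finset.mem_filter, Finset.mem_univ, true_and]
      rw [hsum]
      exact Submodule.sum_mem _ fun v _ => Submodule.sum_mem _ fun W _ =>
        Submodule.smul_mem _ _ (h W _ (hmemW W).coeFn_toLp)
    · intro t ht hC hs
      have h1 : indicatorConstLp p hs (measure_ne_top (mu I) tᶜ) (1 : K)
          = (hmemW ∅).toLp _ - indicatorConstLp p ht (measure_ne_top (mu I) t) (1 : K) := by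
        apply Lp.ext
        filter_upwards [indicatorConstLp_coeFn (p := p) (hs := hs)
          (hμs := measure_ne_top (mu I) tᶜ) (c := (1 : K)),
          indicatorConstLp_coeFn (p := p) (hs := ht)
          (hμs := measure_ne_top (mu I) t) (c := (1 : K)),
          Lp.coeFn_sub ((hmemW ∅).toLp _) (indicatorConstLp p ht (measure_ne_top (mu I) t) (1 : K)),
          (hmemW ∅).coeFn_toLp] with w h1 h2 h3 h4
        rw [h1, h3, Pi.sub_apply, h2, h4]
        by_cases hw : w ∈ t
        · simp [hw]
        · simp [hw]
      rw [h1]
      exact Q.sub_mem (h ∅ _ (hmemW ∅).coeFn_toLp) (hC ht)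
    · intro f hdisj hf hC hs
      -- finite unions
      have hfinU : ∀ n : ℕ, ∀ hU : MeasurableSet (⋃ k ∈ Finset.range n, f k),
          indicatorConstLp p hU (measure_ne_top (mu I) _) (1 : K) ∈ Q := by
        intro n
        induction n with
        | zero =>
          intro hU
          have : indicatorConstLp p hU (measure_ne_top (mu I) _) (1 : K) = 0 := by
            apply Lp.ext
            refine (indicatorConstLp_coeFn.trans (Filter.Eventually.of_forall fun w => ?_)).trans
              (Lp.coeFn_zero K p (mu I)).symm
            simp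
          rw [this]
          exact Q.zero_mem
        | succ n ih =>
          intro hU
          have hU' : MeasurableSet (⋃ k ∈ Finset.range n, f k) :=
            Finset.measurableSet_biUnion _ fun k _ => hf k
          have h1 : indicatorConstLp p hU (measure_ne_top (mu I) _) (1 : K)
              = indicatorConstLp p hU' (measure_ne_top (mu I) _) (1 : K)
                + indicatorConstLp p (hf n) (measure_ne_top (mu I) _) (1 : K) := by
            apply Lp.ext
            filter_upwards [indicatorConstLp_coeFn (p := p) (hs := hU)
              (hμs := measure_ne_top (mu I) _) (c := (1 : K)),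
              indicatorConstLp_coeFn (p := p) (hs := hU')
              (hμs := measure_ne_top (mu I) _) (c := (1 : K)),
              indicatorConstLp_coeFn (p := p) (hs := hf n)
              (hμs := measure_ne_top (mu I) _) (c := (1 : K)),
              Lp.coeFn_add (indicatorConstLp p hU' (measure_ne_top (mu I) _) (1 : K))
                (indicatorConstLp p (hf n) (measure_ne_top (mu I) _) (1 : K))] with w h1 h2 h3 h4
            rw [h1, h4, Pi.add_apply, h2, h3]
            by_cases hw : w ∈ f n
            · have hw2 : w ∉ ⋃ k ∈ Finset.range n, f k := by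
                intro hcon
                simp only [Finset.mem_range, Set.mem_iUnion] at hcon
                obtain ⟨k, hk, hwk⟩ := hcon
                exact Set.disjoint_left.mp (hdisj (ne_of_lt hk)) hwk hw
              have hw3 : w ∈ ⋃ k ∈ Finset.range (n + 1), f k := by
                simp only [Finset.mem_range, Set.mem_iUnion]
                exact ⟨n, Nat.lt_succ_self n, hw⟩
              simp only [Set.indicator, hw, hw2, hw3, if_true, if_false, zero_add]
            · have hw2 : (w ∈ ⋃ k ∈ Finset.range (n + 1), f k) ↔ w ∈ ⋃ k ∈ Finset.range n, f k := by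
                simp only [Finset.mem_range, Set.mem_iUnion]
                constructor
                · rintro ⟨k, hk, hwk⟩
                  rcases Nat.lt_succ_iff_lt_or_eq.mp hk with hk | hk
                  · exact ⟨k, hk, hwk⟩
                  · subst hk; exact absurd hwk hw
                · rintro ⟨k, hk, hwk⟩
                  exact ⟨k, hk.trans (Nat.lt_succ_self n), hwk⟩
              simp only [Set.indicator, hw, hw2, if_false, add_zero]
          rw [h1]
          exact Q.add_mem (ih hU') (hC n (hf n))
      have hlim : Filter.Tendsto (fun n => indicatorConstLp p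
          (Finset.measurableSet_biUnion (Finset.range n) fun k _ => hf k)
          (measure_ne_top (mu I) _) (1 : K)) Filter.atTop
          (nhds (indicatorConstLp p hs (measure_ne_top (mu I) _) (1 : K))) := by
        apply tendsto_indicatorConstLp_set hp
        have h1 : ∀ n, symmDiff (⋃ k ∈ Finset.range n, f k) (⋃ k, f k)
            = (⋃ k, f k) \ (⋃ k ∈ Finset.range n, f k) := by
          intro n
          apply symmDiff_of_le
          intro w hw
          simp only [Finset.mem_range, Set.mem_iUnion] at hw ⊢
          obtain ⟨k, _, hk⟩ := hw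
          exact ⟨k, hk⟩
        simp only [h1]
        have h2 : (⋂ n, ((⋃ k, f k) \ (⋃ k ∈ Finset.range n, f k))) = ∅ := by
          ext w
          simp only [Set.mem_iInter, Set.mem_sdiff, Set.mem_iUnion, Finset.mem_range,
            Set.mem_empty_iff_false, iff_false, not_forall]
          by_cases hw : ∃ k, w ∈ f k
          · obtain ⟨k, hk⟩ := hw
            refine ⟨k + 1, fun hcon => hcon.2 ⟨k, Nat.lt_succ_self k, hk⟩⟩
          · exact ⟨0, fun hcon => hw hcon.1⟩
        have h3 := tendsto_measure_iInter_atTop (μ := mu I)
          (s := fun n => (⋃ k, f k) \ (⋃ k ∈ Finset.range n, f k))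
          (fun n => (hs.diff (Finset.measurableSet_biUnion _ fun k _ => hf k)).nullMeasurableSet)
          (by
            intro m n hmn
            refine Set.sdiff_subset_sdiff_right ?_
            intro w hw
            simp only [Finset.mem_range, Set.mem_iUnion] at hw ⊢
            obtain ⟨k, hk, hwk⟩ := hw
            exact ⟨k, lt_of_lt_of_le hk hmn, hwk⟩)
          ⟨0, measure_ne_top _ _⟩
        rw [h2, measure_empty] at h3
        exact h3
      exact hQ.mem_of_tendsto hlim (Filter.Eventually.of_forall fun n => hfinU n _)
  rw [eq_top_iff]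
  intro f _
  refine Lp.induction hp (motive := fun f => f ∈ Q) ?_ ?_ hQ f
  · intro c s hs hμs
    have h1 : (Lp.simpleFunc.indicatorConst p hs hμs.ne c : Lp K p (mu I))
        = c • indicatorConstLp p hs (measure_ne_top (mu I) s) (1 : K) := by
      rw [Lp.simpleFunc.coe_indicatorConst]
      apply Lp.ext
      filter_upwards [indicatorConstLp_coeFn (p := p) (hs := hs)
        (hμs := measure_ne_top (mu I) s) (c := (1 : K)),
        indicatorConstLp_coeFn (p := p) (hs := hs) (hμs := hμs.ne) (c := c),
        Lp.coeFn_smul c (indicatorConstLp p hs (measure_ne_top (mu I) s) (1 : K))] with w h1 h2 h3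
      rw [h2, h3, Pi.smul_apply, h1]
      by_cases hw : w ∈ s
      · simp [hw]
      · simp [hw]
    rw [h1]
    exact Q.smul_mem _ (hind s hs hs)
  · intro f g hf hg _ h1 h2
    exact Q.add_mem h1 h2

end dense

section nonsep

variable {I : Type*} [LinearOrder I] (K : Type*) [RCLike K]

theorem dist_ge (P : Pack I) {a b : I} (hab : a ≠ b) :
    1 ≤ ‖E K (some (Sum.inl a) : Idx P) - E K (some (Sum.inl b) : Idx P)‖ := by
  classical
  have h0 : ((E K (some (Sum.inl a) : Idx P) - E K (some (Sum.inl b) : Idx P) :
      Lp K 4 (mu I)) : (I → Bool) → K) =ᵐ[mu I] fun w => ((chi a w - chi b w : ℝ) : K) := by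
    filter_upwards [Lp.coeFn_sub (E K (some (Sum.inl a) : Idx P)) (E K (some (Sum.inl b) : Idx P)),
      E_coe K (some (Sum.inl a) : Idx P), E_coe K (some (Sum.inl b) : Idx P)] with w h1 h2 h3
    rw [h1, Pi.sub_apply, h2, h3]
    simp only [e]
    push_cast
    rfl
  have h1 := norm_pow_four K _ _ h0
  have h2 : ∫ w, ‖((chi a w - chi b w : ℝ) : K)‖ ^ 4 ∂(mu I) = 8 := by
    have h3 : ∀ w : I → Bool, ‖((chi a w - chi b w : ℝ) : K)‖ ^ 4
        = 8 - 8 * (chi (⟨a, by simp⟩ : ({a, b} : Finset I)) (Finset.restrict {a, b} w)
          * chi (⟨b, by simp⟩ : ({a, b} : Finset I)) (Finset.restrict {a, b} w)) := by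
      intro w
      rw [RCLike.norm_ofReal]
      simp only [chi, Finset.restrict]
      split_ifs <;> norm_num
    simp only [h3]
    rw [integral_mu_restrict ({a, b} : Finset I) (fun v => 8 - 8 * (chi (⟨a, by simp⟩ :
      ({a, b} : Finset I)) v * chi (⟨b, by simp⟩ : ({a, b} : Finset I)) v))]
    rw [ex_sub, ex_const, ex_smul, ex_chi_mul]
    · norm_num
    · apply chi_ind
      intro h
      exact hab (congrArg Subtype.val h).symm
  rw [h2] at h1
  by_contra hcon
  push Not at hcon
  have h4 : ‖E K (some (Sum.inl a) : Idx P) - E K (some (Sum.inl b) : Idx P)‖ ^ 4 ≤ 1 :=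
    pow_le_one₀ (norm_nonneg _) hcon.le
  linarith

theorem not_separable (P : Pack I) [Uncountable I] :
    ¬ TopologicalSpace.SeparableSpace (Lp K 4 (mu I)) := by
  intro hsep
  have h1 : Pairwise (Function.onFun Disjoint
      (fun a : I => Metric.ball (E K (some (Sum.inl a) : Idx P)) (1 / 2))) := by
    intro a b hab
    apply Metric.ball_disjoint_ball
    rw [dist_eq_norm]
    have := dist_ge K P hab
    linarith
  have h2 := h1.countable_of_isOpen_disjoint (fun _ => Metric.isOpen_ball)
    (fun a => ⟨_, Metric.mem_ball_self (by norm_num)⟩)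
  exact not_countable h2

end nonsep

end H60Unc
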