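import Pool.Agent.Helper60.Unc.MajA

/-!
The weak type estimate, the operator, and the majorant weights.
-/

set_option linter.unusedSectionVars false

open Finset H60Unc

namespace H550Unc
noncomputable section

variable {V : Type} [LinearOrder V] [Fintype V]

variable {L : Lev V}


theorem Kc_pos (m : ℕ) : ∀ n, 0 < Kc m n := by
  induction m with
  | zero => intro n; simp [Kc]
  | succ m ih =>
    intro n
    have := ih (n + 1)
    simp only [Kc]
    positivity

theorem step1 (w : (V → Bool) → ℝ) (Λ : ℝ) (l : List (Cyl L))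
    (h : ∀ c ∈ l, Λ * ex c.i ≤ ex (fun o => w o * c.i o)) :
    Λ * ex (Phi l) ≤ ex (fun o => w o * Phi l o) := by
  induction l with
  | nil =>
    have h1 : Phi ([] : List (Cyl L)) = fun _ => 0 := by funext w; rfl
    rw [h1, ex_const]
    simp only [mul_zero]
    rw [ex_const]
  | cons c l ih =>
    have ih' := ih (fun c' hc' => h c' (List.mem_cons_of_mem _ hc'))
    have hc := h c List.mem_cons_self
    have h1 : Phi (c :: l) = fun w => pI c l * c.i w + Phi l w := by funext w; rfl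
    have h2 : (fun o => w o * Phi (c :: l) o) =
        fun o => pI c l * (w o * c.i o) + w o * Phi l o := by
      funext o; rw [h1]; ring
    rw [h2, h1, ex_add, ex_add, ex_smul, ex_smul]
    have := mul_le_mul_of_nonneg_left hc (pI_nonneg c l)
    have e : ex (fun w => c.i w) = ex c.i := rfl
    rw [e]
    linarith

theorem young_aux (m : ℕ) (hm : 1 ≤ m) {a b t : ℝ} (ha : 0 ≤ a) (hb : 0 ≤ b) (ht : 0 < t) :
    a * b ≤ t ^ (1 + 1 / (m : ℝ)) * a ^ (1 + 1 / (m : ℝ)) + (t ^ (m + 1))⁻¹ * b ^ (m + 1) := by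
  have hm0 : (0 : ℝ) < m := by exact_mod_cast hm
  have hconj : (1 + 1 / (m : ℝ)).HolderConjugate ((m : ℝ) + 1) := by
    rw [Real.holderConjugate_iff]
    constructor
    · have : 0 < 1 / (m : ℝ) := by positivity
      linarith
    · field_simp
  have h := Real.young_inequality_of_nonneg (a := t * a) (b := b / t) (by positivity)
    (by positivity) hconj
  have h1 : t * a * (b / t) = a * b := by field_simp
  have h2 : (t * a) ^ (1 + 1 / (m : ℝ)) / (1 + 1 / (m : ℝ)) ≤
      t ^ (1 + 1 / (m : ℝ)) * a ^ (1 + 1 / (m : ℝ)) := by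
    rw [Real.mul_rpow ht.le ha]
    refine div_le_self (by positivity) ?_
    have : 0 < 1 / (m : ℝ) := by positivity
    linarith
  have h3 : (b / t) ^ ((m : ℝ) + 1) / ((m : ℝ) + 1) ≤ (t ^ (m + 1))⁻¹ * b ^ (m + 1) := by
    have e : (b / t) ^ ((m : ℝ) + 1) = (t ^ (m + 1))⁻¹ * b ^ (m + 1) := by
      have : (m : ℝ) + 1 = ((m + 1 : ℕ) : ℝ) := by push_cast; ring
      rw [this, Real.rpow_natCast, div_pow, div_eq_inv_mul]
    rw [e]
    exact div_le_self (by positivity) (by linarith)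
  rw [h1] at h
  linarith

theorem weak_type (m : ℕ) (hm : 1 ≤ m) : ∃ C : ℝ, 0 < C ∧
    ∀ (V : Type) [LinearOrder V] [Fintype V] (L : Lev V) (w : (V → Bool) → ℝ) (Λ θ : ℝ)
      (l : List (Cyl L)), (∀ o, 0 ≤ w o) → 0 < Λ → 0 < θ → θ ≤ 1 → Good θ l →
      (∀ c ∈ l, Λ * ex c.i ≤ ex (fun o => w o * c.i o)) →
      ex (fun o => 1 - Nn l o) ≤ C * (1 + Real.log (1 / θ)) * Λ ^ (-(1 + 1 / (m : ℝ)))
        * ex (fun o => if Λ / 2 < w o then (w o) ^ (1 + 1 / (m : ℝ)) else 0) := by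
  have hm0 : (0 : ℝ) < m := by exact_mod_cast hm
  obtain ⟨M, hM⟩ : ∃ M : ℝ, M = (m + 1) * 2 ^ m * Kc m 1 := ⟨_, rfl⟩
  have hMpos : 0 < M := by
    rw [hM]
    have := Kc_pos m 1
    positivity
  refine ⟨4 * (4 * M) ^ (1 / (m : ℝ)), by positivity, ?_⟩
  intro V _ _ L w Λ θ l hw hΛ hθ hθ1 hl hc
  have hmom := moment m l hθ hθ1 hl
  rw [← hM] at hmom
  obtain ⟨G, hG⟩ : ∃ G : ℝ, G = 1 + Real.log (1 / θ) := ⟨_, rfl⟩
  have hG1 : 1 ≤ G := by
    rw [hG]
    have : 0 ≤ Real.log (1 / θ) := by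
      apply Real.log_nonneg
      rw [le_div_iff₀ hθ]; linarith
    linarith
  rw [← hG] at hmom ⊢
  have hG0 : 0 < G := by linarith
  rw [← ex_Phi]
  obtain ⟨P, hP⟩ : ∃ P : ℝ, P = ex (Phi l) := ⟨_, rfl⟩
  have hP0 : 0 ≤ P := by rw [hP]; exact ex_nonneg (Phi_nonneg l)
  rw [← hP] at hmom ⊢
  obtain ⟨w1, hw1⟩ : ∃ w1 : (V → Bool) → ℝ, ∀ o, w1 o = if Λ / 2 < w o then w o else 0 :=
    ⟨_, fun _ => rfl⟩
  have hw1n : ∀ o, 0 ≤ w1 o := by
    intro o; rw [hw1]; split_ifs
    · exact hw o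
    · exact le_rfl
  have hw1w : ∀ o, w o ≤ w1 o + Λ / 2 := by
    intro o; rw [hw1]; split_ifs with h
    · linarith
    · linarith [not_lt.1 h]
  have s1 := step1 w Λ l hc
  rw [← hP] at s1
  have s2 : Λ / 2 * P ≤ ex (fun o => w1 o * Phi l o) := by
    have h1 : ex (fun o => w o * Phi l o) ≤ ex (fun o => w1 o * Phi l o + (Λ / 2) * Phi l o) := by
      refine ex_mono fun o => ?_
      have := mul_le_mul_of_nonneg_right (hw1w o) (Phi_nonneg l o)
      linarith
    rw [ex_add, ex_smul] at h1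
    have e : ex (fun o => Phi l o) = P := hP.symm
    rw [e] at h1
    linarith
  -- the parameter
  obtain ⟨u, hu⟩ : ∃ u : ℝ, u = 4 * M * G ^ m / Λ := ⟨_, rfl⟩
  have hu0 : 0 < u := by rw [hu]; positivity
  obtain ⟨t, ht⟩ : ∃ t : ℝ, t = u ^ (1 / ((m : ℝ) + 1)) := ⟨_, rfl⟩
  have ht0 : 0 < t := by rw [ht]; positivity
  have ht1 : t ^ (m + 1) = u := by
    rw [ht, ← Real.rpow_natCast, ← Real.rpow_mul hu0.le]
    have : 1 / ((m : ℝ) + 1) * ((m + 1 : ℕ) : ℝ) = 1 := by push_cast; field_simp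
    rw [this, Real.rpow_one]
  have ht2 : t ^ (1 + 1 / (m : ℝ)) = u ^ (1 / (m : ℝ)) := by
    rw [ht, ← Real.rpow_mul hu0.le]
    congr 1
    field_simp
  have s3 : ex (fun o => w1 o * Phi l o) ≤
      u ^ (1 / (m : ℝ)) * ex (fun o => w1 o ^ (1 + 1 / (m : ℝ))) +
      u⁻¹ * ex (fun o => Phi l o ^ (m + 1)) := by
    rw [← ex_smul, ← ex_smul, ← ex_add]
    refine ex_mono fun o => ?_
    have := young_aux m hm (hw1n o) (Phi_nonneg l o) ht0
    rw [ht1, ht2] at this
    exact this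
  have s4 : u⁻¹ * ex (fun o => Phi l o ^ (m + 1)) ≤ Λ / 4 * P := by
    refine (mul_le_mul_of_nonneg_left hmom (inv_nonneg.2 hu0.le)).trans (le_of_eq ?_)
    rw [hu]
    have : G ^ m ≠ 0 := by positivity
    field_simp
  have hE : ex (fun o => w1 o ^ (1 + 1 / (m : ℝ))) =
      ex (fun o => if Λ / 2 < w o then (w o) ^ (1 + 1 / (m : ℝ)) else 0) := by
    congr 1
    funext o
    rw [hw1]
    split_ifs
    · rfl
    · rw [Real.zero_rpow]
      have : 0 < 1 / (m : ℝ) := by positivity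
      linarith
  rw [hE] at s3
  obtain ⟨E, hEE⟩ : ∃ E : ℝ,
    E = ex (fun o => if Λ / 2 < w o then (w o) ^ (1 + 1 / (m : ℝ)) else 0) := ⟨_, rfl⟩
  rw [← hEE] at s3 ⊢
  have s5 : u ^ (1 / (m : ℝ)) = (4 * M) ^ (1 / (m : ℝ)) * G * Λ ^ (-(1 / (m : ℝ))) := by
    rw [hu, Real.div_rpow (by positivity) hΛ.le, Real.mul_rpow (by positivity) (by positivity),
      Real.rpow_neg hΛ.le, div_eq_mul_inv]
    congr 2
    rw [← Real.rpow_natCast G m, ← Real.rpow_mul hG0.le]
    have : (m : ℝ) * (1 / (m : ℝ)) = 1 := by field_simp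
    rw [this, Real.rpow_one]
  have s6 : Λ ^ (-(1 + 1 / (m : ℝ))) = Λ⁻¹ * Λ ^ (-(1 / (m : ℝ))) := by
    rw [neg_add, Real.rpow_add hΛ, Real.rpow_neg_one]
  rw [s6]
  have s7 : Λ / 4 * P ≤ (4 * M) ^ (1 / (m : ℝ)) * G * Λ ^ (-(1 / (m : ℝ))) * E := by
    rw [← s5]
    linarith
  have s8 := mul_le_mul_of_nonneg_left s7 (by positivity : (0 : ℝ) ≤ 4 * Λ⁻¹)
  calc P = 4 * Λ⁻¹ * (Λ / 4 * P) := by field_simp
    _ ≤ _ := s8
    _ = _ := by ring

theorem sum_wt (K : ℕ) : ∑ k ∈ Finset.range (K+1), (1 + 2 * (k:ℝ)) * (1/2)^k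
    = 6 - (2 * K + 5) * (1/2)^K := by
  induction K with
  | zero => norm_num
  | succ K ih => rw [Finset.sum_range_succ, ih]; push_cast; rw [pow_succ]; ring

theorem sum_wt_le (n : ℕ) : ∑ k ∈ Finset.range n, (1 + 2 * (k:ℝ)) * (1/2)^k ≤ 6 := by
  cases n with
  | zero => norm_num
  | succ K =>
    rw [sum_wt]
    have : 0 ≤ (2 * (K:ℝ) + 5) * (1/2)^K := by positivity
    linarith

theorem geo_pt (s : ℝ) (hs : 0 < s) (y : ℝ) (hy : 1 ≤ y) (J : ℕ) :
    ∑ j ∈ Finset.range J, (if (2:ℝ)^(j+1) / 2 < y then ((2:ℝ)^(j+1))^s else 0)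
      ≤ (2:ℝ)^s / ((2:ℝ)^s - 1) * (2 * y)^s := by
  have hx : (1:ℝ) < (2:ℝ)^s := Real.one_lt_rpow (by norm_num) hs
  have hx1 : 0 < (2:ℝ)^s - 1 := by linarith
  have hR : 0 ≤ (2:ℝ)^s / ((2:ℝ)^s - 1) * (2 * y)^s := by positivity
  have hpw : ∀ n : ℕ, ((2:ℝ)^n)^s = ((2:ℝ)^s)^n := fun n => by
    rw [← Real.rpow_natCast, ← Real.rpow_mul (by norm_num), mul_comm,
      Real.rpow_mul (by norm_num), Real.rpow_natCast]
  induction J with
  | zero => simpa using hR
  | succ J ih =>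
    by_cases h : (2:ℝ)^(J+1) / 2 < y
    · have h1 : ∑ j ∈ Finset.range (J+1), (if (2:ℝ)^(j+1) / 2 < y then ((2:ℝ)^(j+1))^s else 0)
          ≤ ∑ j ∈ Finset.range (J+1), ((2:ℝ)^s)^(j+1) := by
        refine Finset.sum_le_sum fun j _ => ?_
        split_ifs
        · exact (hpw _).le
        · positivity
      have h2 : ∀ n : ℕ, ∑ j ∈ Finset.range n, ((2:ℝ)^s)^(j+1)
          ≤ (2:ℝ)^s / ((2:ℝ)^s - 1) * ((2:ℝ)^s)^n := by
        intro n
        induction n with
        | zero => simp; positivity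
        | succ n ihn =>
          rw [Finset.sum_range_succ]
          refine le_trans (add_le_add_left ihn _) ?_
          generalize (2:ℝ)^s = x at *
          have e : x / (x - 1) * x ^ (n+1) - (x / (x - 1) * x ^ n + x ^ (n + 1)) = 0 := by
            field_simp
            ring
          linarith
      refine h1.trans ((h2 _).trans ?_)
      refine mul_le_mul_of_nonneg_left ?_ (by positivity)
      rw [← hpw]
      refine Real.rpow_le_rpow (by positivity) ?_ hs.le
      linarith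
    · rw [Finset.sum_range_succ, if_neg h, add_zero]
      exact ih

theorem sum_dyad (n : ℕ) :
    (1/2:ℝ)^n + ∑ i ∈ Finset.range n, (1/2:ℝ)^i * (1/4)^(n - i - 1) ≤ 5 * (1/2)^n := by
  have h : ∑ i ∈ Finset.range n, (1/2:ℝ)^i * (1/4)^(n - i - 1)
      = 4 * (1/2)^n - 4 * (1/4)^n := by
    rw [← Finset.sum_range_reflect]
    have h1 : ∑ j ∈ Finset.range n, (1/2:ℝ)^(n - 1 - j) * (1/4)^(n - (n - 1 - j) - 1)
        = ∑ j ∈ Finset.range n, 2 * (1/2:ℝ)^n * (1/2)^j := by
      refine Finset.sum_congr rfl fun j hj => ?_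
      have hj' := Finset.mem_range.mp hj
      obtain ⟨d, rfl⟩ : ∃ d, n = j + d + 1 := ⟨n - j - 1, by omega⟩
      have e1 : j + d + 1 - 1 - j = d := by omega
      have e2 : j + d + 1 - d - 1 = j := by omega
      rw [e1, e2]
      have : (1/4:ℝ) = (1/2) * (1/2) := by norm_num
      rw [this, mul_pow, pow_add, pow_add]
      ring
    rw [h1, ← Finset.mul_sum]
    rw [geom_sum_eq (by norm_num)]
    have : (1/4:ℝ) = (1/2) * (1/2) := by norm_num
    rw [this, mul_pow]
    ring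
  rw [h]
  have : (0:ℝ) ≤ (1/4)^n := by positivity
  linarith

theorem operator (r : ℝ) (hr : 1 < r) : ∃ C : ℝ, 1 ≤ C ∧
    ∀ (V : Type) [LinearOrder V] [Fintype V] (L : Lev V) (all : List (Cyl L)),
      all.Pairwise (fun a b => b.n ≤ a.n) → ∀ w : (V → Bool) → ℝ, (∀ o, 1 ≤ w o) →
      ∃ u : (V → Bool) → ℝ, (∀ o, 1 ≤ u o) ∧
        ex (fun o => u o ^ r) ≤ C * ex (fun o => w o ^ r) ∧
        ∀ c ∈ all, ex (fun o => (u o)⁻¹ * c.i o) * ex (fun o => w o * c.i o)
          ≤ 10 * ex c.i ^ 2 := by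
  -- choose m
  obtain ⟨m, hm1, hmr⟩ : ∃ m : ℕ, 1 ≤ m ∧ 1 + 1 / (m:ℝ) < r := by
    obtain ⟨n, hn⟩ := exists_nat_one_div_lt (sub_pos.mpr hr)
    refine ⟨n + 1, by omega, ?_⟩
    push_cast
    linarith
  obtain ⟨Cw, hCw, hweak⟩ := weak_type m hm1
  set q : ℝ := 1 + 1 / (m:ℝ) with hq
  set s : ℝ := r - q with hs
  have hs0 : 0 < s := by rw [hs]; linarith
  have hx : (1:ℝ) < (2:ℝ)^s := Real.one_lt_rpow (by norm_num) hs0
  have hx1 : 0 < (2:ℝ)^s - 1 := by linarith
  have hr0 : 0 < r := by linarith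
  have hq0 : 0 < q := by rw [hq]; positivity
  refine ⟨1 + 6 * Cw * ((2:ℝ)^s / ((2:ℝ)^s - 1)) * (2:ℝ)^s, ?_, ?_⟩
  · have : 0 ≤ 6 * Cw * ((2:ℝ)^s / ((2:ℝ)^s - 1)) * (2:ℝ)^s := by positivity
    linarith
  intro V _ _ L all hall w hw
  have hw0 : ∀ o, 0 ≤ w o := fun o => by linarith [hw o]
  -- a bound for w
  obtain ⟨J, hJ⟩ : ∃ J : ℕ, ∀ o, w o < 2^J := by
    obtain ⟨J, hJ⟩ := pow_unbounded_of_one_lt (∑ o, w o) (by norm_num : (1:ℝ) < 2)
    refine ⟨J, fun o => lt_of_le_of_lt ?_ hJ⟩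
    exact Finset.single_le_sum (fun i _ => hw0 i) (Finset.mem_univ o)
  -- the selected lists
  have hsel : ∀ j k : ℕ, ∃ l : List (Cyl L), Good ((1/4:ℝ)^k) l ∧
      (∀ c ∈ l, (2:ℝ)^j * ex c.i ≤ ex (fun o => w o * c.i o)) ∧
      (∀ c ∈ all, (2:ℝ)^j * ex c.i ≤ ex (fun o => w o * c.i o) →
        ex (fun o => Nn l o * c.i o) ≤ (1/4:ℝ)^k * ex c.i) := fun j k =>
    selection w ((2:ℝ)^j) (by positivity) (pow_le_one₀ (by norm_num) (by norm_num)) all hall
  choose l hl1 hl2 hl3 using hsel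
  set F : (V → Bool) → ℝ := fun o => 1 + ∑ j ∈ Finset.range J, ∑ k ∈ Finset.range (j+2),
    ((2:ℝ)^(j+1-k))^r * (1 - Nn (l (j+1) k) o) with hF
  have hD : ∀ j k o, 0 ≤ 1 - Nn (l j k) o := fun j k o => sub_nonneg.mpr (Nn_le_one _ _)
  have hterm : ∀ j k o, 0 ≤ ((2:ℝ)^(j+1-k))^r * (1 - Nn (l (j+1) k) o) := fun j k o =>
    mul_nonneg (by positivity) (hD _ _ _)
  have hF1 : ∀ o, 1 ≤ F o := fun o => by
    have : 0 ≤ ∑ j ∈ Finset.range J, ∑ k ∈ Finset.range (j+2),
      ((2:ℝ)^(j+1-k))^r * (1 - Nn (l (j+1) k) o) :=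
      Finset.sum_nonneg fun j _ => Finset.sum_nonneg fun k _ => hterm j k o
    simp only [hF]
    linarith
  have hF2 : ∀ j ∈ Finset.range J, ∀ k ∈ Finset.range (j+2), ∀ o, Nn (l (j+1) k) o = 0 →
      ((2:ℝ)^(j+1-k))^r ≤ F o := by
    intro j hj k hk o ho
    have h1 : ∑ k ∈ Finset.range (j+2), ((2:ℝ)^(j+1-k))^r * (1 - Nn (l (j+1) k) o)
        ≤ ∑ j ∈ Finset.range J, ∑ k ∈ Finset.range (j+2),
          ((2:ℝ)^(j+1-k))^r * (1 - Nn (l (j+1) k) o) :=
      Finset.single_le_sum (f := fun j => ∑ k ∈ Finset.range (j+2),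
          ((2:ℝ)^(j+1-k))^r * (1 - Nn (l (j+1) k) o))
        (fun j _ => Finset.sum_nonneg fun k _ => hterm j k o) hj
    have h2 : ((2:ℝ)^(j+1-k))^r * (1 - Nn (l (j+1) k) o)
        ≤ ∑ k ∈ Finset.range (j+2), ((2:ℝ)^(j+1-k))^r * (1 - Nn (l (j+1) k) o) :=
      Finset.single_le_sum (f := fun k => ((2:ℝ)^(j+1-k))^r * (1 - Nn (l (j+1) k) o))
        (fun k _ => hterm j k o) hk
    rw [ho, sub_zero, mul_one] at h2
    simp only [hF]
    linarith
  set u : (V → Bool) → ℝ := fun o => (F o)^(1/r) with hu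
  have hu1 : ∀ o, 1 ≤ u o := fun o => Real.one_le_rpow (hF1 o) (by positivity)
  have hur : ∀ o, u o ^ r = F o := fun o => by
    simp only [hu]
    rw [← Real.rpow_mul (by linarith [hF1 o]), one_div, inv_mul_cancel₀ hr0.ne', Real.rpow_one]
  have hu2 : ∀ j ∈ Finset.range J, ∀ k ∈ Finset.range (j+2), ∀ o, Nn (l (j+1) k) o = 0 →
      (2:ℝ)^(j+1-k) ≤ u o := by
    intro j hj k hk o ho
    have h := hF2 j hj k hk o ho
    rw [← hur] at h
    exact (Real.rpow_le_rpow_iff (by positivity) (by linarith [hu1 o]) hr0).mp h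
  refine ⟨u, hu1, ?_, ?_⟩
  · -- part (a)
    have e1 : (fun o => u o ^ r) = fun o => 1 + ∑ j ∈ Finset.range J,
        ∑ k ∈ Finset.range (j+2), ((2:ℝ)^(j+1-k))^r * (1 - Nn (l (j+1) k) o) := by
      funext o; rw [hur]
    have e2 : ex (fun o => u o ^ r) = 1 + ∑ j ∈ Finset.range J,
        ∑ k ∈ Finset.range (j+2), ((2:ℝ)^(j+1-k))^r * ex (fun o => 1 - Nn (l (j+1) k) o) := by
      rw [e1, ex_add, ex_const, ex_sum]
      congr 1
      refine Finset.sum_congr rfl fun j _ => ?_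
      rw [ex_sum]
      refine Finset.sum_congr rfl fun k _ => ?_
      rw [ex_smul]
    set E : ℕ → ℝ := fun j => ex (fun o => if (2:ℝ)^(j+1) / 2 < w o then (w o) ^ q else 0) with hE
    have hE0 : ∀ j, 0 ≤ E j := fun j => ex_nonneg fun o => by
      split_ifs
      · exact Real.rpow_nonneg (hw0 o) _
      · exact le_rfl
    have hone : ∀ j k : ℕ, k ∈ Finset.range (j+2) →
        ((2:ℝ)^(j+1-k))^r * ex (fun o => 1 - Nn (l (j+1) k) o)
          ≤ Cw * (((2:ℝ)^(j+1))^s * E j) * ((1 + 2 * (k:ℝ)) * (1/2)^k) := by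
      intro j k hk
      have hk' := Finset.mem_range.mp hk
      have h1 := hweak V L w ((2:ℝ)^(j+1)) ((1/4:ℝ)^k) (l (j+1) k) hw0 (by positivity)
        (by positivity) (pow_le_one₀ (by norm_num) (by norm_num)) (hl1 _ _) (hl2 _ _)
      have hlog : 1 + Real.log (1 / (1/4:ℝ)^k) ≤ 1 + 2 * (k:ℝ) := by
        have e : (1 / (1/4:ℝ)^k) = 4^k := by
          rw [one_div, one_div, inv_pow, inv_inv]
        rw [e, Real.log_pow]
        have h4 : Real.log 4 ≤ 2 := by
          have : (4:ℝ) = 2^2 := by norm_num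
          rw [this, Real.log_pow]
          have := Real.log_two_lt_d9
          push_cast
          linarith
        have : (k:ℝ) * Real.log 4 ≤ k * 2 := mul_le_mul_of_nonneg_left h4 (by positivity)
        linarith
      have hpos : (0:ℝ) < (2:ℝ)^(j+1) := by positivity
      have hA : ((2:ℝ)^(j+1-k))^r ≤ ((2:ℝ)^(j+1))^r * (1/2)^k := by
        have e : (2:ℝ)^(j+1-k) = (2:ℝ)^(j+1) * (1/2)^k := by
          have : (2:ℝ)^(j+1) = 2^(j+1-k) * 2^k := by
            rw [← pow_add]; congr 1; omega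
          rw [this, mul_assoc, ← mul_pow]
          norm_num
        rw [e, Real.mul_rpow (by positivity) (by positivity)]
        refine mul_le_mul_of_nonneg_left ?_ (by positivity)
        have h := Real.rpow_le_rpow_of_exponent_ge (x := (1/2:ℝ)^k) (by positivity)
          (pow_le_one₀ (by norm_num) (by norm_num)) hr.le
        rwa [Real.rpow_one] at h
      have hs' : ((2:ℝ)^(j+1))^s = ((2:ℝ)^(j+1))^r * ((2:ℝ)^(j+1))^(-q) := by
        rw [← Real.rpow_add hpos]; congr 1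
      have h2 : ex (fun o => 1 - Nn (l (j+1) k) o)
          ≤ Cw * (1 + 2 * (k:ℝ)) * ((2:ℝ)^(j+1))^(-q) * E j := by
        refine h1.trans ?_
        refine mul_le_mul_of_nonneg_right ?_ (hE0 j)
        refine mul_le_mul_of_nonneg_right ?_ (by positivity)
        exact mul_le_mul_of_nonneg_left hlog hCw.le
      calc ((2:ℝ)^(j+1-k))^r * ex (fun o => 1 - Nn (l (j+1) k) o)
          ≤ (((2:ℝ)^(j+1))^r * (1/2)^k) * (Cw * (1 + 2 * (k:ℝ)) * ((2:ℝ)^(j+1))^(-q) * E j) := by
            refine mul_le_mul hA h2 (ex_nonneg fun o => hD _ _ o) (by positivity)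
        _ = Cw * (((2:ℝ)^(j+1))^s * E j) * ((1 + 2 * (k:ℝ)) * (1/2)^k) := by
            rw [hs']; ring
    have hsum : ∑ j ∈ Finset.range J, ∑ k ∈ Finset.range (j+2),
        ((2:ℝ)^(j+1-k))^r * ex (fun o => 1 - Nn (l (j+1) k) o)
        ≤ ∑ j ∈ Finset.range J, 6 * Cw * (((2:ℝ)^(j+1))^s * E j) := by
      refine Finset.sum_le_sum fun j _ => ?_
      refine (Finset.sum_le_sum fun k hk => hone j k hk).trans ?_
      rw [← Finset.mul_sum]
      have h6 := sum_wt_le (j+2)
      have hnn : 0 ≤ Cw * (((2:ℝ)^(j+1))^s * E j) :=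
        mul_nonneg hCw.le (mul_nonneg (by positivity) (hE0 j))
      nlinarith [mul_le_mul_of_nonneg_left h6 hnn]
    have hint : ∑ j ∈ Finset.range J, (((2:ℝ)^(j+1))^s * E j)
        ≤ (2:ℝ)^s / ((2:ℝ)^s - 1) * (2:ℝ)^s * ex (fun o => w o ^ r) := by
      have e3 : ∑ j ∈ Finset.range J, (((2:ℝ)^(j+1))^s * E j)
          = ex (fun o => ∑ j ∈ Finset.range J, ((2:ℝ)^(j+1))^s *
            (if (2:ℝ)^(j+1) / 2 < w o then (w o) ^ q else 0)) := by
        rw [ex_sum]
        refine Finset.sum_congr rfl fun j _ => ?_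
        rw [ex_smul]
      rw [e3, ← ex_smul]
      refine ex_mono fun o => ?_
      have h1 := geo_pt s hs0 (w o) (hw o) J
      have hwq : 0 ≤ w o ^ q := Real.rpow_nonneg (hw0 o) _
      have h2 := mul_le_mul_of_nonneg_left h1 hwq
      rw [Finset.mul_sum] at h2
      refine le_trans (le_of_eq ?_) (h2.trans (le_of_eq ?_))
      · refine Finset.sum_congr rfl fun j _ => ?_
        split_ifs
        · ring
        · ring
      · rw [Real.mul_rpow (by norm_num) (hw0 o)]
        have : w o ^ r = w o ^ q * w o ^ s := by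
          rw [← Real.rpow_add (by linarith [hw o])]; congr 1; rw [hs]; ring
        rw [this]; ring
    have hwr : 1 ≤ ex (fun o => w o ^ r) := by
      have h := ex_mono (f := fun _ : V → Bool => (1:ℝ)) (g := fun o => w o ^ r)
        fun o => Real.one_le_rpow (hw o) hr0.le
      rwa [ex_const] at h
    rw [e2]
    have h3 : ∑ j ∈ Finset.range J, 6 * Cw * (((2:ℝ)^(j+1))^s * E j)
        ≤ 6 * Cw * ((2:ℝ)^s / ((2:ℝ)^s - 1) * (2:ℝ)^s * ex (fun o => w o ^ r)) := by
      rw [← Finset.mul_sum]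
      exact mul_le_mul_of_nonneg_left hint (by positivity)
    have h4 := hsum.trans h3
    calc 1 + ∑ j ∈ Finset.range J, ∑ k ∈ Finset.range (j+2),
        ((2:ℝ)^(j+1-k))^r * ex (fun o => 1 - Nn (l (j+1) k) o)
        ≤ ex (fun o => w o ^ r) +
          6 * Cw * ((2:ℝ)^s / ((2:ℝ)^s - 1) * (2:ℝ)^s * ex (fun o => w o ^ r)) :=
          add_le_add hwr h4
      _ = _ := by ring
  · -- part (b)
    intro c hc
    have hci := c.i_pos
    -- average lies between 1 and 2^J
    have hlo : ex c.i ≤ ex (fun o => w o * c.i o) := by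
      refine ex_mono fun o => ?_
      have h1 := c.i_nonneg o
      have h2 := hw o
      nlinarith
    have hhi : ex (fun o => w o * c.i o) ≤ (2:ℝ)^J * ex c.i := by
      rw [← ex_smul]
      refine ex_mono fun o => ?_
      exact mul_le_mul_of_nonneg_right (hJ o).le (c.i_nonneg o)
    -- find the level
    obtain ⟨n, hnJ, hn1, hn2⟩ : ∃ n : ℕ, n ≤ J ∧ (2:ℝ)^n * ex c.i ≤ ex (fun o => w o * c.i o) ∧
        ex (fun o => w o * c.i o) ≤ 2 * 2^n * ex c.i := by
      classical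
      have hex : ∃ n : ℕ, ex (fun o => w o * c.i o) ≤ (2:ℝ)^n * ex c.i := ⟨J, hhi⟩
      have hle : Nat.find hex ≤ J := Nat.find_min' hex hhi
      have hsp := Nat.find_spec hex
      rcases Nat.eq_zero_or_pos (Nat.find hex) with h0 | h0
      · rw [h0] at hsp
        refine ⟨0, Nat.zero_le _, by simpa using hlo, ?_⟩
        have : ex (fun o => w o * c.i o) ≤ ex c.i := by simpa using hsp
        simp only [pow_zero, mul_one]
        linarith
      · obtain ⟨n, hn⟩ : ∃ n, Nat.find hex = n + 1 := ⟨Nat.find hex - 1, by omega⟩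
        refine ⟨n, by omega, ?_, ?_⟩
        · have := Nat.find_min hex (m := n) (by omega)
          linarith
        · rw [hn] at hsp
          rw [pow_succ] at hsp
          linarith
    -- pointwise bound
    have hpt : ∀ o, ∀ i : ℕ, i ≤ n → (u o)⁻¹ ≤ (1/2:ℝ)^i +
        ∑ t ∈ Finset.range i, (1/2:ℝ)^t * Nn (l n (n - t - 1)) o := by
      intro o i
      induction i with
      | zero =>
        intro _
        simp only [pow_zero, Finset.range_zero, Finset.sum_empty, add_zero]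
        exact inv_le_one_of_one_le₀ (hu1 o)
      | succ i ih =>
        intro hi
        have hi' := ih (by omega)
        rw [Finset.sum_range_succ]
        rcases Nn_zero_or_one (l n (n - i - 1)) o with h | h
        · obtain ⟨d, rfl⟩ : ∃ d, n = i + d + 1 := ⟨n - i - 1, by omega⟩
          have e1 : i + d + 1 - i - 1 = d := by omega
          rw [e1] at h
          have hbig := hu2 (i + d) (Finset.mem_range.mpr (by omega)) d
            (Finset.mem_range.mpr (by omega)) o h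
          have e2 : i + d + 1 - d = i + 1 := by omega
          rw [e2] at hbig
          have h1 : (u o)⁻¹ ≤ (1/2:ℝ)^(i+1) := by
            rw [one_div, inv_pow]
            exact inv_anti₀ (by positivity) hbig
          have h2 : 0 ≤ ∑ t ∈ Finset.range i,
              (1/2:ℝ)^t * Nn (l (i + d + 1) (i + d + 1 - t - 1)) o :=
            Finset.sum_nonneg fun t _ => mul_nonneg (by positivity) (Nn_nonneg _ _)
          have h3 : 0 ≤ (1/2:ℝ)^i * Nn (l (i + d + 1) (i + d + 1 - i - 1)) o :=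
            mul_nonneg (by positivity) (Nn_nonneg _ _)
          linarith
        · rw [h, mul_one]
          have h1 : 0 ≤ (1/2:ℝ)^(i+1) := by positivity
          linarith
    have hup : ex (fun o => (u o)⁻¹ * c.i o) ≤ 5 * (1/2)^n * ex c.i := by
      have h1 : ex (fun o => (u o)⁻¹ * c.i o) ≤ ex (fun o => (1/2:ℝ)^n * c.i o +
          ∑ t ∈ Finset.range n, (1/2:ℝ)^t * (Nn (l n (n - t - 1)) o * c.i o)) := by
        refine ex_mono fun o => ?_
        have h := mul_le_mul_of_nonneg_right (hpt o n le_rfl) (c.i_nonneg o)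
        refine h.trans (le_of_eq ?_)
        rw [add_mul, Finset.sum_mul]
        congr 1
        exact Finset.sum_congr rfl fun t _ => by ring
      refine h1.trans ?_
      rw [ex_add, ex_smul, ex_sum]
      have h2 : ∑ t ∈ Finset.range n, ex (fun o => (1/2:ℝ)^t * (Nn (l n (n - t - 1)) o * c.i o))
          ≤ ∑ t ∈ Finset.range n, (1/2:ℝ)^t * (1/4)^(n - t - 1) * ex c.i := by
        refine Finset.sum_le_sum fun t _ => ?_
        rw [ex_smul, mul_assoc]
        refine mul_le_mul_of_nonneg_left ?_ (by positivity)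
        exact hl3 n (n - t - 1) c hc hn1
      have h3 := sum_dyad n
      have h4 := mul_le_mul_of_nonneg_right h3 hci.le
      rw [add_mul, Finset.sum_mul] at h4
      linarith
    have hp0 : 0 ≤ ex (fun o => (u o)⁻¹ * c.i o) := ex_nonneg fun o =>
      mul_nonneg (inv_nonneg.mpr (by linarith [hu1 o])) (c.i_nonneg o)
    have hw1 : 0 ≤ ex (fun o => w o * c.i o) := hci.le.trans hlo
    calc ex (fun o => (u o)⁻¹ * c.i o) * ex (fun o => w o * c.i o)
        ≤ (5 * (1/2)^n * ex c.i) * (2 * 2^n * ex c.i) :=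
          mul_le_mul hup hn2 hw1 (by positivity)
      _ = 10 * ((1/2)^n * 2^n) * ex c.i ^ 2 := by ring
      _ = 10 * ex c.i ^ 2 := by
          rw [← mul_pow]; norm_num

theorem mjl_eta (r C0 : ℝ) (hr : 1 < r) (hC : 1 ≤ C0) :
    ∃ η : ℝ, 0 < η ∧ 2 ^ (r - 1) * η ^ r * C0 ≤ 1 / 2 ∧ η ^ r * C0 ≤ 1 / 2 := by
  have hC0 : 0 < C0 := by linarith
  have h2r : (0 : ℝ) < 2 ^ r := by positivity
  have h : (((2 : ℝ) ^ r * C0) ^ (-(1 / r))) ^ r = ((2 : ℝ) ^ r * C0)⁻¹ := by
    rw [← Real.rpow_mul (by positivity)]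
    have e : -(1 / r) * r = -1 := by
      have : r ≠ 0 := by linarith
      field_simp
    rw [e, Real.rpow_neg_one]
  have h2 : (2 : ℝ) ≤ 2 ^ r := by
    calc (2 : ℝ) = 2 ^ (1 : ℝ) := by rw [Real.rpow_one]
      _ ≤ 2 ^ r := Real.rpow_le_rpow_of_exponent_le (by norm_num) hr.le
  refine ⟨((2 : ℝ) ^ r * C0) ^ (-(1 / r)), by positivity, ?_, ?_⟩
  · rw [h, Real.rpow_sub_one (by norm_num)]
    apply le_of_eq
    field_simp
  · rw [h, mul_inv]
    have e : ((2 : ℝ) ^ r)⁻¹ * C0⁻¹ * C0 = ((2 : ℝ) ^ r)⁻¹ := by field_simp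
    rw [e, one_div]
    exact inv_anti₀ (by norm_num) h2

theorem mjl_rpow {r a b : ℝ} (hr : 1 ≤ r) (ha : 0 ≤ a) (hb : 0 ≤ b) :
    (a + b) ^ r ≤ 2 ^ (r - 1) * (a ^ r + b ^ r) := by
  lift a to NNReal using ha
  lift b to NNReal using hb
  exact_mod_cast NNReal.rpow_add_le_mul_rpow_add_rpow a b hr

theorem mjl_point {V : Type} [Fintype V] [DecidableEq V] {f : (V → Bool) → ℝ}
    (hf : ∀ o, 0 ≤ f o) (o : V → Bool) :
    f o ≤ (Fintype.card (V → Bool) : ℝ) * ex f := by
  have hc := (card_pos' (V := V))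
  have h1 : (Fintype.card (V → Bool) : ℝ) * ex f = ∑ w, f w := by
    unfold ex
    rw [← mul_assoc, mul_inv_cancel₀ hc.ne', one_mul]
  rw [h1]
  exact Finset.single_le_sum (fun w _ => hf w) (Finset.mem_univ o)

theorem mjl_ex_pos {f : (V → Bool) → ℝ} (hf : ∀ o, 0 < f o) (c : Cyl L) :
    0 < ex (fun o => f o * c.i o) := by
  refine ex_pos_of (fun o => mul_nonneg (hf o).le (c.i_nonneg o)) c.y ?_
  have h1 : c.i c.y = 1 := by simp [Cyl.i, ci]
  rw [h1, mul_one]
  exact hf _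

/-- part (1) -/
theorem mjl_sum {r C0 η A : ℝ} (hr : 1 < r) (hC : 1 ≤ C0) (hη : 0 < η)
    (hη2 : 2 ^ (r - 1) * η ^ r * C0 ≤ 1 / 2) (hA : 0 ≤ A) (ws : ℕ → (V → Bool) → ℝ)
    (hw1 : ∀ k o, 1 ≤ ws k o) (hE : ∀ k, ex (fun o => ws k o ^ r) ≤ C0 ^ k * A) (n : ℕ) :
    ∀ j, ex (fun o => (∑ k ∈ range (n + 1), η ^ k * ws (k + j) o) ^ r) ≤ 2 ^ r * C0 ^ j * A := by
  have hC0 : 0 < C0 := by linarith
  have h2r : (2 : ℝ) ^ r = 2 * 2 ^ (r - 1) := by
    rw [Real.rpow_sub_one (by norm_num)]; ring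
  have h21 : (1 : ℝ) ≤ 2 ^ (r - 1) := Real.one_le_rpow (by norm_num) (by linarith)
  induction n with
  | zero =>
    intro j
    have e : (fun o => (∑ k ∈ range (0 + 1), η ^ k * ws (k + j) o) ^ r) =
        fun o => ws j o ^ r := by
      funext o
      simp
    rw [e]
    refine (hE j).trans ?_
    have h1 : 0 ≤ C0 ^ j * A := by positivity
    nlinarith
  | succ n ih =>
    intro j
    have hb : ∀ o, (∑ k ∈ range (n + 1 + 1), η ^ k * ws (k + j) o) ^ r ≤
        2 ^ (r - 1) * (ws j o ^ r) + (2 ^ (r - 1) * η ^ r) *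
          (∑ k ∈ range (n + 1), η ^ k * ws (k + (j + 1)) o) ^ r := by
      intro o
      rw [Finset.sum_range_succ']
      have e : ∑ k ∈ range (n + 1), η ^ (k + 1) * ws (k + 1 + j) o =
          η * ∑ k ∈ range (n + 1), η ^ k * ws (k + (j + 1)) o := by
        rw [Finset.mul_sum]
        refine Finset.sum_congr rfl fun k _ => ?_
        rw [add_assoc, add_comm 1 j]
        ring
      rw [e, pow_zero, one_mul, zero_add, add_comm]
      have hnn : 0 ≤ ∑ k ∈ range (n + 1), η ^ k * ws (k + (j + 1)) o :=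
        Finset.sum_nonneg fun k _ => by
          have := hw1 (k + (j + 1)) o
          positivity
      have hws : 0 ≤ ws j o := by have := hw1 j o; linarith
      refine (mjl_rpow hr.le hws (by positivity)).trans ?_
      rw [Real.mul_rpow hη.le hnn]
      apply le_of_eq
      ring
    refine (ex_mono hb).trans ?_
    rw [ex_add, ex_smul, ex_smul]
    have h1 := hE j
    have h2 := ih (j + 1)
    have hηr : 0 < η ^ r := by positivity
    calc 2 ^ (r - 1) * ex (fun o => ws j o ^ r) + 2 ^ (r - 1) * η ^ r *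
          ex (fun o => (∑ k ∈ range (n + 1), η ^ k * ws (k + (j + 1)) o) ^ r)
        ≤ 2 ^ (r - 1) * (C0 ^ j * A) + 2 ^ (r - 1) * η ^ r * (2 ^ r * C0 ^ (j + 1) * A) := by
          gcongr
      _ = 2 ^ (r - 1) * (C0 ^ j * A) + (2 ^ (r - 1) * η ^ r * C0) * (2 ^ r * (C0 ^ j * A)) := by
          ring
      _ ≤ 2 ^ (r - 1) * (C0 ^ j * A) + (1 / 2) * (2 ^ r * (C0 ^ j * A)) := by gcongr
      _ = 2 ^ r * C0 ^ j * A := by rw [h2r]; ring

/-- part (3) -/
theorem mjl_A2 {η : ℝ} (hη : 0 < η) (ws : ℕ → (V → Bool) → ℝ)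
    (hw1 : ∀ k o, 1 ≤ ws k o) (m : ℕ) (hm : ∀ o, η ^ (m + 1) * ws (m + 1) o ≤ 1) (c : Cyl L)
    (hc : ∀ k, ex (fun o => (ws (k + 1) o)⁻¹ * c.i o) * ex (fun o => ws k o * c.i o) ≤
      10 * ex c.i ^ 2) :
    ex (fun o => (∑ k ∈ range (m + 2), η ^ k * ws k o)⁻¹ * c.i o) *
      ex (fun o => (∑ k ∈ range (m + 2), η ^ k * ws k o) * c.i o) ≤ 20 / η * ex c.i ^ 2 := by
  have hws : ∀ k o, 0 < ws k o := fun k o => by have := hw1 k o; linarith
  have hci := c.i_pos
  obtain ⟨q, hq⟩ : ∃ q : ℕ → ℝ, q = fun k => ex (fun o => (ws (k + 1) o)⁻¹ * c.i o) := ⟨_, rfl⟩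
  have hqpos : ∀ k, 0 < q k := by
    intro k
    rw [hq]
    exact mjl_ex_pos (fun o => inv_pos.2 (hws _ o)) c
  obtain ⟨f, hf⟩ : ∃ f : ℕ → ℝ, f = fun k => η ^ (k + 1) * (ex c.i / q k) := ⟨_, rfl⟩
  have hfpos : ∀ k, 0 < f k := by
    intro k; rw [hf]
    have := hqpos k
    positivity
  obtain ⟨H, hH⟩ : ∃ H, H = ∑ k ∈ range (m + 1), f k := ⟨_, rfl⟩
  have hHpos : 0 < H := by
    rw [hH]
    exact Finset.sum_pos (fun k _ => hfpos k) ⟨0, by simp⟩
  obtain ⟨W, hW⟩ : ∃ W : (V → Bool) → ℝ, W = fun o => ∑ k ∈ range (m + 2), η ^ k * ws k o :=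
    ⟨_, rfl⟩
  obtain ⟨Wm, hWm⟩ : ∃ Wm : (V → Bool) → ℝ, Wm = fun o => ∑ k ∈ range (m + 1), η ^ k * ws k o :=
    ⟨_, rfl⟩
  have hWm1 : ∀ o, 1 ≤ Wm o := by
    intro o
    rw [hWm]
    have h1 := Finset.single_le_sum (f := fun k => η ^ k * ws k o) (s := range (m + 1))
      (fun k _ => by have := hws k o; positivity) (Finset.mem_range.2 (by omega : 0 < m + 1))
    refine le_trans ?_ h1
    simpa using hw1 0 o
  have hWle : ∀ o, W o ≤ 2 * Wm o := by
    intro o
    have e : W o = Wm o + η ^ (m + 1) * ws (m + 1) o := by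
      rw [hW, hWm]
      exact Finset.sum_range_succ _ _
    rw [e]
    have := hm o
    have := hWm1 o
    linarith
  have hWpos : ∀ o, 0 < W o := by
    intro o
    rw [hW]
    exact Finset.sum_pos (fun k _ => by have := hws k o; positivity) ⟨0, by simp⟩
  have hWge : ∀ o, ∑ k ∈ range (m + 1), η ^ (k + 1) * ws (k + 1) o ≤ W o := by
    intro o
    rw [hW]
    have h1 := Finset.sum_range_succ' (fun k => η ^ k * ws k o) (m + 1)
    have h2 := hws 0 o
    beta_reduce at h1 ⊢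
    rw [pow_zero, one_mul] at h1
    have h3 : ∑ k ∈ range (m + 2), η ^ k * ws k o = ∑ k ∈ range (m + 1 + 1), η ^ k * ws k o := rfl
    rw [h3, h1]
    linarith
  -- Sedrakyan
  have hsed : ∀ o, H ^ 2 * ((W o)⁻¹ * c.i o) ≤
      ∑ k ∈ range (m + 1), (f k ^ 2 / η ^ (k + 1)) * ((ws (k + 1) o)⁻¹ * c.i o) := by
    intro o
    have h1 := Finset.sq_sum_div_le_sum_sq_div (range (m + 1)) f
      (g := fun k => η ^ (k + 1) * ws (k + 1) o) (fun k _ => by have := hws (k + 1) o; positivity)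
    rw [← hH] at h1
    have hSpos : 0 < ∑ k ∈ range (m + 1), η ^ (k + 1) * ws (k + 1) o :=
      Finset.sum_pos (fun k _ => by have := hws (k + 1) o; positivity) ⟨0, by simp⟩
    have h2 : H ^ 2 * (W o)⁻¹ ≤ H ^ 2 / ∑ k ∈ range (m + 1), η ^ (k + 1) * ws (k + 1) o := by
      rw [div_eq_mul_inv]
      exact mul_le_mul_of_nonneg_left (inv_anti₀ hSpos (hWge o)) (by positivity)
    have h3 := mul_le_mul_of_nonneg_right (h2.trans h1) (c.i_nonneg o)
    rw [← mul_assoc]
    refine h3.trans (le_of_eq ?_)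
    rw [Finset.sum_mul]
    refine Finset.sum_congr rfl fun k _ => ?_
    have := (hws (k + 1) o).ne'
    field_simp
  have hex := ex_mono hsed
  rw [ex_smul, ex_sum] at hex
  have hex2 : ∑ k ∈ range (m + 1), ex (fun o => (f k ^ 2 / η ^ (k + 1)) *
      ((ws (k + 1) o)⁻¹ * c.i o)) = H * ex c.i := by
    rw [hH, Finset.sum_mul]
    refine Finset.sum_congr rfl fun k _ => ?_
    rw [ex_smul]
    have e : ex (fun o => (ws (k + 1) o)⁻¹ * c.i o) = q k := by rw [hq]
    rw [e, hf]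
    have := (hqpos k).ne'
    field_simp
  rw [hex2] at hex
  have hinv : H * ex (fun o => (W o)⁻¹ * c.i o) ≤ ex c.i := by
    have : H * (H * ex (fun o => (W o)⁻¹ * c.i o)) ≤ H * ex c.i := by
      refine le_trans (le_of_eq ?_) hex
      ring
    exact le_of_mul_le_mul_left this hHpos
  have hHge : η / (20 * ex c.i) * ex (fun o => W o * c.i o) ≤ H := by
    have h1 : ex (fun o => W o * c.i o) ≤ 2 * ex (fun o => Wm o * c.i o) := by
      rw [← ex_smul]
      refine ex_mono fun o => ?_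
      have := mul_le_mul_of_nonneg_right (hWle o) (c.i_nonneg o)
      linarith
    have h2 : ex (fun o => Wm o * c.i o) = ∑ k ∈ range (m + 1), η ^ k *
        ex (fun o => ws k o * c.i o) := by
      have e : (fun o => Wm o * c.i o) = fun o => ∑ k ∈ range (m + 1), η ^ k *
          (ws k o * c.i o) := by
        funext o
        rw [hWm]
        beta_reduce
        rw [Finset.sum_mul]
        refine Finset.sum_congr rfl fun k _ => ?_
        ring
      rw [e, ex_sum]
      refine Finset.sum_congr rfl fun k _ => ?_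
      rw [ex_smul]
    have h3 : ∀ k ∈ range (m + 1), η / (10 * ex c.i) * (η ^ k * ex (fun o => ws k o * c.i o)) ≤
        f k := by
      intro k _
      have h4 := hc k
      have e : ex (fun o => (ws (k + 1) o)⁻¹ * c.i o) = q k := by rw [hq]
      rw [e] at h4
      have h5 : ex (fun o => ws k o * c.i o) / (10 * ex c.i) ≤ ex c.i / q k := by
        rw [div_le_div_iff₀ (by positivity) (hqpos k)]
        linarith
      rw [hf]
      calc η / (10 * ex c.i) * (η ^ k * ex (fun o => ws k o * c.i o))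
          = η ^ (k + 1) * (ex (fun o => ws k o * c.i o) / (10 * ex c.i)) := by
            rw [pow_succ]
            ring
        _ ≤ η ^ (k + 1) * (ex c.i / q k) := by gcongr
    have h6 := Finset.sum_le_sum h3
    rw [← Finset.mul_sum, ← h2, ← hH] at h6
    calc η / (20 * ex c.i) * ex (fun o => W o * c.i o)
        ≤ η / (20 * ex c.i) * (2 * ex (fun o => Wm o * c.i o)) := by gcongr
      _ = η / (10 * ex c.i) * ex (fun o => Wm o * c.i o) := by
          field_simp
          ring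
      _ ≤ H := h6
  have hXpos : 0 < ex (fun o => (W o)⁻¹ * c.i o) := mjl_ex_pos (fun o => inv_pos.2 (hWpos o)) c
  have hfinal : ex (fun o => (W o)⁻¹ * c.i o) * ex (fun o => W o * c.i o) ≤
      20 / η * ex c.i ^ 2 := by
    have h1 : ex (fun o => (W o)⁻¹ * c.i o) * (η / (20 * ex c.i) * ex (fun o => W o * c.i o)) ≤
        ex c.i := by
      refine le_trans (mul_le_mul_of_nonneg_left hHge hXpos.le) ?_
      rw [mul_comm]
      exact hinv
    have h2 : ex (fun o => (W o)⁻¹ * c.i o) * ex (fun o => W o * c.i o) =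
        (20 * ex c.i / η) * (ex (fun o => (W o)⁻¹ * c.i o) *
          (η / (20 * ex c.i) * ex (fun o => W o * c.i o))) := by
      field_simp
    rw [h2]
    calc (20 * ex c.i / η) * (ex (fun o => (W o)⁻¹ * c.i o) *
          (η / (20 * ex c.i) * ex (fun o => W o * c.i o))) ≤ (20 * ex c.i / η) * ex c.i := by
          gcongr
      _ = 20 / η * ex c.i ^ 2 := by ring
  rw [hW] at hfinal
  exact hfinal

theorem majorant_list (r : ℝ) (hr : 1 < r) : ∃ K C : ℝ, 0 < K ∧ 0 < C ∧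
    ∀ (V : Type) [LinearOrder V] [Fintype V] (L : Lev V) (all : List (Cyl L)),
      all.Pairwise (fun a b => b.n ≤ a.n) → ∀ w : (V → Bool) → ℝ, (∀ o, 1 ≤ w o) →
      ∃ W : (V → Bool) → ℝ, (∀ o, w o ≤ W o) ∧
        ex (fun o => W o ^ r) ≤ C * ex (fun o => w o ^ r) ∧
        ∀ c ∈ all, ex (fun o => (W o)⁻¹ * c.i o) * ex (fun o => W o * c.i o)
          ≤ K * ex c.i ^ 2 := by
  obtain ⟨C0, hC0, hop⟩ := operator r hr
  obtain ⟨η, hη, hη2, hη3⟩ := mjl_eta r C0 hr hC0
  refine ⟨20 / η, 2 ^ r, by positivity, by positivity, ?_⟩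
  intro V _ _ L all hall w hw
  have hstep : ∀ v : {v : (V → Bool) → ℝ // ∀ o, 1 ≤ v o}, ∃ u : {v : (V → Bool) → ℝ // ∀ o, 1 ≤ v o},
      ex (fun o => u.1 o ^ r) ≤ C0 * ex (fun o => v.1 o ^ r) ∧
        ∀ c ∈ all, ex (fun o => (u.1 o)⁻¹ * c.i o) * ex (fun o => v.1 o * c.i o)
          ≤ 10 * ex c.i ^ 2 := by
    rintro ⟨v, hv⟩
    obtain ⟨u, hu1, hu2, hu3⟩ := hop V L all hall v hv
    exact ⟨⟨u, hu1⟩, hu2, hu3⟩
  choose f hf1 hf2 using hstep
  obtain ⟨s, hs⟩ : ∃ s : ℕ → {v : (V → Bool) → ℝ // ∀ o, 1 ≤ v o},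
      s = fun k => f^[k] ⟨w, hw⟩ := ⟨_, rfl⟩
  have hs0 : (s 0).1 = w := by rw [hs]; rfl
  have hss : ∀ k, s (k + 1) = f (s k) := by
    intro k
    rw [hs]
    exact Function.iterate_succ_apply' f k _
  obtain ⟨ws, hws⟩ : ∃ ws : ℕ → (V → Bool) → ℝ, ws = fun k => (s k).1 := ⟨_, rfl⟩
  obtain ⟨A, hA⟩ : ∃ A, A = ex (fun o => w o ^ r) := ⟨_, rfl⟩
  have hw1 : ∀ k o, 1 ≤ ws k o := by
    intro k o; rw [hws]; exact (s k).2 o
  have hA0 : 0 ≤ A := by
    rw [hA]
    exact ex_nonneg fun o => by have := hw o; positivity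
  have hE : ∀ k, ex (fun o => ws k o ^ r) ≤ C0 ^ k * A := by
    intro k
    induction k with
    | zero =>
      rw [hws, hA]
      beta_reduce
      rw [hs0, pow_zero, one_mul]
    | succ k ih =>
      have h1 := hf1 (s k)
      rw [← hss] at h1
      rw [hws] at ih ⊢
      beta_reduce at ih ⊢
      calc ex (fun o => (s (k + 1)).1 o ^ r) ≤ C0 * ex (fun o => (s k).1 o ^ r) := h1
        _ ≤ C0 * (C0 ^ k * A) := by gcongr
        _ = C0 ^ (k + 1) * A := by ring
  have hc3 : ∀ c ∈ all, ∀ k, ex (fun o => (ws (k + 1) o)⁻¹ * c.i o) * ex (fun o => ws k o * c.i o) ≤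
      10 * ex c.i ^ 2 := by
    intro c hc k
    have h1 := hf2 (s k) c hc
    rw [← hss] at h1
    rw [hws]
    exact h1
  -- choice of m
  obtain ⟨m, hm⟩ : ∃ m : ℕ, ∀ o, η ^ (m + 1) * ws (m + 1) o ≤ 1 := by
    obtain ⟨N, hN⟩ : ∃ N, N = (Fintype.card (V → Bool) : ℝ) := ⟨_, rfl⟩
    have hN0 : 0 < N := by rw [hN]; exact card_pos'
    have hlim : Filter.Tendsto (fun m : ℕ => N * A * (1 / 2 : ℝ) ^ (m + 1)) Filter.atTop
        (nhds (N * A * 0)) := by
      refine Filter.Tendsto.const_mul _ ?_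
      exact (tendsto_pow_atTop_nhds_zero_of_lt_one (by norm_num) (by norm_num)).comp
        (Filter.tendsto_add_atTop_nat 1)
    rw [mul_zero] at hlim
    obtain ⟨m, hm⟩ := (hlim.eventually_lt_const one_pos).exists
    refine ⟨m, fun o => ?_⟩
    have hwpos : 0 < ws (m + 1) o := by have := hw1 (m + 1) o; linarith
    have h1 := mjl_point (f := fun o => ws (m + 1) o ^ r)
      (fun o => by have := hw1 (m + 1) o; positivity) o
    beta_reduce at h1
    rw [← hN] at h1
    have h2 : (η ^ (m + 1) * ws (m + 1) o) ^ r ≤ 1 := by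
      rw [Real.mul_rpow (by positivity) hwpos.le]
      have e : (η ^ (m + 1)) ^ r = (η ^ r) ^ (m + 1) := by
        rw [← Real.rpow_natCast, ← Real.rpow_natCast, ← Real.rpow_mul hη.le,
          ← Real.rpow_mul hη.le, mul_comm]
      rw [e]
      have hηr : 0 < η ^ r := by positivity
      calc (η ^ r) ^ (m + 1) * ws (m + 1) o ^ r ≤ (η ^ r) ^ (m + 1) * (N * (C0 ^ (m + 1) * A)) := by
            gcongr
            exact h1.trans (mul_le_mul_of_nonneg_left (hE (m + 1)) hN0.le)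
        _ = N * A * (η ^ r * C0) ^ (m + 1) := by rw [mul_pow]; ring
        _ ≤ N * A * (1 / 2) ^ (m + 1) := by gcongr
        _ ≤ 1 := hm.le
    by_contra hcon
    push Not at hcon
    have := Real.one_lt_rpow hcon (by linarith : 0 < r)
    linarith
  refine ⟨fun o => ∑ k ∈ range (m + 2), η ^ k * ws k o, fun o => ?_, ?_, fun c hc => ?_⟩
  · have h1 := Finset.single_le_sum (f := fun k => η ^ k * ws k o) (s := range (m + 2))
      (fun k _ => by have := hw1 k o; positivity) (Finset.mem_range.2 (by omega : 0 < m + 2))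
    refine le_trans ?_ h1
    rw [pow_zero, one_mul, hws]
    beta_reduce
    rw [hs0]
  · have h1 := mjl_sum hr hC0 hη hη2 hA0 ws hw1 hE (m + 1) 0
    rw [pow_zero, mul_one, hA] at h1
    exact h1
  · exact mjl_A2 hη ws hw1 m hm c (hc3 c hc)

/-- the coordinates below `x` -/
def lo' (x : V) : Finset V := Finset.univ.filter (· < x)

/-- the sets of coordinates which matter -/
def PathSet (rho : V → V → ℕ) (A : Finset V) : Prop :=
  (∃ x, A = lo' x) ∨ A = Finset.univ ∨ ∃ x a, a < x ∧ A = FF rho x a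

def rk8284 (u : V) : ℕ := (Finset.univ.filter (· < u)).card

theorem rk8284_lt (u : V) : rk8284 u < Fintype.card V := by
  unfold rk8284
  rw [← Finset.card_univ]
  refine Finset.card_lt_card ⟨Finset.filter_subset _ _, fun h => ?_⟩
  have := h (Finset.mem_univ u)
  simp at this

theorem rk8284_mono {u v : V} (h : u < v) : rk8284 u < rk8284 v := by
  unfold rk8284
  refine Finset.card_lt_card ⟨fun x hx => ?_, fun h' => ?_⟩
  · simp only [Finset.mem_filter, Finset.mem_univ, true_and] at hx ⊢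
    exact hx.trans h
  · have : u ∈ Finset.univ.filter (· < v) := by simp [h]
    have := h' this
    simp at this

def key8284 (rho : V → V → ℕ) (x u : V) : ℕ := rho u x * Fintype.card V + rk8284 u

theorem key8284_lt (rho : V → V → ℕ) (x u a : V) :
    key8284 rho x u < key8284 rho x a ↔ lt2 rho x u a := by
  unfold key8284 lt2
  have h1 := rk8284_lt u
  have h2 := rk8284_lt a
  constructor
  · intro h
    rcases lt_trichotomy (rho u x) (rho a x) with h3 | h3 | h3
    · exact Or.inl h3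
    · refine Or.inr ⟨h3, ?_⟩
      rw [h3] at h
      by_contra h4
      push Not at h4
      rcases h4.eq_or_lt with h5 | h5
      · rw [h5] at h; exact lt_irrefl _ h
      · have := rk8284_mono h5
        omega
    · exfalso
      have h5 : (rho a x + 1) * Fintype.card V ≤ rho u x * Fintype.card V :=
        Nat.mul_le_mul_right _ h3
      rw [add_mul, one_mul] at h5
      omega
  · rintro (h3 | ⟨h3, h4⟩)
    · have h5 : (rho u x + 1) * Fintype.card V ≤ rho a x * Fintype.card V :=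
        Nat.mul_le_mul_right _ h3
      rw [add_mul, one_mul] at h5
      omega
    · have := rk8284_mono h4
      rw [h3]
      omega

def lev8284 (rho : V → V → ℕ) (H : Sub2 rho) : Lev V where
  R n u v := u = v ∨ (u < v ∧ key8284 rho v u < n)
  refl n u := Or.inl rfl
  le n u v h := by
    rcases h with h | h
    · exact h.le
    · exact h.1.le
  trans n u v w h1 h2 := by
    rcases h1 with rfl | ⟨h1, h1'⟩
    · exact h2
    rcases h2 with rfl | ⟨h2, h2'⟩
    · exact Or.inr ⟨h1, h1'⟩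
    refine Or.inr ⟨h1.trans h2, ?_⟩
    have h3 := H.ha u v w h1 h2
    rcases le_max_iff.mp h3 with h4 | h4
    · refine lt_of_le_of_lt ?_ h1'
      unfold key8284
      have := Nat.mul_le_mul_right (Fintype.card V) h4
      omega
    · refine lt_of_le_of_lt ?_ h2'
      unfold key8284
      have := Nat.mul_le_mul_right (Fintype.card V) h4
      have := rk8284_mono h1
      omega
  tree n u v w h1 h2 h := by
    rcases h.eq_or_lt with rfl | h
    · exact Or.inl rfl
    rcases h2 with rfl | ⟨h2, h2'⟩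
    · exact h1
    rcases h1 with rfl | ⟨h1, h1'⟩
    · exact absurd (h.trans h2) (lt_irrefl _)
    refine Or.inr ⟨h, ?_⟩
    have h3 := H.hb u v w h h2
    rcases le_max_iff.mp h3 with h4 | h4
    · refine lt_of_le_of_lt ?_ h1'
      unfold key8284
      have := Nat.mul_le_mul_right (Fintype.card V) h4
      omega
    · refine lt_of_le_of_lt ?_ h2'
      unfold key8284
      have := Nat.mul_le_mul_right (Fintype.card V) h4
      have := rk8284_mono h
      omega
  mono m n u v h h1 := by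
    rcases h1 with rfl | ⟨h1, h1'⟩
    · exact Or.inl rfl
    · exact Or.inr ⟨h1, lt_of_lt_of_le h1' h⟩

theorem exists_lev (rho : V → V → ℕ) (H : Sub2 rho) :
    ∃ L : Lev V, ∀ A, PathSet rho A → ∃ n, L.Path n A := by
  classical
  refine ⟨lev8284 rho H, ?_⟩
  obtain ⟨B, hB⟩ : ∃ B : ℕ, ∀ u v : V, key8284 rho v u < B := by
    refine ⟨(Finset.univ.sup fun p : V × V => key8284 rho p.2 p.1) + 1, fun u v => ?_⟩
    exact Nat.lt_succ_of_le
      (Finset.le_sup (f := fun p : V × V => key8284 rho p.2 p.1) (Finset.mem_univ (u, v)))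
  have hle : ∀ u v : V, u ≤ v → (lev8284 rho H).R B u v := by
    intro u v h
    rcases h.eq_or_lt with h | h
    · exact Or.inl h
    · exact Or.inr ⟨h, hB u v⟩
  rintro A (⟨x, rfl⟩ | rfl | ⟨x, a, hax, rfl⟩)
  · refine ⟨B, fun u hu v hv => ?_, fun u _ v _ h => hle u v h⟩
    have h1 := (lev8284 rho H).le _ _ _ hv
    simp only [lo', Finset.mem_filter, Finset.mem_univ, true_and] at hu ⊢
    exact lt_of_le_of_lt h1 hu
  · exact ⟨B, fun u _ v _ => Finset.mem_univ _, fun u _ v _ h => hle u v h⟩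
  · have hR : ∀ u, u ∈ FF rho x a ↔ u < x ∧ (lev8284 rho H).R (key8284 rho x a) u x := by
      intro u
      rw [mem_FF, ← key8284_lt]
      constructor
      · rintro ⟨h1, h2⟩
        exact ⟨h1, Or.inr ⟨h1, h2⟩⟩
      · rintro ⟨h1, h2⟩
        rcases h2 with h2 | h2
        · exact absurd h2 h1.ne
        · exact h2
    refine ⟨key8284 rho x a, fun u hu v hv => ?_, fun u hu v hv h => ?_⟩
    · rw [hR] at hu ⊢
      exact ⟨lt_of_le_of_lt ((lev8284 rho H).le _ _ _ hv) hu.1,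
        (lev8284 rho H).trans _ _ _ _ hv hu.2⟩
    · rw [hR] at hu hv
      exact (lev8284 rho H).tree _ _ _ _ hu.2 hv.2 h

theorem key_8285 (A : Finset V) (o : V → Bool) (f : (V → Bool) → ℝ) :
    ex (fun w => f w * ci A o w) = av A f o * ex (ci A o) := by
  rw [← ex_av A]
  have h0 : (fun w => f w * ci A o w) = fun w => ci A o w * f w := by
    funext w; ring
  rw [h0, av_mul_left (ci_dep A o)]
  have h1 : (fun w => ci A o w * av A f w) = fun w => av A f o * ci A o w := by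
    funext w
    by_cases h : ∀ u ∈ A, w u = o u
    · rw [av_dep A f w o h]; ring
    · simp [ci, h]
  rw [h1, ex_smul]

theorem list_8285 (L : Lev V) : ∃ all : List (Cyl L), all.Pairwise (fun a b => b.n ≤ a.n) ∧
    ∀ A, (∃ n, L.Path n A) → ∀ y : V → Bool, ∃ c ∈ all, c.A = A ∧ c.y = y := by
  classical
  let f : {A : Finset V // ∃ n, L.Path n A} × (V → Bool) → Cyl L :=
    fun p => ⟨p.1.2.choose, p.1.1, p.2, p.1.2.choose_spec⟩
  let all0 : List (Cyl L) := (Finset.univ : Finset ({A : Finset V // ∃ n, L.Path n A} × (V → Bool))).toList.map f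
  refine ⟨all0.mergeSort (fun a b => decide (b.n ≤ a.n)), ?_, ?_⟩
  · have h := List.pairwise_mergeSort (le := fun a b : Cyl L => decide (b.n ≤ a.n))
      (fun a b c h1 h2 => by
        simp only [decide_eq_true_eq] at h1 h2 ⊢
        exact h2.trans h1)
      (fun a b => by
        simp only [Bool.or_eq_true, decide_eq_true_eq]
        exact le_total _ _) all0
    exact h.imp (fun {a b} hab => by simpa using hab)
  · intro A hA y
    refine ⟨f (⟨A, hA⟩, y), ?_, rfl, rfl⟩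
    rw [List.mem_mergeSort]
    exact List.mem_map_of_mem (Finset.mem_toList.2 (Finset.mem_univ _))

theorem majorant (r : ℝ) (hr : 1 < r) : ∃ K C : ℝ, 0 < K ∧ 0 < C ∧
    ∀ (V : Type) [LinearOrder V] [Fintype V] (rho : V → V → ℕ), Sub2 rho →
      ∀ w : (V → Bool) → ℝ, (∀ o, 1 ≤ w o) →
      ∃ W : (V → Bool) → ℝ, (∀ o, w o ≤ W o) ∧
        ex (fun o => W o ^ r) ≤ C * ex (fun o => w o ^ r) ∧
        ∀ A, PathSet rho A → ∀ o, av A W o * av A (fun o => (W o)⁻¹) o ≤ K := by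
  obtain ⟨K, C, hK, hC, hmaj⟩ := majorant_list r hr
  refine ⟨K, C, hK, hC, ?_⟩
  intro V _ _ rho H w hw
  obtain ⟨L, hL⟩ := exists_lev rho H
  obtain ⟨all, hs, hall⟩ := list_8285 L
  obtain ⟨W, hW1, hW2, hW3⟩ := hmaj V L all hs w hw
  refine ⟨W, hW1, hW2, ?_⟩
  intro A hA o
  obtain ⟨c, hc, hcA, hcy⟩ := hall A (hL A hA) o
  have h := hW3 c hc
  have hi : c.i = ci A o := by
    funext w
    unfold Cyl.i
    rw [hcA, hcy]
  have e1 : ex (fun o => (W o)⁻¹ * c.i o) = av A (fun o => (W o)⁻¹) o * ex (ci A o) := by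
    rw [hi]; exact key_8285 A o (fun o => (W o)⁻¹)
  have e2 : ex (fun o => W o * c.i o) = av A W o * ex (ci A o) := by
    rw [hi]; exact key_8285 A o W
  rw [e1, e2, hi] at h
  have hp : 0 < ex (ci A o) := ex_ci_pos A o
  have hp2 : 0 < ex (ci A o) ^ 2 := by positivity
  refine le_of_mul_le_mul_right ?_ hp2
  calc av A W o * av A (fun o => (W o)⁻¹) o * ex (ci A o) ^ 2
      = av A (fun o => (W o)⁻¹) o * ex (ci A o) * (av A W o * ex (ci A o)) := by ring
    _ ≤ K * ex (ci A o) ^ 2 := h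

end
end H550Unc
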