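import Pool.Agent.Helper60.Unc.TwoLevel
import Pool.Agent.Helper60.Unc.MajB

/-!
The majorant weights exist at every exponent above one.
-/

namespace H60Unc

open Finset

theorem pathSet_conv {V : Type} [LinearOrder V] [Fintype V] {rho : V → V → ℕ} {A : Finset V}
    (h : PathSet rho A) : H550Unc.PathSet rho A := by
  rcases h with rfl | rfl | ⟨x, rfl⟩ | ⟨x, a, hax, rfl⟩
  · rcases isEmpty_or_nonempty V with hV | hV
    · right; left
      ext u; exact (hV.false u).elim
    · left
      refine ⟨Finset.univ.min' Finset.univ_nonempty, ?_⟩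
      symm
      rw [Finset.eq_empty_iff_forall_notMem]
      intro u hu
      have h1 : u < Finset.univ.min' Finset.univ_nonempty := by
        simpa [H550Unc.lo'] using hu
      exact absurd (Finset.min'_le _ u (Finset.mem_univ u)) (not_le.mpr h1)
  · right; left; rfl
  · left; exact ⟨x, rfl⟩
  · right; right; exact ⟨x, a, hax, rfl⟩

theorem hasMajorant (r : ℝ) (hr : 1 < r) : HasMajorant r := by
  obtain ⟨K, C, hK, hC, h⟩ := H550Unc.majorant r hr
  refine ⟨max K 1, C, le_max_right _ _, hC, ?_⟩
  intro V _ _ rho hrho w hw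
  obtain ⟨W, h1, h2, h3⟩ := h V rho hrho w hw
  exact ⟨W, h1, h2, fun A hA o => (h3 A (pathSet_conv hA) o).trans (le_max_left _ _)⟩

theorem major_all (r : ℝ) (hr : 1 < r) : ∃ K, Major r K := major_of (hasMajorant r hr)

end H60Unc
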