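import Mathlib

/-!
Averaging operators on functions of finitely many fair coins.
-/

namespace H60Unc

open Finset

variable {V : Type*} [Fintype V] [DecidableEq V]

/-- expectation over all sign patterns -/
noncomputable def ex (f : (V → Bool) → ℝ) : ℝ :=
  (Fintype.card (V → Bool) : ℝ)⁻¹ * ∑ w, f w

theorem card_pos' : (0 : ℝ) < (Fintype.card (V → Bool) : ℝ) := by
  exact_mod_cast Fintype.card_pos

theorem ex_add (f g : (V → Bool) → ℝ) : ex (fun w => f w + g w) = ex f + ex g := by
  simp only [ex, Finset.sum_add_distrib, mul_add]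

theorem ex_sub (f g : (V → Bool) → ℝ) : ex (fun w => f w - g w) = ex f - ex g := by
  simp only [ex, Finset.sum_sub_distrib, mul_sub]

theorem ex_smul (c : ℝ) (f : (V → Bool) → ℝ) : ex (fun w => c * f w) = c * ex f := by
  simp only [ex, ← Finset.mul_sum]
  ring

theorem ex_neg (f : (V → Bool) → ℝ) : ex (fun w => - f w) = - ex f := by
  simp only [ex, Finset.sum_neg_distrib, mul_neg]

theorem ex_sum {J : Type*} (s : Finset J) (f : J → (V → Bool) → ℝ) :
    ex (fun w => ∑ i ∈ s, f i w) = ∑ i ∈ s, ex (f i) := by
  simp only [ex]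
  rw [Finset.sum_comm, Finset.mul_sum]

theorem ex_const (c : ℝ) : ex (fun _ : V → Bool => c) = c := by
  simp only [ex, Finset.sum_const, Finset.card_univ, nsmul_eq_mul]
  have := (card_pos' (V := V)).ne'
  field_simp

theorem ex_nonneg {f : (V → Bool) → ℝ} (h : ∀ w, 0 ≤ f w) : 0 ≤ ex f :=
  mul_nonneg (inv_nonneg.mpr (card_pos').le) (Finset.sum_nonneg fun w _ => h w)

theorem ex_mono {f g : (V → Bool) → ℝ} (h : ∀ w, f w ≤ g w) : ex f ≤ ex g := by
  have := ex_nonneg (f := fun w => g w - f w) (fun w => sub_nonneg.mpr (h w))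
  rw [ex_sub] at this
  linarith

theorem ex_sq_le (f : (V → Bool) → ℝ) : (ex f) ^ 2 ≤ ex (fun w => f w ^ 2) := by
  have h := ex_nonneg (f := fun w => (f w - ex f) ^ 2) (fun w => sq_nonneg _)
  have h2 : ex (fun w => (f w - ex f) ^ 2) = ex (fun w => f w ^ 2) - (ex f) ^ 2 := by
    have : (fun w => (f w - ex f) ^ 2)
        = fun w => f w ^ 2 + ((-2 * ex f) * f w + (ex f) ^ 2) := by
      funext w; ring
    rw [this, ex_add, ex_add, ex_smul, ex_const]
    ring
  linarith

/-- take the coordinates in `A` from the first pattern and the others from the second -/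
def mix (A : Finset V) (w w' : V → Bool) : V → Bool := fun v => if v ∈ A then w v else w' v

theorem mix_mix_self (A : Finset V) (w w' : V → Bool) :
    mix A (mix A w w') (mix A w' w) = w := by
  funext v
  simp only [mix]
  by_cases h : v ∈ A <;> simp [h]

/-- average out the coordinates outside `A` -/
noncomputable def av (A : Finset V) (f : (V → Bool) → ℝ) : (V → Bool) → ℝ :=
  fun w => ex (fun w' => f (mix A w w'))

/-- the function depends only on the coordinates in `A` -/
def Dep (f : (V → Bool) → ℝ) (A : Finset V) : Prop :=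
  ∀ w w' : V → Bool, (∀ v ∈ A, w v = w' v) → f w = f w'

theorem Dep.mono {f : (V → Bool) → ℝ} {A B : Finset V} (h : Dep f A) (hAB : A ⊆ B) : Dep f B :=
  fun w w' hw => h w w' fun v hv => hw v (hAB hv)

theorem Dep.mul {f g : (V → Bool) → ℝ} {A : Finset V} (hf : Dep f A) (hg : Dep g A) :
    Dep (fun w => f w * g w) A := fun w w' hw => by
  simp only [hf w w' hw, hg w w' hw]

theorem Dep.add {f g : (V → Bool) → ℝ} {A : Finset V} (hf : Dep f A) (hg : Dep g A) :
    Dep (fun w => f w + g w) A := fun w w' hw => by
  simp only [hf w w' hw, hg w w' hw]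

theorem Dep.sub {f g : (V → Bool) → ℝ} {A : Finset V} (hf : Dep f A) (hg : Dep g A) :
    Dep (fun w => f w - g w) A := fun w w' hw => by
  simp only [hf w w' hw, hg w w' hw]

theorem Dep.const (c : ℝ) (A : Finset V) : Dep (fun _ : V → Bool => c) A :=
  fun _ _ _ => rfl

theorem Dep.sum {J : Type*} {s : Finset J} {f : J → (V → Bool) → ℝ} {A : Finset V}
    (h : ∀ i ∈ s, Dep (f i) A) : Dep (fun w => ∑ i ∈ s, f i w) A := fun w w' hw =>
  Finset.sum_congr rfl fun i hi => h i hi w w' hw

theorem av_dep (A : Finset V) (f : (V → Bool) → ℝ) : Dep (av A f) A := by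
  intro w w' hw
  have : ∀ u, mix A w u = mix A w' u := by
    intro u; funext v
    simp only [mix]
    by_cases h : v ∈ A
    · simp [h, hw v h]
    · simp [h]
  simp only [av, this]

theorem ex_ex_mix (A : Finset V) (G : (V → Bool) → (V → Bool) → ℝ) :
    ex (fun w => ex (fun w' => G (mix A w w') (mix A w' w))) = ex (fun w => ex (fun w' => G w w')) := by
  simp only [ex, ← Finset.mul_sum]
  congr 2
  rw [← Fintype.sum_prod_type', ← Fintype.sum_prod_type']
  refine Finset.sum_bij' (fun p _ => (mix A p.1 p.2, mix A p.2 p.1))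
    (fun p _ => (mix A p.1 p.2, mix A p.2 p.1)) ?_ ?_ ?_ ?_ ?_
  · intro a _; exact Finset.mem_univ _
  · intro a _; exact Finset.mem_univ _
  · intro a _; simp [mix_mix_self]
  · intro a _; simp [mix_mix_self]
  · intro a _; rfl

theorem ex_av_mul (A : Finset V) (f g : (V → Bool) → ℝ) :
    ex (fun w => av A f w * g w) = ex (fun w => f w * av A g w) := by
  have h := ex_ex_mix A (fun w w' => f w * g (mix A w w'))
  simp only [mix_mix_self] at h
  calc ex (fun w => av A f w * g w)
      = ex (fun w => ex (fun w' => f (mix A w w') * g w)) := by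
        congr 1; funext w
        simp only [av]
        rw [mul_comm, ← ex_smul]
        congr 1; funext w'; ring
    _ = ex (fun w => ex (fun w' => f w * g (mix A w w'))) := h
    _ = _ := by
        congr 1; funext w
        simp only [av]
        rw [← ex_smul]

theorem ex_av (A : Finset V) (f : (V → Bool) → ℝ) : ex (av A f) = ex f := by
  have h := ex_av_mul A f (fun _ => 1)
  simp only [mul_one] at h
  have h1 : av A (fun _ : V → Bool => (1 : ℝ)) = fun _ => 1 := by
    funext w; simp only [av]; exact ex_const 1
  rw [h1] at h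
  simpa using h

theorem av_av (A B : Finset V) (f : (V → Bool) → ℝ) : av A (av B f) = av (A ∩ B) f := by
  funext w
  have h := ex_av B (fun w' => f (mix (A ∩ B) w w'))
  simp only [av] at h ⊢
  rw [← h]
  congr 1; funext w'
  congr 1; funext w''
  congr 1; funext v
  simp only [mix, Finset.mem_inter]
  by_cases hA : v ∈ A <;> by_cases hB : v ∈ B <;> simp [hA, hB]

theorem av_of_dep {A : Finset V} {f : (V → Bool) → ℝ} (h : Dep f A) : av A f = f := by
  funext w
  have : ∀ w', f (mix A w w') = f w := fun w' => h _ _ (by intro v hv; simp [mix, hv])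
  simp only [av, this]
  exact ex_const _

theorem av_mul_left {A : Finset V} {g : (V → Bool) → ℝ} (h : Dep g A) (f : (V → Bool) → ℝ) :
    av A (fun w => g w * f w) = fun w => g w * av A f w := by
  funext w
  have : ∀ w', g (mix A w w') = g w := fun w' => h _ _ (by intro v hv; simp [mix, hv])
  simp only [av, this]
  rw [ex_smul]

theorem av_add (A : Finset V) (f g : (V → Bool) → ℝ) :
    av A (fun w => f w + g w) = fun w => av A f w + av A g w := by
  funext w; simp only [av]; rw [ex_add]

theorem av_sub (A : Finset V) (f g : (V → Bool) → ℝ) :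
    av A (fun w => f w - g w) = fun w => av A f w - av A g w := by
  funext w; simp only [av]; rw [ex_sub]

theorem av_sum {J : Type*} (A : Finset V) (s : Finset J) (f : J → (V → Bool) → ℝ) :
    av A (fun w => ∑ i ∈ s, f i w) = fun w => ∑ i ∈ s, av A (f i) w := by
  funext w; simp only [av]; rw [ex_sum]

theorem av_mono {A : Finset V} {f g : (V → Bool) → ℝ} (h : ∀ w, f w ≤ g w) (w : V → Bool) :
    av A f w ≤ av A g w := ex_mono fun _ => h _

theorem av_nonneg {A : Finset V} {f : (V → Bool) → ℝ} (h : ∀ w, 0 ≤ f w) (w : V → Bool) :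
    0 ≤ av A f w := ex_nonneg fun _ => h _

theorem av_sq_le (A : Finset V) (f : (V → Bool) → ℝ) (w : V → Bool) :
    (av A f w) ^ 2 ≤ av A (fun w => f w ^ 2) w := ex_sq_le _

theorem abs_ex_le (f : (V → Bool) → ℝ) : |ex f| ≤ ex (fun w => |f w|) := by
  rw [abs_le]
  constructor
  · rw [← ex_neg]
    exact ex_mono fun w => neg_abs_le _
  · exact ex_mono fun w => le_abs_self _

theorem abs_av_le (A : Finset V) (f : (V → Bool) → ℝ) (w : V → Bool) :
    |av A f w| ≤ av A (fun w => |f w|) w := abs_ex_le _

/-- `g` does not depend on the coordinate `v` -/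
def Ind (g : (V → Bool) → ℝ) (v : V) : Prop :=
  ∀ (w : V → Bool) (b : Bool), g (Function.update w v b) = g w

theorem Dep.ind {g : (V → Bool) → ℝ} {A : Finset V} (h : Dep g A) {v : V} (hv : v ∉ A) :
    Ind g v := fun w b => h _ _ fun u hu => by
  rw [Function.update_of_ne]
  rintro rfl
  exact hv hu

theorem Ind.mul {f g : (V → Bool) → ℝ} {v : V} (hf : Ind f v) (hg : Ind g v) :
    Ind (fun w => f w * g w) v := fun w b => by
  simp only [hf w b, hg w b]

/-- the sign of the coin `v` -/
def chi (v : V) (w : V → Bool) : ℝ := if w v then 1 else -1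

theorem chi_sq (v : V) (w : V → Bool) : chi v w * chi v w = 1 := by
  simp only [chi]; split_ifs <;> norm_num

theorem abs_chi (v : V) (w : V → Bool) : |chi v w| = 1 := by
  simp only [chi]; split_ifs <;> norm_num

theorem chi_dep {v : V} {A : Finset V} (h : v ∈ A) : Dep (chi v) A := fun w w' hw => by
  simp only [chi, hw v h]

theorem chi_ind {u v : V} (h : u ≠ v) : Ind (chi u) v := fun w b => by
  simp only [chi]
  rw [Function.update_of_ne h]

theorem ex_chi_mul {g : (V → Bool) → ℝ} {v : V} (h : Ind g v) :
    ex (fun w => chi v w * g w) = 0 := by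
  have hs : ∑ w : V → Bool, chi v w * g w = ∑ w : V → Bool, - (chi v w * g w) := by
    refine Finset.sum_bij' (fun w _ => Function.update w v (! w v))
      (fun w _ => Function.update w v (! w v)) ?_ ?_ ?_ ?_ ?_
    · intro a _; exact Finset.mem_univ _
    · intro a _; exact Finset.mem_univ _
    · intro a _; simp
    · intro a _; simp
    · intro a _
      rw [h]
      simp only [chi, Function.update_self]
      cases a v <;> simp
  have : ex (fun w => chi v w * g w) = - ex (fun w => chi v w * g w) := by
    conv_lhs => rw [ex, hs]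
    rw [Finset.sum_neg_distrib, mul_neg, ex]
  linarith

theorem av_chi_mul {A : Finset V} {g : (V → Bool) → ℝ} {v : V} (h : Ind g v) (hv : v ∉ A) :
    av A (fun w => chi v w * g w) = fun _ => 0 := by
  funext w
  have : ∀ w', chi v (mix A w w') * g (mix A w w') = chi v w' * g (mix A w w') := by
    intro w'
    simp only [chi, mix, hv, if_false]
  simp only [av, this]
  refine ex_chi_mul (g := fun w' => g (mix A w w')) ?_
  intro w' b
  have h2 : mix A w (Function.update w' v b) = Function.update (mix A w w') v b := by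
    funext u
    by_cases hu : u = v
    · subst hu; simp [mix, hv]
    · simp [mix, Function.update_of_ne hu]
  simp only [h2]
  exact h _ _

end H60Unc
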