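import Pool.Agent.Helper60.Unc.Dual

/-!
The one-chain weighted square function inequalities, by a Bellman function.
-/

namespace H60Unc

open Finset

/-- the Bellman function -/
noncomputable def BB (K x w s : ℝ) : ℝ :=
  2 * K * x ^ 2 / s + 16 * K ^ 3 * x ^ 2 / (2 * s - 1 / (w ^ 2 * s))

section

variable {V : Type*} [Fintype V] [DecidableEq V]


/-- bounds for the denominator -/
theorem bell_den {w s : ℝ} (hw : 0 < w) (hs : 0 < s) (h : 1 ≤ w * s) :
    0 < 2 * s - 1 / (w ^ 2 * s) ∧ 2 * s - 1 / (w ^ 2 * s) ≤ 2 * s := by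
  have h1 : 1 / (w ^ 2 * s) ≤ s := by
    rw [div_le_iff₀ (by positivity)]
    nlinarith [mul_pos hw hs]
  have h2 : 0 < 1 / (w ^ 2 * s) := by positivity
  constructor <;> linarith

/-- step (1) -/
theorem bell_one (x d s sg : ℝ) (hs1 : 0 < s + sg) (hs2 : 0 < s - sg) :
    (d - x * sg / s) ^ 2 / s ≤
      ((x + d) ^ 2 / (s + sg) + (x - d) ^ 2 / (s - sg)) / 2 - x ^ 2 / s := by
  have hs : 0 < s := by linarith
  have h1 : ((x + d) ^ 2 / (s + sg) + (x - d) ^ 2 / (s - sg)) / 2 - x ^ 2 / s =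
      (d - x * sg / s) ^ 2 * s / ((s + sg) * (s - sg)) := by
    field_simp
    ring
  rw [h1, div_le_div_iff₀ hs (mul_pos hs1 hs2)]
  have h2 : 0 ≤ (d - x * sg / s) ^ 2 := sq_nonneg _
  nlinarith [mul_nonneg h2 (sq_nonneg sg)]

/-- step (2) -/
theorem bell_two (x d p q : ℝ) (hp : 0 < p) (hq : 0 < q) :
    x ^ 2 / ((p + q) / 2) ≤ ((x + d) ^ 2 / p + (x - d) ^ 2 / q) / 2 := by
  have h1 : ((x + d) ^ 2 / p + (x - d) ^ 2 / q) / 2 - x ^ 2 / ((p + q) / 2) =
      ((x + d) * q - (x - d) * p) ^ 2 / (2 * p * q * (p + q)) := by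
    field_simp
    ring
  have h2 : 0 ≤ ((x + d) * q - (x - d) * p) ^ 2 / (2 * p * q * (p + q)) := by positivity
  linarith

theorem bell_sq_aux {a b : ℝ} (_ : 0 ≤ a) (hb : 0 ≤ b) (h : a ^ 2 ≤ b ^ 2) : a ≤ b :=
  le_trans (le_abs_self a) (abs_le_of_sq_le_sq h hb)

/-- step (3) -/
theorem bell_three (w om s sg : ℝ)
    (hw1 : 0 < w + om) (hw2 : 0 < w - om) (hs1 : 0 < s + sg) (hs2 : 0 < s - sg) :
    1 / (w ^ 2 * s) + sg ^ 2 / (2 * w ^ 2 * s ^ 3) ≤
      (1 / ((w + om) ^ 2 * (s + sg)) + 1 / ((w - om) ^ 2 * (s - sg))) / 2 := by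
  have hs : 0 < s := by linarith
  have hw : 0 < w := by linarith
  have hG0 : 0 ≤ (1 / ((w + om) ^ 2 * (s + sg)) + 1 / ((w - om) ^ 2 * (s - sg))) / 2 := by
    positivity
  set a := 1 / ((w + om) ^ 2 * (s + sg)) with ha
  set b := 1 / ((w - om) ^ 2 * (s - sg)) with hb
  have hS : 0 < (s + sg) * (s - sg) := mul_pos hs1 hs2
  have hW : 0 < (w + om) * (w - om) := mul_pos hw1 hw2
  have h1 : a * b ≤ ((a + b) / 2) ^ 2 := by nlinarith [sq_nonneg (a - b)]
  have h2 : a * b = 1 / (((w + om) * (w - om)) ^ 2 * ((s + sg) * (s - sg))) := by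
    rw [ha, hb]
    field_simp
  have h3 : 1 / (w ^ 4 * ((s + sg) * (s - sg))) ≤ a * b := by
    rw [h2]
    have h4 : ((w + om) * (w - om)) ^ 2 ≤ (w ^ 2) ^ 2 := by
      apply pow_le_pow_left₀ hW.le
      nlinarith [sq_nonneg om]
    have h5 : ((w + om) * (w - om)) ^ 2 ≤ w ^ 4 := by
      calc _ ≤ (w ^ 2) ^ 2 := h4
        _ = w ^ 4 := by ring
    gcongr
  have h6 : (1 / (w ^ 2 * s) + sg ^ 2 / (2 * w ^ 2 * s ^ 3)) ^ 2 ≤
      1 / (w ^ 4 * ((s + sg) * (s - sg))) := by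
    have h7 : (1 / (w ^ 2 * s) + sg ^ 2 / (2 * w ^ 2 * s ^ 3)) ^ 2 =
        (2 * s ^ 2 + sg ^ 2) ^ 2 / (4 * w ^ 4 * s ^ 6) := by
      field_simp
      norm_num
    rw [h7, div_le_div_iff₀ (by positivity) (by positivity)]
    have h8 : (2 * s ^ 2 + sg ^ 2) ^ 2 * ((s + sg) * (s - sg)) ≤ 4 * s ^ 6 := by
      have : 4 * s ^ 6 - (2 * s ^ 2 + sg ^ 2) ^ 2 * ((s + sg) * (s - sg)) =
          3 * s ^ 2 * (sg ^ 2) ^ 2 + (sg ^ 2) ^ 3 := by ring
      have h9 : 0 ≤ 3 * s ^ 2 * (sg ^ 2) ^ 2 + (sg ^ 2) ^ 3 := by positivity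
      linarith
    calc (2 * s ^ 2 + sg ^ 2) ^ 2 * (w ^ 4 * ((s + sg) * (s - sg))) =
        w ^ 4 * ((2 * s ^ 2 + sg ^ 2) ^ 2 * ((s + sg) * (s - sg))) := by ring
      _ ≤ w ^ 4 * (4 * s ^ 6) := by gcongr
      _ = 1 * (4 * w ^ 4 * s ^ 6) := by ring
  exact bell_sq_aux (by positivity) hG0 (h6.trans (h3.trans h1))

theorem bellman_step (K x d w om s sg : ℝ) (hK : 1 ≤ K)
    (hw1 : 0 < w + om) (hw2 : 0 < w - om) (hs1 : 0 < s + sg) (hs2 : 0 < s - sg)
    (h0 : w * s ≤ K) (hm : 1 ≤ w * s) (hA : 1 ≤ (w + om) * (s + sg)) (hB : 1 ≤ (w - om) * (s - sg)) :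
    w * d ^ 2 ≤ (BB K (x + d) (w + om) (s + sg) + BB K (x - d) (w - om) (s - sg)) / 2
      - BB K x w s := by
  have hs : 0 < s := by linarith
  have hw : 0 < w := by linarith
  have hKp : 0 < K := by linarith
  obtain ⟨p1, p2⟩ := bell_den hw1 hs1 hA
  obtain ⟨q1, q2⟩ := bell_den hw2 hs2 hB
  obtain ⟨z1, z2⟩ := bell_den hw hs hm
  have e3 := bell_three w om s sg hw1 hw2 hs1 hs2
  unfold BB
  set p := 2 * (s + sg) - 1 / ((w + om) ^ 2 * (s + sg)) with hp
  set q := 2 * (s - sg) - 1 / ((w - om) ^ 2 * (s - sg)) with hq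
  set z := 2 * s - 1 / (w ^ 2 * s) with hz
  have e1 := bell_one x d s sg hs1 hs2
  have e2 := bell_two x d p q p1 q1
  have e4 : sg ^ 2 / (2 * w ^ 2 * s ^ 3) ≤ z - (p + q) / 2 := by
    rw [hp, hq, hz]; linarith
  have hpq : 0 < (p + q) / 2 := by positivity
  have hpq2 : (p + q) / 2 ≤ 2 * s := by linarith
  have e5 : x ^ 2 * sg ^ 2 / (8 * w ^ 2 * s ^ 5) ≤ x ^ 2 / ((p + q) / 2) - x ^ 2 / z := by
    have h1 : x ^ 2 / ((p + q) / 2) - x ^ 2 / z = x ^ 2 * (z - (p + q) / 2) / (((p + q) / 2) * z) := by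
      field_simp
    rw [h1]
    calc x ^ 2 * sg ^ 2 / (8 * w ^ 2 * s ^ 5) =
        x ^ 2 * (sg ^ 2 / (2 * w ^ 2 * s ^ 3)) / ((2 * s) * (2 * s)) := by field_simp; ring
      _ ≤ x ^ 2 * (z - (p + q) / 2) / (((p + q) / 2) * z) := by
        have h3 : 0 ≤ sg ^ 2 / (2 * w ^ 2 * s ^ 3) := by positivity
        have h4 : 0 ≤ z - (p + q) / 2 := h3.trans e4
        gcongr
  have e6 : w / K * (d - x * sg / s) ^ 2 ≤ (d - x * sg / s) ^ 2 / s := by
    rw [div_mul_eq_mul_div, div_le_div_iff₀ hKp hs]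
    have := sq_nonneg (d - x * sg / s)
    nlinarith
  have e7 : 2 * w * (x * sg / s) ^ 2 ≤ 16 * K ^ 3 * (x ^ 2 * sg ^ 2 / (8 * w ^ 2 * s ^ 5)) := by
    have h1 : 2 * w * (x * sg / s) ^ 2 = 16 * (w * s) ^ 3 * (x ^ 2 * sg ^ 2 / (8 * w ^ 2 * s ^ 5)) := by
      field_simp; ring
    rw [h1]
    gcongr
  have e8 : w * d ^ 2 ≤ 2 * w * (d - x * sg / s) ^ 2 + 2 * w * (x * sg / s) ^ 2 := by
    nlinarith [mul_nonneg hw.le (sq_nonneg (d - 2 * (x * sg / s)))]
  have e9 : 2 * w * (d - x * sg / s) ^ 2 ≤ 2 * K * (((x + d) ^ 2 / (s + sg) + (x - d) ^ 2 / (s - sg)) / 2 - x ^ 2 / s) := by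
    have h1 : 2 * w * (d - x * sg / s) ^ 2 = 2 * K * (w / K * (d - x * sg / s) ^ 2) := by
      field_simp
    rw [h1]
    have := e6.trans e1
    gcongr
  have e10 : 16 * K ^ 3 * (x ^ 2 * sg ^ 2 / (8 * w ^ 2 * s ^ 5)) ≤
      16 * K ^ 3 * (((x + d) ^ 2 / p + (x - d) ^ 2 / q) / 2 - x ^ 2 / z) := by
    have : x ^ 2 * sg ^ 2 / (8 * w ^ 2 * s ^ 5) ≤ ((x + d) ^ 2 / p + (x - d) ^ 2 / q) / 2 - x ^ 2 / z := by
      linarith
    gcongr
  have e11 : (2 * K * (x + d) ^ 2 / (s + sg) + 16 * K ^ 3 * (x + d) ^ 2 / p +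
      (2 * K * (x - d) ^ 2 / (s - sg) + 16 * K ^ 3 * (x - d) ^ 2 / q)) / 2 -
      (2 * K * x ^ 2 / s + 16 * K ^ 3 * x ^ 2 / z) =
      2 * K * (((x + d) ^ 2 / (s + sg) + (x - d) ^ 2 / (s - sg)) / 2 - x ^ 2 / s) +
      16 * K ^ 3 * (((x + d) ^ 2 / p + (x - d) ^ 2 / q) / 2 - x ^ 2 / z) := by
    ring
  rw [e11]
  linarith

theorem w2_ex_pos {V : Type*} [Fintype V] [DecidableEq V] {f : (V → Bool) → ℝ}
    (h : ∀ w, 0 < f w) : 0 < ex f := by
  unfold ex
  exact mul_pos (inv_pos.mpr card_pos') (Finset.sum_pos (fun w _ => h w) Finset.univ_nonempty)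

theorem w2_av_pos {V : Type*} [Fintype V] [DecidableEq V] (A : Finset V) {f : (V → Bool) → ℝ}
    (h : ∀ w, 0 < f w) (o : V → Bool) : 0 < av A f o := w2_ex_pos fun _ => h _

theorem w2_cs {V : Type*} [Fintype V] [DecidableEq V] (A : Finset V) {W : (V → Bool) → ℝ}
    (h : ∀ w, 0 < W w) (o : V → Bool) : 1 ≤ av A W o * av A (fun o => (W o)⁻¹) o := by
  have ha : 0 < av A W o := w2_av_pos A h o
  have h1 : ex (fun _ : V → Bool => (2:ℝ)) ≤ ex (fun w' => (av A W o)⁻¹ * W (mix A o w')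
      + av A W o * (W (mix A o w'))⁻¹) := by
    apply ex_mono
    intro w'
    have hw : 0 < W (mix A o w') := h _
    have h2 : (av A W o)⁻¹ * W (mix A o w') + av A W o * (W (mix A o w'))⁻¹ - 2
        = (W (mix A o w') - av A W o) ^ 2 * ((av A W o)⁻¹ * (W (mix A o w'))⁻¹) := by
      field_simp
      ring
    have h3 : 0 ≤ (W (mix A o w') - av A W o) ^ 2 * ((av A W o)⁻¹ * (W (mix A o w'))⁻¹) := by
      positivity
    linarith
  rw [ex_const, ex_add, ex_smul, ex_smul] at h1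
  have e1 : ex (fun w' => W (mix A o w')) = av A W o := rfl
  have e2 : ex (fun w' => (W (mix A o w'))⁻¹) = av A (fun o => (W o)⁻¹) o := rfl
  rw [e1, e2, inv_mul_cancel₀ ha.ne'] at h1
  linarith

theorem w2_flip {V : Type*} [Fintype V] [DecidableEq V] {A : Finset V} {a : V} (ha : a ∉ A)
    (f : (V → Bool) → ℝ) (o : V → Bool) (b : Bool) :
    av (insert a A) f (Function.update o a b)
      = av A f o + (if b then (1:ℝ) else -1) * av A (fun o => chi a o * f o) o := by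
  rw [av_insert ha]
  have h1 : av A f (Function.update o a b) = av A f o := (av_dep A f).ind ha o b
  have h2 : av A (fun w => chi a w * f w) (Function.update o a b)
      = av A (fun o => chi a o * f o) o := (av_dep A _).ind ha o b
  rw [h1, h2]
  simp [chi]

theorem chain_step {V : Type*} [Fintype V] [DecidableEq V] (K : ℝ) (hK : 1 ≤ K)
    (f W : (V → Bool) → ℝ) (hW : ∀ o, 0 < W o) (A : Finset V) (a : V) (ha : a ∉ A)
    (hA : ∀ o, av A W o * av A (fun o => (W o)⁻¹) o ≤ K) :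
    ex (fun o => (av A (fun o => chi a o * f o) o) ^ 2 * W o) ≤
      ex (fun o => BB K (av (insert a A) f o) (av (insert a A) W o)
        (av (insert a A) (fun o => (W o)⁻¹) o))
      - ex (fun o => BB K (av A f o) (av A W o) (av A (fun o => (W o)⁻¹) o)) := by
  set X := av A f with hX
  set D := av A (fun o => chi a o * f o) with hD
  set Wm := av A W with hWm
  set Om := av A (fun o => chi a o * W o) with hOm
  set Sm := av A (fun o => (W o)⁻¹) with hSm
  set Sg := av A (fun o => chi a o * (W o)⁻¹) with hSg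
  have dX : Dep X A := av_dep _ _
  have dD : Dep D A := av_dep _ _
  have dWm : Dep Wm A := av_dep _ _
  have dOm : Dep Om A := av_dep _ _
  have dSm : Dep Sm A := av_dep _ _
  have dSg : Dep Sg A := av_dep _ _
  set P : (V → Bool) → ℝ := fun o => BB K (X o + D o) (Wm o + Om o) (Sm o + Sg o) with hP
  set Q : (V → Bool) → ℝ := fun o => BB K (X o - D o) (Wm o - Om o) (Sm o - Sg o) with hQ
  have dP : Dep P A := by
    intro w w' hw
    simp only [hP, dX w w' hw, dD w w' hw, dWm w w' hw, dOm w w' hw, dSm w w' hw, dSg w w' hw]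
  have dQ : Dep Q A := by
    intro w w' hw
    simp only [hQ, dX w w' hw, dD w w' hw, dWm w w' hw, dOm w w' hw, dSm w w' hw, dSg w w' hw]
  have hWi : ∀ o, 0 < (W o)⁻¹ := fun o => inv_pos.mpr (hW o)
  -- pointwise
  have hpt : ∀ o, Wm o * D o ^ 2 ≤ (P o + Q o) / 2 - BB K (X o) (Wm o) (Sm o) := by
    intro o
    have p1 := w2_flip ha W o true
    have p2 := w2_flip ha W o false
    have q1 := w2_flip ha (fun o => (W o)⁻¹) o true
    have q2 := w2_flip ha (fun o => (W o)⁻¹) o false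
    simp only [if_true, Bool.false_eq_true, if_false, one_mul, neg_mul] at p1 p2 q1 q2
    rw [← hWm, ← hOm] at p1 p2
    rw [← hSm, ← hSg] at q1 q2
    have a1 := w2_av_pos (insert a A) hW (Function.update o a true)
    have a2 := w2_av_pos (insert a A) hW (Function.update o a false)
    have b1 := w2_av_pos (insert a A) hWi (Function.update o a true)
    have b2 := w2_av_pos (insert a A) hWi (Function.update o a false)
    have c1 := w2_cs (insert a A) hW (Function.update o a true)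
    have c2 := w2_cs (insert a A) hW (Function.update o a false)
    rw [p1] at a1 c1
    rw [p2] at a2 c2
    rw [q1] at b1 c1
    rw [q2] at b2 c2
    rw [← sub_eq_add_neg] at a2 b2 c2
    rw [← sub_eq_add_neg] at c2
    exact bellman_step K (X o) (D o) (Wm o) (Om o) (Sm o) (Sg o) hK a1 a2 b1 b2 (hA o)
      (w2_cs A hW o) c1 c2
  -- the left side
  have hL : ex (fun o => D o ^ 2 * W o) = ex (fun o => Wm o * D o ^ 2) := by
    have hg : Dep (fun o => D o ^ 2) A := by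
      intro w w' hw
      simp only [dD w w' hw]
    have h1 := ex_av A (fun o => D o ^ 2 * W o)
    rw [av_mul_left hg W] at h1
    rw [← h1]
    congr 1
    funext o
    rw [← hWm]
    ring
  -- the right side
  have hR : ex (fun o => BB K (av (insert a A) f o) (av (insert a A) W o)
        (av (insert a A) (fun o => (W o)⁻¹) o)) = ex (fun o => (P o + Q o) / 2) := by
    have h1 : (fun o => BB K (av (insert a A) f o) (av (insert a A) W o)
        (av (insert a A) (fun o => (W o)⁻¹) o))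
        = fun o => (P o + Q o) / 2 + chi a o * ((P o - Q o) / 2) := by
      funext o
      rw [av_insert ha f, av_insert ha W, av_insert ha (fun o => (W o)⁻¹)]
      rw [← hX, ← hD, ← hWm, ← hOm, ← hSm, ← hSg]
      simp only [chi]
      split_ifs
      · simp only [one_mul, hP, hQ]
        ring
      · simp only [neg_mul, one_mul, hP, hQ, ← sub_eq_add_neg]
        ring
    rw [h1, ex_add]
    have h2 : ex (fun o => chi a o * ((P o - Q o) / 2)) = 0 := by
      apply ex_chi_mul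
      intro w b
      have e1 := dP.ind ha w b
      have e2 := dQ.ind ha w b
      simp only [e1, e2]
    rw [h2, add_zero]
  rw [hL, hR, ← ex_sub]
  exact ex_mono hpt

theorem j8271_ex_pos {V : Type*} [Fintype V] [DecidableEq V] {f : (V → Bool) → ℝ} (h : ∀ w, 0 < f w) :
    0 < ex f := by
  unfold ex
  exact mul_pos (inv_pos.mpr card_pos') (Finset.sum_pos (fun w _ => h w) ⟨fun _ => true, Finset.mem_univ _⟩)

theorem j8271_av_pos {V : Type*} [Fintype V] [DecidableEq V] (A : Finset V) {f : (V → Bool) → ℝ}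
    (h : ∀ w, 0 < f w) (o : V → Bool) : 0 < av A f o := j8271_ex_pos fun _ => h _

theorem j8271_ws {V : Type*} [Fintype V] [DecidableEq V] (A : Finset V) {W : (V → Bool) → ℝ}
    (hW : ∀ o, 0 < W o) (o : V → Bool) : 1 ≤ av A W o * av A (fun o => (W o)⁻¹) o := by
  have ha := j8271_av_pos A hW o
  set a := av A W o with had
  have h1 : ∀ w, (fun _ : V → Bool => (2 : ℝ)) w ≤ (fun w => a⁻¹ * W w + a * (W w)⁻¹) w := by
    intro w
    have hw := hW w
    show (2 : ℝ) ≤ a⁻¹ * W w + a * (W w)⁻¹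
    have h2 : a⁻¹ * W w + a * (W w)⁻¹ - 2 = (a - W w) ^ 2 / (a * W w) := by
      field_simp
      ring
    have h3 : 0 ≤ (a - W w) ^ 2 / (a * W w) := by positivity
    linarith
  have h2 := av_mono (A := A) h1 o
  have h3 : av A (fun _ : V → Bool => (2 : ℝ)) o = 2 := ex_const 2
  have h4 : av A (fun w => a⁻¹ * W w + a * (W w)⁻¹) o = a⁻¹ * a + a * av A (fun o => (W o)⁻¹) o := by
    rw [av_add]
    show av A (fun w => a⁻¹ * W w) o + av A (fun w => a * (W w)⁻¹) o = _
    rw [av_mul_left (Dep.const a⁻¹ A), av_mul_left (Dep.const a A)]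
  rw [h3, h4, inv_mul_cancel₀ ha.ne'] at h2
  linarith

theorem j8271_D {w s : ℝ} (hw : 0 < w) (hs : 0 < s) (hws : 1 ≤ w * s) : s ≤ 2 * s - 1 / (w ^ 2 * s) := by
  have h1 : 1 / (w ^ 2 * s) ≤ s := by
    rw [div_le_iff₀ (by positivity)]
    nlinarith
  linarith

theorem j8271_BB_lower {K x w s : ℝ} (hK : 1 ≤ K) (hw : 0 < w) (hs : 0 < s) (hws : 1 ≤ w * s) :
    2 * K * x ^ 2 / s ≤ BB K x w s := by
  have hD := j8271_D hw hs hws
  have hD0 : 0 < 2 * s - 1 / (w ^ 2 * s) := lt_of_lt_of_le hs hD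
  have h1 : 0 ≤ 16 * K ^ 3 * x ^ 2 / (2 * s - 1 / (w ^ 2 * s)) := by positivity
  unfold BB
  linarith

theorem j8271_BB_upper {K x w s : ℝ} (hK : 1 ≤ K) (hw : 0 < w) (hs : 0 < s) (hws : 1 ≤ w * s) :
    BB K x w s ≤ (2 * K + 16 * K ^ 3) * (x ^ 2 / s) := by
  have hD := j8271_D hw hs hws
  have h1 : 16 * K ^ 3 * x ^ 2 / (2 * s - 1 / (w ^ 2 * s)) ≤ 16 * K ^ 3 * x ^ 2 / s :=
    div_le_div_of_nonneg_left (by positivity) hs hD
  unfold BB
  calc 2 * K * x ^ 2 / s + 16 * K ^ 3 * x ^ 2 / (2 * s - 1 / (w ^ 2 * s))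
      ≤ 2 * K * x ^ 2 / s + 16 * K ^ 3 * x ^ 2 / s := by linarith
    _ = (2 * K + 16 * K ^ 3) * (x ^ 2 / s) := by ring

theorem j8271_cs {V : Type*} [Fintype V] [DecidableEq V] (A : Finset V) (f : (V → Bool) → ℝ)
    {W : (V → Bool) → ℝ} (hW : ∀ o, 0 < W o) (o : V → Bool) :
    (av A f o) ^ 2 / av A (fun o => (W o)⁻¹) o ≤ av A (fun o => f o ^ 2 * W o) o := by
  have hs := j8271_av_pos A (f := fun o => (W o)⁻¹) (fun w => inv_pos.mpr (hW w)) o
  set s := av A (fun o => (W o)⁻¹) o with hsd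
  set x := av A f o with hxd
  set l := x / s with hl
  have h1 : 0 ≤ av A (fun w => W w * (f w - l * (W w)⁻¹) ^ 2) o :=
    av_nonneg (fun w => mul_nonneg (hW w).le (sq_nonneg _)) o
  have h2 : (fun w => W w * (f w - l * (W w)⁻¹) ^ 2) =
      fun w => f w ^ 2 * W w + ((-2 * l) * f w + l ^ 2 * (W w)⁻¹) := by
    funext w
    have := (hW w).ne'
    field_simp
    ring
  have h3 : av A (fun w => f w ^ 2 * W w + ((-2 * l) * f w + l ^ 2 * (W w)⁻¹)) o =
      av A (fun w => f w ^ 2 * W w) o + ((-2 * l) * x + l ^ 2 * s) := by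
    rw [av_add A (fun w => f w ^ 2 * W w)]
    show _ + av A (fun w => (-2 * l) * f w + l ^ 2 * (W w)⁻¹) o = _
    rw [av_add A (fun w => (-2 * l) * f w)]
    show _ + (av A (fun w => (-2 * l) * f w) o + av A (fun w => l ^ 2 * (W w)⁻¹) o) = _
    rw [av_mul_left (Dep.const (-2 * l) A), av_mul_left (Dep.const (l ^ 2) A)]
  rw [h2, h3] at h1
  have h4 : (-2 * l) * x + l ^ 2 * s = -(x ^ 2 / s) := by
    rw [hl]
    field_simp
    ring
  rw [h4] at h1
  linarith

theorem j8271_tele {V : Type*} [Fintype V] [DecidableEq V] (r : V → V → Prop) [DecidableRel r]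
    (htri : ∀ i j, i ≠ j → r i j ∨ r j i) (hirr : ∀ i, ¬ r i i)
    (htrans : ∀ i j k, r i j → r j k → r i k) (K : ℝ) (hK : 1 ≤ K)
    (f W : (V → Bool) → ℝ) (hW : ∀ o, 0 < W o) (S : Finset V) (hS : ∀ i j, r i j → j ∈ S → i ∈ S)
    (hA : ∀ a ∈ S, ∀ o, av (univ.filter fun b => r b a) W o
      * av (univ.filter fun b => r b a) (fun o => (W o)⁻¹) o ≤ K) :
    ∑ a ∈ S, ex (fun o =>
      (av (univ.filter fun b => r b a) (fun o => chi a o * f o) o) ^ 2 * W o)
      + ex (fun o => BB K (av ∅ f o) (av ∅ W o) (av ∅ (fun o => (W o)⁻¹) o))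
      ≤ ex (fun o => BB K (av S f o) (av S W o) (av S (fun o => (W o)⁻¹) o)) := by
  induction hn : S.card generalizing S with
  | zero =>
    rw [Finset.card_eq_zero] at hn
    subst hn
    simp
  | succ n ih =>
    have hne : S.Nonempty := by
      rw [← Finset.card_pos]; omega
    have hmax : ∃ m ∈ S, ∀ i ∈ S, i ≠ m → r i m := by
      obtain ⟨m, hm, hmm⟩ := S.exists_max_image (fun i => (univ.filter fun b => r b i).card) hne
      refine ⟨m, hm, fun i hi him => ?_⟩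
      rcases htri i m him with h | h
      · exact h
      · exfalso
        have h1 := hmm i hi
        have h2 : (univ.filter fun b => r b m) ⊂ (univ.filter fun b => r b i) := by
          rw [Finset.ssubset_iff_of_subset]
          · exact ⟨m, by simp [h], by simp [hirr]⟩
          · intro b hb
            simp only [Finset.mem_filter, Finset.mem_univ, true_and] at hb ⊢
            exact htrans _ _ _ hb h
        exact absurd h1 (not_le.mpr (Finset.card_lt_card h2))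
    obtain ⟨m, hm, hmm⟩ := hmax
    have hbelow : (univ.filter fun b => r b m) = S.erase m := by
      ext b
      simp only [Finset.mem_filter, Finset.mem_univ, true_and, Finset.mem_erase]
      constructor
      · intro h
        exact ⟨fun h' => hirr m (h' ▸ h), hS b m h hm⟩
      · rintro ⟨h1, h2⟩
        exact hmm b h2 h1
    have h1 := ih (S.erase m) (by
      intro i j hij hj
      rw [Finset.mem_erase] at hj ⊢
      refine ⟨?_, hS i j hij hj.2⟩
      rintro rfl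
      exact hirr _ (htrans _ _ _ hij (hmm j hj.2 hj.1)))
      (fun a ha => hA a (Finset.mem_of_mem_erase ha)) (by
      rw [Finset.card_erase_of_mem hm]; omega)
    have hAm := hA m hm
    rw [hbelow] at hAm
    have h2 := chain_step K hK f W hW (S.erase m) m (Finset.notMem_erase m S) hAm
    rw [Finset.insert_erase hm] at h2
    rw [← Finset.add_sum_erase S _ hm, hbelow]
    linarith

theorem chain_upper {V : Type*} [Fintype V] [DecidableEq V] (r : V → V → Prop) [DecidableRel r]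
    (htri : ∀ i j, i ≠ j → r i j ∨ r j i) (hirr : ∀ i, ¬ r i i)
    (htrans : ∀ i j k, r i j → r j k → r i k) (K : ℝ) (hK : 1 ≤ K)
    (f W : (V → Bool) → ℝ) (hW : ∀ o, 0 < W o) (S : Finset V) (hS : ∀ i j, r i j → j ∈ S → i ∈ S)
    (hA0 : ex W * ex (fun o => (W o)⁻¹) ≤ K)
    (hA : ∀ a ∈ S, ∀ o, av (univ.filter fun b => r b a) W o
      * av (univ.filter fun b => r b a) (fun o => (W o)⁻¹) o ≤ K) :
    (ex f) ^ 2 * ex W + ∑ a ∈ S, ex (fun o =>
      (av (univ.filter fun b => r b a) (fun o => chi a o * f o) o) ^ 2 * W o)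
      ≤ (2 * K + 16 * K ^ 3) * ex (fun o => f o ^ 2 * W o) := by
  have h1 := j8271_tele r htri hirr htrans K hK f W hW S hS hA
  -- the lower end
  have h2 : (ex f) ^ 2 * ex W ≤
      ex (fun o => BB K (av ∅ f o) (av ∅ W o) (av ∅ (fun o => (W o)⁻¹) o)) := by
    have hs : 0 < ex (fun o => (W o)⁻¹) := j8271_ex_pos fun w => inv_pos.mpr (hW w)
    have hw : 0 < ex W := j8271_ex_pos hW
    have hws : 1 ≤ ex W * ex (fun o => (W o)⁻¹) := by
      have := j8271_ws (∅ : Finset V) hW (fun _ => true)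
      rwa [av_empty, av_empty] at this
    rw [av_empty, av_empty, av_empty, ex_const]
    refine le_trans ?_ (j8271_BB_lower hK hw hs hws)
    rw [le_div_iff₀ hs]
    have h3 : (ex f) ^ 2 * (ex W * ex (fun o => (W o)⁻¹)) ≤ (ex f) ^ 2 * K :=
      mul_le_mul_of_nonneg_left hA0 (sq_nonneg _)
    have h4 : 0 ≤ K * (ex f) ^ 2 := by positivity
    calc (ex f) ^ 2 * ex W * ex (fun o => (W o)⁻¹) = (ex f) ^ 2 * (ex W * ex (fun o => (W o)⁻¹)) := by ring
      _ ≤ (ex f) ^ 2 * K := h3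
      _ ≤ 2 * K * (ex f) ^ 2 := by linarith
  -- the upper end
  have h3 : ex (fun o => BB K (av S f o) (av S W o) (av S (fun o => (W o)⁻¹) o)) ≤
      (2 * K + 16 * K ^ 3) * ex (fun o => f o ^ 2 * W o) := by
    rw [← ex_av S (fun o => f o ^ 2 * W o), ← ex_smul]
    refine ex_mono fun o => ?_
    have hs : 0 < av S (fun o => (W o)⁻¹) o := j8271_av_pos S (fun w => inv_pos.mpr (hW w)) o
    refine (j8271_BB_upper hK (j8271_av_pos S hW o) hs (j8271_ws S hW o)).trans ?_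
    exact mul_le_mul_of_nonneg_left (j8271_cs S f hW o) (by positivity)
  linarith

theorem cl_ex_pos {V : Type*} [Fintype V] [DecidableEq V] {f : (V → Bool) → ℝ}
    (h : ∀ w, 0 < f w) : 0 < ex f :=
  mul_pos (inv_pos.mpr card_pos')
    (Finset.sum_pos (fun w _ => h w) ⟨fun _ => false, Finset.mem_univ _⟩)
theorem cl_ex_inv {V : Type*} [Fintype V] [DecidableEq V] {f : (V → Bool) → ℝ}
    (h : ∀ w, 0 < f w) : (ex f)⁻¹ ≤ ex (fun w => (f w)⁻¹) := by
  have ha := cl_ex_pos h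
  set a := ex f with haa
  have h1 : ∀ w, (2 : ℝ) ≤ a⁻¹ * f w + a * (f w)⁻¹ := by
    intro w
    have hw := h w
    have h2 : a⁻¹ * f w + a * (f w)⁻¹ - 2 = (f w - a) ^ 2 / (a * f w) := by
      field_simp
      ring
    have h3 : 0 ≤ (f w - a) ^ 2 / (a * f w) := by positivity
    linarith
  have h2 := ex_mono h1
  rw [ex_const, ex_add, ex_smul, ex_smul, ← haa, inv_mul_cancel₀ ha.ne'] at h2
  rw [inv_le_iff_one_le_mul₀ ha]
  linarith

theorem cl_av_pos {V : Type*} [Fintype V] [DecidableEq V] {f : (V → Bool) → ℝ}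
    (h : ∀ w, 0 < f w) (A : Finset V) (w : V → Bool) : 0 < av A f w :=
  cl_ex_pos fun _ => h _

theorem cl_av_inv {V : Type*} [Fintype V] [DecidableEq V] {f : (V → Bool) → ℝ}
    (h : ∀ w, 0 < f w) (A : Finset V) (w : V → Bool) :
    (av A f w)⁻¹ ≤ av A (fun w => (f w)⁻¹) w :=
  cl_ex_inv (f := fun w' => f (mix A w w')) fun _ => h _

theorem cl_young (C p q W1 : ℝ) (hC : 0 < C) (hW : 0 < W1) :
    2 * (p * q) ≤ C * (p ^ 2 * W1) + C⁻¹ * (q ^ 2 * W1⁻¹) := by
  have h1 : C * (p ^ 2 * W1) + C⁻¹ * (q ^ 2 * W1⁻¹) - 2 * (p * q) =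
      (C * W1 * p - q) ^ 2 / (C * W1) := by
    field_simp
    ring
  have h2 : 0 ≤ (C * W1 * p - q) ^ 2 / (C * W1) := by positivity
  linarith



theorem chain_lower {V : Type*} [Fintype V] [DecidableEq V] (r : V → V → Prop) [DecidableRel r]
    (htri : ∀ i j, i ≠ j → r i j ∨ r j i) (hirr : ∀ i, ¬ r i i)
    (htrans : ∀ i j k, r i j → r j k → r i k) (K : ℝ) (hK : 1 ≤ K)
    (f W : (V → Bool) → ℝ) (hW : ∀ o, 0 < W o) (S : Finset V) (hS : ∀ i j, r i j → j ∈ S → i ∈ S)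
    (hA0 : ex W * ex (fun o => (W o)⁻¹) ≤ K)
    (hA : ∀ a ∈ S, ∀ o, av (univ.filter fun b => r b a) W o
      * av (univ.filter fun b => r b a) (fun o => (W o)⁻¹) o ≤ K) (hf : Dep f S) :
    ex (fun o => f o ^ 2 * W o) ≤ (2 * K + 16 * K ^ 3) * ((ex f) ^ 2 * ex W
      + ∑ a ∈ S, ex (fun o =>
        (av (univ.filter fun b => r b a) (fun o => chi a o * f o) o) ^ 2 * W o)) := by
  set C : ℝ := 2 * K + 16 * K ^ 3 with hC
  have hK0 : 0 < K := by linarith
  have hC0 : 0 < C := by positivity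
  set W1 : (V → Bool) → ℝ := av S W with hW1
  have hW1p : ∀ o, 0 < W1 o := fun o => cl_av_pos hW S o
  set g : (V → Bool) → ℝ := fun o => f o * W1 o with hg
  have hsub : ∀ a ∈ S, (univ.filter fun b => r b a) ⊆ S := by
    intro a ha b hb
    exact hS b a (Finset.mem_filter.mp hb).2 ha
  have hWi : ∀ T : Finset V, T ⊆ S → av T W1 = av T W := by
    intro T hT
    rw [hW1, av_av, Finset.inter_eq_left.mpr hT]
  have hWii : ∀ T : Finset V, T ⊆ S → ∀ o,
      av T (fun o => (W1 o)⁻¹) o ≤ av T (fun o => (W o)⁻¹) o := by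
    intro T hT o
    have h1 : av T (fun o => (W o)⁻¹) = av T (av S (fun o => (W o)⁻¹)) := by
      rw [av_av, Finset.inter_eq_left.mpr hT]
    rw [h1]
    exact av_mono (fun w => cl_av_inv hW S w) o
  have hexW1 : ex W1 = ex W := ex_av S W
  have hexW1i : ex (fun o => (W1 o)⁻¹) ≤ ex (fun o => (W o)⁻¹) := by
    rw [← ex_av S (fun o => (W o)⁻¹)]
    exact ex_mono (fun w => cl_av_inv hW S w)
  have hWpos : 0 < ex W := cl_ex_pos hW
  -- weighted expectation
  have hswap : ∀ h : (V → Bool) → ℝ, Dep h S →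
      ex (fun o => h o ^ 2 * W1 o) = ex (fun o => h o ^ 2 * W o) := by
    intro h hh
    have h1 : Dep (fun o => h o ^ 2) S := by
      intro w w' hw
      simp only [hh w w' hw]
    rw [← ex_av S (fun o => h o ^ 2 * W o), av_mul_left h1 W]
  set X : ℝ := ex (fun o => f o ^ 2 * W o) with hX
  -- (a)
  have hup := chain_upper r htri hirr htrans K hK g (fun o => (W1 o)⁻¹)
    (fun o => inv_pos.mpr (hW1p o)) S hS
    (by
      simp only [inv_inv]
      change ex (fun o => (W1 o)⁻¹) * ex W1 ≤ K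
      rw [hexW1]
      have := mul_le_mul_of_nonneg_right hexW1i hWpos.le
      linarith)
    (by
      intro a ha o
      simp only [inv_inv]
      change av _ (fun o => (W1 o)⁻¹) o * av _ W1 o ≤ K
      rw [hWi _ (hsub a ha)]
      have h1 := hWii _ (hsub a ha) o
      have h2 := (cl_av_pos hW (univ.filter fun b => r b a) o).le
      have h3 := mul_le_mul_of_nonneg_right h1 h2
      have h4 := hA a ha o
      linarith)
  have hgX : ex (fun o => g o ^ 2 * (W1 o)⁻¹) = X := by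
    rw [hX, ← hswap f hf]
    congr 1
    funext o
    have := (hW1p o).ne'
    simp only [hg]
    field_simp
  rw [hgX] at hup
  -- (b)
  set φ : V → (V → Bool) → ℝ := fun a =>
    av (univ.filter fun b => r b a) (fun o => chi a o * f o) with hφ
  set ψ : V → (V → Bool) → ℝ := fun a =>
    av (univ.filter fun b => r b a) (fun o => chi a o * g o) with hψ
  have hexp : ∀ o, f o = ex f + ∑ a ∈ S, chi a o * φ a o := by
    intro o
    have h1 := chain_expand r htri hirr htrans f S hS o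
    rw [av_of_dep hf] at h1
    exact h1
  have hfg : X = ex f * ex g + ∑ a ∈ S, ex (fun o => φ a o * ψ a o) := by
    have h1 : X = ex (fun o => f o * g o) := by
      rw [hX, ← hswap f hf]
      congr 1
      funext o
      simp only [hg]
      ring
    have h2 : (fun o => f o * g o) = fun o => ex f * g o + ∑ a ∈ S, φ a o * (chi a o * g o) := by
      funext o
      conv_lhs => rw [hexp o]
      rw [add_mul, Finset.sum_mul]
      congr 1
      refine Finset.sum_congr rfl fun a _ => ?_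
      ring
    rw [h1, h2, ex_add, ex_smul, ex_sum]
    congr 1
    refine Finset.sum_congr rfl fun a _ => ?_
    have h3 : av (univ.filter fun b => r b a) (φ a) = φ a := av_of_dep (av_dep _ _)
    have h4 := ex_av_mul (univ.filter fun b => r b a) (φ a) (fun o => chi a o * g o)
    rw [h3] at h4
    exact h4
  -- (c)
  have hφdep : ∀ a ∈ S, Dep (φ a) S := fun a ha => (av_dep _ _).mono (hsub a ha)
  have hterm : ∀ a ∈ S, 2 * ex (fun o => φ a o * ψ a o) ≤
      C * ex (fun o => φ a o ^ 2 * W o) + C⁻¹ * ex (fun o => ψ a o ^ 2 * (W1 o)⁻¹) := by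
    intro a ha
    rw [← hswap (φ a) (hφdep a ha), ← ex_smul, ← ex_smul, ← ex_smul, ← ex_add]
    exact ex_mono fun o => cl_young C (φ a o) (ψ a o) (W1 o) hC0 (hW1p o)
  have hconst : 2 * (ex f * ex g) ≤
      C * ((ex f) ^ 2 * ex W) + C⁻¹ * ((ex g) ^ 2 * ex (fun o => (W1 o)⁻¹)) := by
    have h1 := cl_young C (ex f) (ex g) (ex W) hC0 hWpos
    have h2 : (ex W)⁻¹ ≤ ex (fun o => (W1 o)⁻¹) := by
      rw [← hexW1]
      exact cl_ex_inv hW1p
    have h3 : C⁻¹ * ((ex g) ^ 2 * (ex W)⁻¹) ≤ C⁻¹ * ((ex g) ^ 2 * ex (fun o => (W1 o)⁻¹)) := by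
      gcongr
    linarith
  have hsum := Finset.sum_le_sum hterm
  rw [← Finset.mul_sum, Finset.sum_add_distrib, ← Finset.mul_sum, ← Finset.mul_sum] at hsum
  have hup' : C⁻¹ * ((ex g) ^ 2 * ex (fun o => (W1 o)⁻¹) +
      ∑ a ∈ S, ex (fun o => ψ a o ^ 2 * (W1 o)⁻¹)) ≤ X := by
    rw [inv_mul_le_iff₀ hC0]
    exact hup
  rw [mul_add] at hup'
  change X ≤ C * ((ex f) ^ 2 * ex W + ∑ a ∈ S, ex (fun o => φ a o ^ 2 * W o))
  rw [mul_add]
  linarith

end

end H60Unc
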