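import Pool.Agent.Helper60.Unc.Main4

/-!
Expansion of every function in the system, Parseval, and duality of the multiplier inequality.
-/

namespace H60Unc

open Finset

section chain

variable {V : Type*} [Fintype V] [DecidableEq V]

theorem av_univ (f : (V → Bool) → ℝ) : av univ f = f :=
  av_of_dep fun w w' h => by
    have : w = w' := funext fun v => h v (Finset.mem_univ v)
    rw [this]

theorem av_empty (f : (V → Bool) → ℝ) : av (∅ : Finset V) f = fun _ => ex f := by
  funext w
  have h : ∀ w', mix (∅ : Finset V) w w' = w' := fun w' => by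
    funext v; simp [mix]
  simp only [av, h]

/-- adding one coordinate -/
theorem av_insert {A : Finset V} {a : V} (ha : a ∉ A) (f : (V → Bool) → ℝ) (w : V → Bool) :
    av (insert a A) f w = av A f w + chi a w * av A (fun w => chi a w * f w) w := by
  set g := av (insert a A) f with hg
  have hgd : Dep g (insert a A) := av_dep _ _
  have h1 : av A f = av A g := by
    rw [hg, av_av]
    congr 1
    ext u
    simp only [Finset.mem_inter, Finset.mem_insert]
    tauto
  have h2 : av A (fun w => chi a w * f w) = av A (fun w => chi a w * g w) := by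
    have h3 : av A (fun w => chi a w * f w) = av A (av (insert a A) (fun w => chi a w * f w)) := by
      rw [av_av]
      congr 1
      ext u
      simp only [Finset.mem_inter, Finset.mem_insert]
      tauto
    rw [h3, av_mul_left (chi_dep (Finset.mem_insert_self a A))]
  rw [h1, h2]
  -- decompose g in the coordinate a
  set g0 : (V → Bool) → ℝ := fun w => (g (Function.update w a true)
    + g (Function.update w a false)) / 2 with hg0
  set g1 : (V → Bool) → ℝ := fun w => (g (Function.update w a true)
    - g (Function.update w a false)) / 2 with hg1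
  have hdec : ∀ w, g w = g0 w + chi a w * g1 w := by
    intro w
    simp only [hg0, hg1, chi]
    cases hw : w a
    · have : Function.update w a false = w := by
        rw [← hw]; exact Function.update_eq_self a w
      rw [this]; simp; ring
    · have : Function.update w a true = w := by
        rw [← hw]; exact Function.update_eq_self a w
      rw [this]; simp; ring
  have hd : ∀ b : Bool, Dep (fun w => g (Function.update w a b)) A := by
    intro b w w' hw
    apply hgd
    intro v hv
    rcases Finset.mem_insert.mp hv with h | h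
    · subst h; simp
    · by_cases hva : v = a
      · subst hva; simp
      · simp only [Function.update_of_ne hva]; exact hw v h
  have h0d : Dep g0 A := fun w w' hw => by
    have e1 := hd true w w' hw
    have e2 := hd false w w' hw
    simp only at e1 e2
    simp only [hg0, e1, e2]
  have h1d : Dep g1 A := fun w w' hw => by
    have e1 := hd true w w' hw
    have e2 := hd false w w' hw
    simp only at e1 e2
    simp only [hg1, e1, e2]
  have e1 : av A g = g0 := by
    have : g = fun w => g0 w + chi a w * g1 w := funext hdec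
    rw [this, av_add, av_of_dep h0d, av_chi_mul (h1d.ind ha) ha]
    funext w; ring
  have e2 : av A (fun w => chi a w * g w) = g1 := by
    have : (fun w => chi a w * g w) = fun w => chi a w * g0 w + g1 w := by
      funext w
      rw [hdec w]
      have := chi_sq a w
      linear_combination (g1 w) * this
    rw [this, av_add, av_of_dep h1d, av_chi_mul (h0d.ind ha) ha]
    funext w; ring
  rw [e1, e2]
  exact hdec w

/-- expansion along a strict total order, on a down-closed set -/
theorem chain_expand (r : V → V → Prop) [DecidableRel r]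
    (htri : ∀ i j, i ≠ j → r i j ∨ r j i) (hirr : ∀ i, ¬ r i i)
    (htrans : ∀ i j k, r i j → r j k → r i k) (f : (V → Bool) → ℝ) (S : Finset V)
    (hS : ∀ i j, r i j → j ∈ S → i ∈ S) (w : V → Bool) :
    av S f w = ex f + ∑ a ∈ S, chi a w * av (univ.filter fun b => r b a) (fun w => chi a w * f w) w := by
  induction hn : S.card generalizing S with
  | zero =>
    rw [Finset.card_eq_zero] at hn
    subst hn
    rw [av_empty]; simp
  | succ n ih =>
    have hne : S.Nonempty := by
      rw [← Finset.card_pos]; omega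
    -- the largest element
    have hmax : ∃ m ∈ S, ∀ i ∈ S, i ≠ m → r i m := by
      obtain ⟨m, hm, hmm⟩ := S.exists_max_image (fun i => (univ.filter fun b => r b i).card) hne
      refine ⟨m, hm, fun i hi him => ?_⟩
      rcases htri i m him with h | h
      · exact h
      · exfalso
        have h1 := hmm i hi
        have h2 : (univ.filter fun b => r b m) ⊂ (univ.filter fun b => r b i) := by
          rw [Finset.ssubset_iff_of_subset]
          · exact ⟨m, by simp [h], by simp [hirr]⟩
          · intro b hb
            simp only [Finset.mem_filter, Finset.mem_univ, true_and] at hb ⊢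
            exact htrans _ _ _ hb h
        exact absurd h1 (not_le.mpr (Finset.card_lt_card h2))
    obtain ⟨m, hm, hmm⟩ := hmax
    have hbelow : (univ.filter fun b => r b m) = S.erase m := by
      ext b
      simp only [Finset.mem_filter, Finset.mem_univ, true_and, Finset.mem_erase]
      constructor
      · intro h
        exact ⟨fun h' => hirr m (h' ▸ h), hS b m h hm⟩
      · rintro ⟨h1, h2⟩
        exact hmm b h2 h1
    have h1 := ih (S.erase m) (by
      intro i j hij hj
      rw [Finset.mem_erase] at hj ⊢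
      refine ⟨?_, hS i j hij hj.2⟩
      rintro rfl
      exact hirr _ (htrans _ _ _ hij (hmm j hj.2 hj.1))) (by
      rw [Finset.card_erase_of_mem hm]; omega)
    have h2 := av_insert (Finset.notMem_erase m S) f w
    rw [Finset.insert_erase hm] at h2
    rw [h2, h1, ← Finset.add_sum_erase S _ hm, hbelow]
    ring

end chain

namespace Dat

variable {V : Type*} [LinearOrder V] [Fintype V] {rho : V → V → ℕ}

/-- the coefficients of a function -/
noncomputable def ofFun (rho : V → V → ℕ) (G : (V → Bool) → ℝ) : Dat rho where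
  al0 := ex G
  al := fun x => ex (fun w => chi x w * G w)
  c := fun x a => if a < x then av (FF rho x a) (fun w => chi a w * (chi x w * G w)) else fun _ => 0
  hc0 := fun x a h => by simp [h]
  hc := fun x a => by
    split_ifs
    · exact av_dep _ _
    · exact Dep.const 0 _

theorem ofFun_f (G : (V → Bool) → ℝ) (x : V) :
    (ofFun rho G).f x = av (lo x) (fun w => chi x w * G w) := by
  funext w
  have h1 := chain_expand (fun i j : V => (i < x ∧ j < x ∧ lt2 rho x i j) ∨ (i < x ∧ ¬ j < x) ∨
      (¬ i < x ∧ ¬ j < x ∧ i < j))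
    (by
      intro i j hij
      by_cases hi : i < x <;> by_cases hj : j < x
      · rcases lt2_tri (rho := rho) (x := x) hij with h | h
        · exact Or.inl (Or.inl ⟨hi, hj, h⟩)
        · exact Or.inr (Or.inl ⟨hj, hi, h⟩)
      · exact Or.inl (Or.inr (Or.inl ⟨hi, hj⟩))
      · exact Or.inr (Or.inr (Or.inl ⟨hj, hi⟩))
      · rcases lt_or_gt_of_ne hij with h | h
        · exact Or.inl (Or.inr (Or.inr ⟨hi, hj, h⟩))
        · exact Or.inr (Or.inr (Or.inr ⟨hj, hi, h⟩)))
    (by
      rintro i (⟨_, _, h⟩ | ⟨h1, h2⟩ | ⟨_, _, h⟩)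
      · exact lt2_irrefl _ _ h
      · exact h2 h1
      · exact lt_irrefl _ h)
    (by
      rintro i j k (⟨h1, h2, h3⟩ | ⟨h1, h2⟩ | ⟨h1, h2, h3⟩) (⟨g1, g2, g3⟩ | ⟨g1, g2⟩ | ⟨g1, g2, g3⟩)
      · exact Or.inl ⟨h1, g2, lt2_trans h3 g3⟩
      · exact Or.inr (Or.inl ⟨h1, g2⟩)
      · exact absurd h2 g1
      · exact absurd g1 h2
      · exact absurd g1 h2
      · exact Or.inr (Or.inl ⟨h1, g2⟩)
      · exact absurd g1 h2
      · exact absurd g1 h2
      · exact Or.inr (Or.inr ⟨h1, g2, h3.trans g3⟩))
    (fun w => chi x w * G w) (lo x)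
    (by
      rintro i j (⟨h1, _, _⟩ | ⟨h1, _⟩ | ⟨_, h2, _⟩) hj
      · exact mem_lo.mpr h1
      · exact mem_lo.mpr h1
      · exact absurd (mem_lo.mp hj) h2) w
  rw [h1]
  unfold f ofFun
  simp only
  congr 1
  have h2 : ∑ a, chi a w * (if a < x then av (FF rho x a) (fun w => chi a w * (chi x w * G w))
      else fun _ => 0) w
      = ∑ a ∈ lo x, chi a w * av (FF rho x a) (fun w => chi a w * (chi x w * G w)) w := by
    unfold lo
    rw [Finset.sum_filter]
    refine Finset.sum_congr rfl fun a _ => ?_
    split_ifs <;> simp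
  rw [h2]
  refine Finset.sum_congr rfl fun a ha => ?_
  congr 2
  congr 1
  ext b
  rw [mem_lo] at ha
  simp only [mem_FF, Finset.mem_filter, Finset.mem_univ, true_and]
  constructor
  · rintro ⟨h1, h2⟩
    exact Or.inl ⟨h1, ha, h2⟩
  · rintro (⟨h1, _, h2⟩ | ⟨_, h2⟩ | ⟨_, h2, _⟩)
    · exact ⟨h1, h2⟩
    · exact absurd ha h2
    · exact absurd ha h2

theorem ofFun_F (G : (V → Bool) → ℝ) : (ofFun rho G).F = G := by
  funext w
  have h1 := chain_expand (fun i j : V => i < j) (fun i j h => lt_or_gt_of_ne h)
    (fun i => lt_irrefl i) (fun i j k h1 h2 => h1.trans h2) G univ (fun _ _ _ _ => Finset.mem_univ _) w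
  rw [av_univ] at h1
  rw [h1]
  unfold F
  congr 1
  refine Finset.sum_congr rfl fun x _ => ?_
  rw [ofFun_f]
  rfl

/-- Parseval -/
theorem parseval (d g : Dat rho) :
    ex (fun w => d.F w * g.F w) = d.al0 * g.al0 + ∑ x, (d.al x * g.al x
      + ∑ a, ex (fun w => d.c x a w * g.c x a w)) := by
  -- natural order
  have step : ∀ (r : V → V → Prop) [DecidableRel r], (∀ i j, i ≠ j → r i j ∨ r j i) →
      ∀ (u v : V → (V → Bool) → ℝ) (al be : ℝ),
      (∀ x, Ind (u x) x) → (∀ x, Ind (v x) x) →
      (∀ x y, r x y → Ind (u x) y) → (∀ x y, r x y → Ind (v x) y) →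
      ex (fun w => (al + ∑ x, chi x w * u x w) * (be + ∑ x, chi x w * v x w))
        = al * be + ∑ x, ex (fun w => u x w * v x w) := by
    intro r _ htri u v al be hu hv hur hvr
    have e1 : (fun w : V → Bool => (al + ∑ x, chi x w * u x w) * (be + ∑ x, chi x w * v x w))
        = fun w => (al * be + al * ∑ x, chi x w * v x w) + (be * ∑ x, chi x w * u x w
          + (∑ x, chi x w * u x w) * (∑ x, chi x w * v x w)) := by
      funext w; ring
    rw [e1, ex_add, ex_add, ex_add, ex_const, ex_smul, ex_smul,
      ex_sum univ (fun x w => chi x w * v x w), ex_sum univ (fun x w => chi x w * u x w),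
      ex_sum_mul_sum univ (fun x w => chi x w * u x w) (fun x w => chi x w * v x w)]
    rw [Finset.sum_eq_zero (fun x _ => ex_chi_mul (hv x)),
      Finset.sum_eq_zero (fun x _ => ex_chi_mul (hu x))]
    have e2 : ∑ x, ∑ y, ex (fun w => chi x w * u x w * (chi y w * v y w))
        = ∑ x, ex (fun w => u x w * v x w) := by
      refine Finset.sum_congr rfl fun x _ => ?_
      rw [Finset.sum_eq_single x]
      · congr 1; funext w
        linear_combination (u x w * v x w) * chi_sq x w
      · intro y _ hyx
        rcases htri x y (Ne.symm hyx) with h | h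
        · have e3 : (fun w => chi x w * u x w * (chi y w * v y w))
              = fun w => chi y w * ((chi x w * u x w) * v y w) := by funext w; ring
          rw [e3]
          exact ex_chi_mul (((chi_ind (Ne.symm hyx)).mul (hur x y h)).mul (hv y))
        · have e3 : (fun w => chi x w * u x w * (chi y w * v y w))
              = fun w => chi x w * (u x w * (chi y w * v y w)) := by funext w; ring
          rw [e3]
          exact ex_chi_mul ((hu x).mul ((chi_ind hyx).mul (hvr y x h)))
      · intro h; exact absurd (Finset.mem_univ _) h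
    rw [e2]; ring
  have h1 := step (fun i j => i < j) (fun i j h => lt_or_gt_of_ne h) d.f g.f d.al0 g.al0
    (fun x => d.f_ind le_rfl) (fun x => g.f_ind le_rfl) (fun x y h => d.f_ind h.le)
    (fun x y h => g.f_ind h.le)
  have h2 : ∀ x, ex (fun w => d.f x w * g.f x w) = d.al x * g.al x
      + ∑ a, ex (fun w => d.c x a w * g.c x a w) := by
    intro x
    exact step (fun i j => lt2 rho x i j) (fun i j h => lt2_tri h) (d.c x) (g.c x) (d.al x) (g.al x)
      (fun a => (d.hc x a).ind not_mem_FF) (fun a => (g.hc x a).ind not_mem_FF)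
      (fun a b h => (d.hc x a).ind fun h' => lt2_asymm h (mem_FF.mp h').2)
      (fun a b h => (g.hc x a).ind fun h' => lt2_asymm h (mem_FF.mp h').2)
  unfold F
  rw [h1]
  congr 1
  exact Finset.sum_congr rfl fun x _ => h2 x

/-- a multiplier applied to the coefficients -/
noncomputable def mulBy (m0 : ℝ) (m1 : V → ℝ) (m2 : V → V → (V → Bool) → ℝ)
    (hm : ∀ x a, Dep (m2 x a) (FF rho x a)) (g : Dat rho) : Dat rho where
  al0 := m0 * g.al0
  al := fun x => m1 x * g.al x
  c := fun x a w => m2 x a w * g.c x a w
  hc0 := fun x a h => by funext w; rw [g.hc0 x a h, mul_zero]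
  hc := fun x a => (hm x a).mul (g.hc x a)

end Dat

theorem holder_ex {V : Type*} [Fintype V] [DecidableEq V] {p q : ℝ} (hpq : p.HolderConjugate q)
    (f g : (V → Bool) → ℝ) :
    ex (fun w => f w * g w) ≤ (ex (fun w => |f w| ^ p)) ^ (1 / p) * (ex (fun w => |g w| ^ q)) ^ (1 / q) := by
  have h := Real.inner_le_Lp_mul_Lq (univ : Finset (V → Bool)) f g hpq
  have hc := card_pos' (V := V)
  set c : ℝ := (Fintype.card (V → Bool) : ℝ)⁻¹ with hcdef
  have hc0 : 0 < c := inv_pos.mpr hc
  have hs1 : 0 ≤ ∑ w : V → Bool, |f w| ^ p := Finset.sum_nonneg fun _ _ => by positivity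
  have hs2 : 0 ≤ ∑ w : V → Bool, |g w| ^ q := Finset.sum_nonneg fun _ _ => by positivity
  unfold ex
  rw [Real.mul_rpow hc0.le hs1, Real.mul_rpow hc0.le hs2]
  have h1 : c ^ (1 / p) * c ^ (1 / q) = c := by
    rw [← Real.rpow_add hc0]
    have : 1 / p + 1 / q = 1 := by
      have := hpq.inv_add_inv_eq_one
      simpa [one_div] using this
    rw [this, Real.rpow_one]
  calc c * ∑ w, f w * g w ≤ c * ((∑ w, |f w| ^ p) ^ (1 / p) * (∑ w, |g w| ^ q) ^ (1 / q)) :=
        mul_le_mul_of_nonneg_left h hc0.le
    _ = (c ^ (1 / p) * c ^ (1 / q)) * ((∑ w, |f w| ^ p) ^ (1 / p) * (∑ w, |g w| ^ q) ^ (1 / q)) := by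
        rw [h1]
    _ = _ := by ring

/-- duality of the multiplier inequality -/
theorem dual_ineq {V : Type*} [LinearOrder V] [Fintype V] {rho : V → V → ℕ} {p q C : ℝ}
    (hpq : p.HolderConjugate q) (hC : 0 < C)
    (hcore : ∀ d d' : Dat rho, |d'.al0| ≤ |d.al0| → (∀ x, |d'.al x| ≤ |d.al x|) →
      (∀ x a w, |d'.c x a w| ≤ |d.c x a w|) →
        ex (fun w => |d'.F w| ^ q) ≤ C * ex (fun w => |d.F w| ^ q))
    (d d' : Dat rho) (h0 : |d'.al0| ≤ |d.al0|) (h1 : ∀ x, |d'.al x| ≤ |d.al x|)
    (h2 : ∀ x a w, |d'.c x a w| ≤ |d.c x a w|) :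
    ex (fun w => |d'.F w| ^ p) ≤ C ^ (p / q) * ex (fun w => |d.F w| ^ p) := by
  classical
  have hp0 : 0 < p := hpq.pos
  have hq0 : 0 < q := hpq.symm.pos
  -- the multiplier
  have hdiv : ∀ s t : ℝ, |s| ≤ |t| → |s / t| ≤ 1 ∧ (s / t) * t = s := by
    intro s t hst
    by_cases ht : t = 0
    · subst ht
      have : s = 0 := by simpa using hst
      subst this; simp
    · refine ⟨?_, div_mul_cancel₀ s ht⟩
      rw [abs_div, div_le_one (abs_pos.mpr ht)]
      exact hst
  have hm2 : ∀ x a, Dep (fun w => d'.c x a w / d.c x a w) (FF rho x a) := by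
    intro x a w w' hw
    simp only [d'.hc x a w w' hw, d.hc x a w w' hw]
  set G : (V → Bool) → ℝ := fun w => (SignType.sign (d'.F w) : ℝ) * |d'.F w| ^ (p - 1) with hG
  set g := Dat.ofFun rho G with hg
  set g' := Dat.mulBy (d'.al0 / d.al0) (fun x => d'.al x / d.al x)
    (fun x a w => d'.c x a w / d.c x a w) hm2 g with hg'
  have hgF : g.F = G := Dat.ofFun_F G
  -- adjoint
  have hadj : ex (fun w => d'.F w * g.F w) = ex (fun w => d.F w * g'.F w) := by
    rw [Dat.parseval, Dat.parseval]
    congr 1
    · simp only [hg', Dat.mulBy]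
      have := (hdiv _ _ h0).2
      linear_combination (-g.al0) * this
    · refine Finset.sum_congr rfl fun x _ => ?_
      congr 1
      · simp only [hg', Dat.mulBy]
        have := (hdiv _ _ (h1 x)).2
        linear_combination (-g.al x) * this
      · refine Finset.sum_congr rfl fun a _ => ?_
        congr 1; funext w
        simp only [hg', Dat.mulBy]
        have := (hdiv _ _ (h2 x a w)).2
        linear_combination (-g.c x a w) * this
  -- left side
  have hL : ex (fun w => d'.F w * g.F w) = ex (fun w => |d'.F w| ^ p) := by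
    congr 1; funext w
    rw [hgF]
    simp only [hG]
    have e1 : d'.F w * ((SignType.sign (d'.F w) : ℝ) * |d'.F w| ^ (p - 1))
        = |d'.F w| * |d'.F w| ^ (p - 1) := by
      rw [← mul_assoc, self_mul_sign]
    rw [e1]
    by_cases hz : d'.F w = 0
    · rw [hz, abs_zero, Real.zero_rpow hp0.ne', zero_mul]
    · have : 0 < |d'.F w| := abs_pos.mpr hz
      calc |d'.F w| * |d'.F w| ^ (p - 1) = |d'.F w| ^ (1 : ℝ) * |d'.F w| ^ (p - 1) := by
            rw [Real.rpow_one]
        _ = |d'.F w| ^ p := by rw [← Real.rpow_add this]; congr 1; ring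
  have hGq : ex (fun w => |G w| ^ q) = ex (fun w => |d'.F w| ^ p) := by
    congr 1; funext w
    simp only [hG]
    by_cases hz : d'.F w = 0
    · rw [hz]
      simp only [sign_zero, SignType.coe_zero, zero_mul, abs_zero]
      rw [Real.zero_rpow hq0.ne', Real.zero_rpow hp0.ne']
    · have hpos : 0 < |d'.F w| := abs_pos.mpr hz
      have e1 : |(SignType.sign (d'.F w) : ℝ) * |d'.F w| ^ (p - 1)| = |d'.F w| ^ (p - 1) := by
        rw [abs_mul, abs_of_nonneg (Real.rpow_nonneg hpos.le _)]
        have : |(SignType.sign (d'.F w) : ℝ)| = 1 := by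
          rcases lt_or_gt_of_ne hz with h | h
          · rw [sign_neg h]; simp
          · rw [sign_pos h]; simp
        rw [this, one_mul]
      rw [e1, ← Real.rpow_mul hpos.le, hpq.sub_one_mul_conj]
  have hg'q : ex (fun w => |g'.F w| ^ q) ≤ C * ex (fun w => |G w| ^ q) := by
    have := hcore g g' ?_ ?_ ?_
    · rw [hgF] at this
      exact this
    · simp only [hg', Dat.mulBy, abs_mul]
      exact mul_le_of_le_one_left (abs_nonneg _) (hdiv _ _ h0).1
    · intro x
      simp only [hg', Dat.mulBy, abs_mul]
      exact mul_le_of_le_one_left (abs_nonneg _) (hdiv _ _ (h1 x)).1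
    · intro x a w
      simp only [hg', Dat.mulBy, abs_mul]
      exact mul_le_of_le_one_left (abs_nonneg _) (hdiv _ _ (h2 x a w)).1
  set X := ex (fun w => |d'.F w| ^ p) with hX
  set Y := ex (fun w => |d.F w| ^ p) with hY
  have hX0 : 0 ≤ X := ex_nonneg fun w => by positivity
  have hY0 : 0 ≤ Y := ex_nonneg fun w => by positivity
  have hmain : X ≤ Y ^ (1 / p) * (C * X) ^ (1 / q) := by
    calc X = ex (fun w => d.F w * g'.F w) := by rw [← hadj, hL]
      _ ≤ Y ^ (1 / p) * (ex (fun w => |g'.F w| ^ q)) ^ (1 / q) := holder_ex hpq _ _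
      _ ≤ Y ^ (1 / p) * (C * X) ^ (1 / q) := by
          refine mul_le_mul_of_nonneg_left ?_ (Real.rpow_nonneg hY0 _)
          refine Real.rpow_le_rpow (ex_nonneg fun w => by positivity) ?_ (by positivity)
          rw [← hGq]
          exact hg'q
  rcases hX0.eq_or_lt with h | hXpos
  · rw [← h]
    positivity
  · -- divide by X^(1/q)
    rw [Real.mul_rpow hC.le hX0] at hmain
    have hXq : 0 < X ^ (1 / q) := Real.rpow_pos_of_pos hXpos _
    have hsplit : X = X ^ (1 / p) * X ^ (1 / q) := by
      rw [← Real.rpow_add hXpos]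
      have : 1 / p + 1 / q = 1 := by
        have := hpq.inv_add_inv_eq_one
        simpa [one_div] using this
      rw [this, Real.rpow_one]
    have h5 : X ^ (1 / p) ≤ Y ^ (1 / p) * C ^ (1 / q) := by
      have h6 : X ^ (1 / p) * X ^ (1 / q) ≤ (Y ^ (1 / p) * C ^ (1 / q)) * X ^ (1 / q) := by
        rw [← hsplit]; linarith
      exact le_of_mul_le_mul_right h6 hXq
    have h7 := Real.rpow_le_rpow (Real.rpow_nonneg hX0 _) h5 hp0.le
    rw [← Real.rpow_mul hX0, Real.mul_rpow (Real.rpow_nonneg hY0 _) (Real.rpow_nonneg hC.le _),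
      ← Real.rpow_mul hY0, ← Real.rpow_mul hC.le, one_div_mul_cancel hp0.ne', Real.rpow_one,
      Real.rpow_one] at h7
    have h8 : 1 / q * p = p / q := by ring
    rw [h8] at h7
    linarith

end H60Unc
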