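import Pool.Agent.Helper60.Unc.Stein
import Pool.Agent.Helper60.Unc.Comb

/-!
The finite inequality for the fourth power.
-/

namespace H60Unc

open Finset

section algebra

theorem sq_sum_tri {V : Type*} [Fintype V] [DecidableEq V] (r : V → V → Prop) [DecidableRel r]
    (htri : ∀ i j, i ≠ j → r i j ∨ r j i) (hasym : ∀ i j, r i j → ¬ r j i)
    (al : ℝ) (y : V → ℝ) :
    (al + ∑ i, y i) ^ 2 = al ^ 2 + ∑ i, y i ^ 2
      + 2 * ∑ i, y i * (al + ∑ j ∈ univ.filter (fun j => r j i), y j) := by
  have h1 : (∑ i, y i) * (∑ i, y i) = ∑ i, y i ^ 2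
      + 2 * ∑ i, y i * ∑ j ∈ univ.filter (fun j => r j i), y j := by
    rw [Finset.sum_mul_sum]
    have h2 : ∀ i j, y i * y j = (if i = j then y i * y j else 0)
        + (if r j i then y i * y j else 0) + (if r i j then y i * y j else 0) := by
      intro i j
      by_cases hij : i = j
      · subst hij
        have : ¬ r i i := fun h => hasym i i h h
        simp [this]
      · rcases htri i j hij with h | h
        · have := hasym i j h
          simp [hij, h, this]
        · have := hasym j i h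
          simp [hij, h, this]
    have h3 : ∑ i, ∑ j, y i * y j = ∑ i, ∑ j, (if i = j then y i * y j else 0)
        + ∑ i, ∑ j, (if r j i then y i * y j else 0)
        + ∑ i, ∑ j, (if r i j then y i * y j else 0) := by
      rw [← Finset.sum_add_distrib, ← Finset.sum_add_distrib]
      refine Finset.sum_congr rfl fun i _ => ?_
      rw [← Finset.sum_add_distrib, ← Finset.sum_add_distrib]
      exact Finset.sum_congr rfl fun j _ => h2 i j
    have h4 : ∑ i, ∑ j, (if i = j then y i * y j else 0) = ∑ i, y i ^ 2 := by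
      refine Finset.sum_congr rfl fun i _ => ?_
      simp [sq]
    have h5 : ∑ i, ∑ j, (if r j i then y i * y j else 0)
        = ∑ i, y i * ∑ j ∈ univ.filter (fun j => r j i), y j := by
      refine Finset.sum_congr rfl fun i _ => ?_
      rw [Finset.mul_sum, Finset.sum_filter]
    have h6 : ∑ i, ∑ j, (if r i j then y i * y j else 0)
        = ∑ i, y i * ∑ j ∈ univ.filter (fun j => r j i), y j := by
      rw [Finset.sum_comm, ← h5]
      refine Finset.sum_congr rfl fun i _ => Finset.sum_congr rfl fun j _ => ?_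
      split_ifs <;> ring
    rw [h3, h4, h5, h6]; ring
  have h7 : ∑ i, y i * (al + ∑ j ∈ univ.filter (fun j => r j i), y j)
      = al * ∑ i, y i + ∑ i, y i * ∑ j ∈ univ.filter (fun j => r j i), y j := by
    rw [Finset.mul_sum, ← Finset.sum_add_distrib]
    refine Finset.sum_congr rfl fun i _ => ?_
    ring
  rw [h7]
  linear_combination h1

variable {V : Type*} [Fintype V] [DecidableEq V]

theorem ex_sq_sum_orth {J : Type*} (s : Finset J) (f : J → (V → Bool) → ℝ)
    (h : ∀ i ∈ s, ∀ j ∈ s, i ≠ j → ex (fun w => f i w * f j w) = 0) :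
    ex (fun w => (∑ i ∈ s, f i w) ^ 2) = ∑ i ∈ s, ex (fun w => f i w ^ 2) := by
  classical
  have e0 : (fun w => (∑ i ∈ s, f i w) ^ 2)
      = fun w => (∑ i ∈ s, f i w) * (∑ i ∈ s, f i w) := by
    funext w; ring
  rw [e0, ex_sum_mul_sum]
  refine Finset.sum_congr rfl fun i hi => ?_
  rw [Finset.sum_eq_single i]
  · congr 1; funext w; ring
  · intro j hj hji
    exact h i hi j hj (Ne.symm hji)
  · intro h'; exact absurd hi h'

theorem compare_of {K : ℝ} {X Y : (V → Bool) → ℝ}
    (h : ex (fun w => (X w - Y w) ^ 2) ≤ K * ex (fun w => X w * Y w)) :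
    ex (fun w => X w ^ 2) ≤ (4 + 4 * K ^ 2) * ex (fun w => Y w ^ 2) := by
  have h1 : ex (fun w => X w ^ 2) ≤ 2 * ex (fun w => Y w ^ 2)
      + 2 * ex (fun w => (X w - Y w) ^ 2) := by
    rw [← ex_smul, ← ex_smul, ← ex_add]
    refine ex_mono fun w => ?_
    nlinarith [sq_nonneg (X w - 2 * Y w)]
  have h2 : 2 * (K * ex (fun w => X w * Y w)) ≤ (1 / 2) * ex (fun w => X w ^ 2)
      + (2 * K ^ 2) * ex (fun w => Y w ^ 2) := by
    rw [← ex_smul, ← ex_smul, ← ex_smul, ← ex_smul, ← ex_add]
    refine ex_mono fun w => ?_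
    nlinarith [sq_nonneg (X w - 2 * K * Y w)]
  linarith

end algebra

section main

variable {V : Type*} [LinearOrder V] [Fintype V]

/-- the data of a finite combination of the system -/
structure Dat (rho : V → V → ℕ) where
  al0 : ℝ
  al : V → ℝ
  c : V → V → (V → Bool) → ℝ
  hc0 : ∀ x a, ¬ a < x → c x a = fun _ => 0
  hc : ∀ x a, Dep (c x a) (FF rho x a)

namespace Dat

variable {rho : V → V → ℕ} (d : Dat rho)

/-- coordinates below `x` -/
def lo (x : V) : Finset V := univ.filter (· < x)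

theorem mem_lo {x u : V} : u ∈ lo x ↔ u < x := by simp [lo]

theorem FF_sub_lo (x a : V) : FF rho x a ⊆ lo x := fun u hu => by
  rw [mem_lo]; exact (mem_FF.mp hu).1

def f (x : V) (w : V → Bool) : ℝ := d.al x + ∑ a, chi a w * d.c x a w

def fl (x a : V) (w : V → Bool) : ℝ :=
  d.al x + ∑ b ∈ univ.filter (fun b => lt2 rho x b a), chi b w * d.c x b w

def F (w : V → Bool) : ℝ := d.al0 + ∑ x, chi x w * d.f x w

def M (x : V) (w : V → Bool) : ℝ :=
  d.al0 + ∑ y ∈ univ.filter (fun y => y < x), chi y w * d.f y w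

def H (w : V → Bool) : ℝ := d.al0 ^ 2 + ∑ x, d.f x w ^ 2

def S (w : V → Bool) : ℝ :=
  d.al0 ^ 2 + ∑ x, (d.al x ^ 2 + ∑ a, d.c x a w ^ 2)

theorem chi_c_dep (x b : V) {A : Finset V} (h1 : b < x → b ∈ A) (h2 : b < x → FF rho x b ⊆ A) :
    Dep (fun w => chi b w * d.c x b w) A := by
  by_cases hb : b < x
  · exact (chi_dep (h1 hb)).mul ((d.hc x b).mono (h2 hb))
  · rw [d.hc0 x b hb]
    simp only [mul_zero]
    exact Dep.const 0 A

theorem f_dep (x : V) : Dep (d.f x) (lo x) := by
  refine (Dep.const (d.al x) _).add (Dep.sum fun a _ => ?_)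
  exact d.chi_c_dep x a (fun h => mem_lo.mpr h) (fun _ => FF_sub_lo x a)

theorem f_ind {x y : V} (h : x ≤ y) : Ind (d.f x) y :=
  (d.f_dep x).ind (by rw [mem_lo]; exact not_lt.mpr h)

theorem chi_f_dep {x y : V} (h : y < x) : Dep (fun w => chi y w * d.f y w) (lo x) :=
  (chi_dep (mem_lo.mpr h)).mul ((d.f_dep y).mono fun u hu => by
    rw [mem_lo] at hu ⊢; exact hu.trans h)

theorem M_dep (x : V) : Dep (d.M x) (lo x) := by
  refine (Dep.const d.al0 _).add (Dep.sum fun y hy => ?_)
  exact d.chi_f_dep (by simpa using hy)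

theorem M_eq (x : V) : d.M x = av (lo x) d.F := by
  have h1 : av (lo x) d.F = fun w => av (lo x) (fun _ => d.al0) w
      + av (lo x) (fun w => ∑ y, chi y w * d.f y w) w := by
    rw [← av_add]; rfl
  rw [h1, av_of_dep (Dep.const d.al0 _), av_sum]
  funext w
  unfold M
  congr 1
  rw [Finset.sum_filter]
  refine Finset.sum_congr rfl fun y _ => ?_
  split_ifs with h
  · rw [av_of_dep (d.chi_f_dep h)]
  · rw [av_chi_mul (d.f_ind le_rfl) (by rw [mem_lo]; exact h)]

theorem F_sq (w : V → Bool) :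
    d.F w ^ 2 = d.H w + 2 * ∑ x, (chi x w * d.f x w) * d.M x w := by
  have h := sq_sum_tri (fun i j : V => i < j) (fun i j hij => lt_or_gt_of_ne hij)
    (fun i j h => lt_asymm h) d.al0 (fun x => chi x w * d.f x w)
  unfold F H M
  rw [h]
  congr 2
  refine Finset.sum_congr rfl fun x _ => ?_
  rw [mul_pow, sq (chi x w), chi_sq, one_mul]

theorem step1 : ex (fun w => (d.F w ^ 2 - d.H w) ^ 2) ≤ 4 * ex (fun w => d.F w ^ 2 * d.H w) := by
  have e1 : (fun w => (d.F w ^ 2 - d.H w) ^ 2)
      = fun w => 4 * (∑ x, (chi x w * d.f x w) * d.M x w) ^ 2 := by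
    funext w; rw [d.F_sq]; ring
  rw [e1, ex_smul]
  refine mul_le_mul_of_nonneg_left ?_ (by norm_num)
  rw [ex_sq_sum_orth univ (fun x w => (chi x w * d.f x w) * d.M x w)]
  · have e2 : ∀ x, ex (fun w => ((chi x w * d.f x w) * d.M x w) ^ 2)
        ≤ ex (fun w => d.f x w ^ 2 * d.F w ^ 2) := by
      intro x
      have h1 : ex (fun w => ((chi x w * d.f x w) * d.M x w) ^ 2)
          ≤ ex (fun w => d.f x w ^ 2 * av (lo x) (fun w => d.F w ^ 2) w) := by
        refine ex_mono fun w => ?_
        have h2 : ((chi x w * d.f x w) * d.M x w) ^ 2 = d.f x w ^ 2 * d.M x w ^ 2 := by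
          have := chi_sq x w
          calc ((chi x w * d.f x w) * d.M x w) ^ 2
              = (chi x w * chi x w) * (d.f x w ^ 2 * d.M x w ^ 2) := by ring
            _ = _ := by rw [this, one_mul]
        rw [h2, d.M_eq]
        exact mul_le_mul_of_nonneg_left (av_sq_le _ _ _) (sq_nonneg _)
      refine h1.trans (le_of_eq ?_)
      rw [← ex_av_mul]
      congr 1; funext w
      rw [av_of_dep]
      have := (d.f_dep x).mul (d.f_dep x)
      intro w w' hw
      have := this w w' hw
      simp only [sq]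
      exact this
    calc ∑ x, ex (fun w => ((chi x w * d.f x w) * d.M x w) ^ 2)
        ≤ ∑ x, ex (fun w => d.f x w ^ 2 * d.F w ^ 2) := Finset.sum_le_sum fun x _ => e2 x
      _ = ex (fun w => ∑ x, d.f x w ^ 2 * d.F w ^ 2) := by rw [ex_sum]
      _ ≤ _ := by
        refine ex_mono fun w => ?_
        rw [← Finset.sum_mul]
        unfold H
        nlinarith [sq_nonneg d.al0, sq_nonneg (d.F w), mul_nonneg (sq_nonneg d.al0) (sq_nonneg (d.F w))]
  · have key : ∀ x y : V, x < y →
        ex (fun w => (chi x w * d.f x w * d.M x w) * (chi y w * d.f y w * d.M y w)) = 0 := by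
      intro x y hxy
      have h1 : (fun w => (chi x w * d.f x w * d.M x w) * (chi y w * d.f y w * d.M y w))
          = fun w => chi y w * ((chi x w * d.f x w) * (d.M x w * (d.f y w * d.M y w))) := by
        funext w; ring
      rw [h1]
      apply ex_chi_mul
      refine Dep.ind (A := lo y) ?_ (by rw [mem_lo]; exact lt_irrefl _)
      refine (d.chi_f_dep hxy).mul (((d.M_dep x).mono ?_).mul ((d.f_dep y).mul (d.M_dep y)))
      intro u hu
      rw [mem_lo] at hu ⊢
      exact hu.trans hxy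
    intro x _ y _ hxy
    rcases lt_or_gt_of_ne hxy with h | h
    · exact key x y h
    · have := key y x h
      rw [← this]
      congr 1; funext w; ring

theorem f_sq (x : V) (w : V → Bool) :
    d.f x w ^ 2 = d.al x ^ 2 + ∑ a, d.c x a w ^ 2
      + 2 * ∑ a, chi a w * (d.c x a w * d.fl x a w) := by
  have h := sq_sum_tri (fun i j : V => lt2 rho x i j) (fun i j hij => lt2_tri hij)
    (fun i j h => lt2_asymm h) (d.al x) (fun a => chi a w * d.c x a w)
  have e1 : ∑ a, (chi a w * d.c x a w) ^ 2 = ∑ a, d.c x a w ^ 2 :=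
    Finset.sum_congr rfl fun a _ => by rw [mul_pow, sq (chi a w), chi_sq, one_mul]
  unfold f fl
  rw [h, e1]
  simp only [mul_assoc]

theorem fl_eq (x a : V) : d.fl x a = av (FF rho x a) (d.f x) := by
  have h1 : av (FF rho x a) (d.f x) = fun w => av (FF rho x a) (fun _ => d.al x) w
      + av (FF rho x a) (fun w => ∑ b, chi b w * d.c x b w) w := by
    rw [← av_add]; rfl
  rw [h1, av_of_dep (Dep.const (d.al x) _), av_sum]
  funext w
  unfold fl
  congr 1
  rw [Finset.sum_filter]
  refine Finset.sum_congr rfl fun b _ => ?_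
  split_ifs with h
  · rw [av_of_dep]
    exact d.chi_c_dep x b (fun hb => mem_FF.mpr ⟨hb, h⟩) (fun _ => FF_subset h)
  · by_cases hb : b < x
    · rw [av_chi_mul ((d.hc x b).ind not_mem_FF) (fun h' => h (mem_FF.mp h').2)]
    · rw [d.hc0 x b hb]
      simp only [mul_zero]
      rw [av_of_dep (Dep.const 0 _)]

/-- the products -/
def g (x a : V) (w : V → Bool) : ℝ := d.c x a w * d.fl x a w

def G (a : V) (w : V → Bool) : ℝ := ∑ x, d.g x a w

theorem g_eq (x a : V) : d.g x a = av (FF rho x a) (fun w => d.c x a w * d.f x w) := by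
  rw [av_mul_left (d.hc x a), ← d.fl_eq]
  rfl

theorem g_dep (x a : V) : Dep (d.g x a) (FF rho x a) := by
  rw [d.g_eq]; exact av_dep _ _

theorem g_zero {x a : V} (h : ¬ a < x) : d.g x a = fun _ => 0 := by
  funext w
  unfold g
  rw [d.hc0 x a h, zero_mul]

theorem H_eq (w : V → Bool) : d.H w = d.S w + 2 * ∑ a, chi a w * d.G a w := by
  have h1 : ∑ x, d.f x w ^ 2 = ∑ x, (d.al x ^ 2 + ∑ a, d.c x a w ^ 2)
      + 2 * ∑ x, ∑ a, chi a w * (d.c x a w * d.fl x a w) := by
    rw [Finset.mul_sum, ← Finset.sum_add_distrib]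
    exact Finset.sum_congr rfl fun x _ => d.f_sq x w
  unfold H S G g
  rw [h1, Finset.sum_comm]
  have h2 : ∑ a, chi a w * ∑ x, d.c x a w * d.fl x a w
      = ∑ a, ∑ x, chi a w * (d.c x a w * d.fl x a w) :=
    Finset.sum_congr rfl fun a _ => by rw [Finset.mul_sum]
  rw [h2]
  ring

theorem G_bound (hrho : Sub2 rho) (a : V) :
    ex (fun w => d.G a w ^ 2) ≤ 16 * ex (fun w => d.H w * ∑ x, d.c x a w ^ 2) := by
  classical
  have h1 : (fun w => d.G a w ^ 2) = fun w => (∑ x ∈ univ.filter (fun x => a < x),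
      av (LL rho a x ∩ RR rho a x) (fun w => d.c x a w * d.f x w) w) ^ 2 := by
    funext w
    congr 1
    unfold G
    rw [Finset.sum_filter]
    refine Finset.sum_congr rfl fun x _ => ?_
    split_ifs with h
    · rw [LL_inter_RR hrho h, ← d.g_eq]
    · rw [d.g_zero h]
  rw [h1]
  refine (stein_tree _ (LL rho a) (RR rho a) (fun i _ j _ => LL_chain a i j)
    (fun i _ j _ => RR_chain a i j) _).trans ?_
  refine mul_le_mul_of_nonneg_left ?_ (by norm_num)
  refine ex_mono fun w => ?_
  have h2 : ∑ x ∈ univ.filter (fun x => a < x), |d.c x a w * d.f x w|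
      ≤ ∑ x, |d.c x a w| * |d.f x w| := by
    simp only [← abs_mul]
    exact Finset.sum_le_sum_of_subset_of_nonneg (Finset.filter_subset _ _)
      (fun _ _ _ => abs_nonneg _)
  have h3 : (∑ x, |d.c x a w| * |d.f x w|) ^ 2
      ≤ (∑ x, |d.c x a w| ^ 2) * ∑ x, |d.f x w| ^ 2 :=
    Finset.sum_mul_sq_le_sq_mul_sq _ _ _
  simp only [sq_abs] at h3
  have h4 : (∑ x ∈ univ.filter (fun x => a < x), |d.c x a w * d.f x w|) ^ 2
      ≤ (∑ x, |d.c x a w| * |d.f x w|) ^ 2 :=
    pow_le_pow_left₀ (Finset.sum_nonneg fun _ _ => abs_nonneg _) h2 2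
  have h5 : (∑ x, d.c x a w ^ 2) * ∑ x, d.f x w ^ 2 ≤ d.H w * ∑ x, d.c x a w ^ 2 := by
    have h6 : 0 ≤ ∑ x, d.c x a w ^ 2 := Finset.sum_nonneg fun _ _ => sq_nonneg _
    unfold H
    nlinarith [mul_nonneg (sq_nonneg d.al0) h6]
  linarith

theorem H_nonneg (w : V → Bool) : 0 ≤ d.H w :=
  add_nonneg (sq_nonneg _) (Finset.sum_nonneg fun _ _ => sq_nonneg _)

theorem sum_G_bound (hrho : Sub2 rho) :
    ∑ a, ex (fun w => d.G a w ^ 2) ≤ 16 * ex (fun w => d.H w * d.S w) := by
  calc ∑ a, ex (fun w => d.G a w ^ 2)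
      ≤ ∑ a, 16 * ex (fun w => d.H w * ∑ x, d.c x a w ^ 2) :=
        Finset.sum_le_sum fun a _ => d.G_bound hrho a
    _ = 16 * ex (fun w => ∑ a, d.H w * ∑ x, d.c x a w ^ 2) := by
        rw [← Finset.mul_sum, ex_sum univ (fun a w => d.H w * ∑ x, d.c x a w ^ 2)]
    _ ≤ _ := by
        refine mul_le_mul_of_nonneg_left (ex_mono fun w => ?_) (by norm_num)
        rw [← Finset.mul_sum]
        refine mul_le_mul_of_nonneg_left ?_ (d.H_nonneg w)
        rw [Finset.sum_comm]
        unfold S
        rw [Finset.sum_add_distrib]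
        have h1 : 0 ≤ ∑ x, d.al x ^ 2 := Finset.sum_nonneg fun _ _ => sq_nonneg _
        nlinarith [sq_nonneg d.al0]

/-- the low part -/
noncomputable def P (a : V) (w : V → Bool) : ℝ := chi a w * av (lo a) (d.G a) w

/-- the rest -/
noncomputable def R (a : V) (w : V → Bool) : ℝ := chi a w * (d.G a w - av (lo a) (d.G a) w)

theorem P_sq (a : V) : ex (fun w => d.P a w ^ 2) ≤ ex (fun w => d.G a w ^ 2) := by
  have h1 : ∀ w, d.P a w ^ 2 ≤ av (lo a) (fun w => d.G a w ^ 2) w := by
    intro w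
    unfold P
    rw [mul_pow, sq (chi a w), chi_sq, one_mul]
    exact av_sq_le _ _ _
  exact (ex_mono h1).trans (le_of_eq (ex_av _ _))

theorem R_sq (a : V) : ex (fun w => d.R a w ^ 2) ≤ ex (fun w => d.G a w ^ 2) := by
  have h1 : (fun w => d.R a w ^ 2) = fun w => (d.G a w ^ 2 - (2 * (d.G a w * av (lo a) (d.G a) w)
      - av (lo a) (d.G a) w * av (lo a) (d.G a) w)) := by
    funext w
    unfold R
    rw [mul_pow, sq (chi a w), chi_sq, one_mul]
    ring
  have h2 : ex (fun w => av (lo a) (d.G a) w * av (lo a) (d.G a) w)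
      = ex (fun w => d.G a w * av (lo a) (d.G a) w) := by
    rw [ex_av_mul, av_av, Finset.inter_self]
  have h3 : 0 ≤ ex (fun w => av (lo a) (d.G a) w * av (lo a) (d.G a) w) :=
    ex_nonneg fun w => mul_self_nonneg _
  rw [h1, ex_sub, ex_sub, ex_smul]
  linarith

theorem P_orth {a b : V} (hab : a < b) : ex (fun w => d.P a w * d.P b w) = 0 := by
  have h1 : (fun w => d.P a w * d.P b w)
      = fun w => chi b w * ((chi a w * av (lo a) (d.G a) w) * av (lo b) (d.G b) w) := by
    funext w; unfold P; ring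
  rw [h1]
  apply ex_chi_mul
  refine Dep.ind (A := lo b) ?_ (by rw [mem_lo]; exact lt_irrefl _)
  refine ((chi_dep (mem_lo.mpr hab)).mul ((av_dep _ _).mono ?_)).mul (av_dep _ _)
  intro u hu
  rw [mem_lo] at hu ⊢
  exact hu.trans hab

/-- one summand of the rest -/
noncomputable def r (x a : V) (w : V → Bool) : ℝ := d.g x a w - av (lo a) (d.g x a) w

theorem r_dep (x a : V) : Dep (d.r x a) (FF rho x a) := by
  refine (d.g_dep x a).sub ?_
  rw [d.g_eq, av_av]
  exact (av_dep _ _).mono Finset.inter_subset_right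

theorem R_eq (a : V) (w : V → Bool) : d.R a w = ∑ x, chi a w * d.r x a w := by
  unfold R r
  have : av (lo a) (d.G a) w = ∑ x, av (lo a) (d.g x a) w := by
    have h := av_sum (lo a) univ (fun x => d.g x a)
    have h2 := congrFun h w
    exact h2
  rw [this, G, ← Finset.sum_sub_distrib, Finset.mul_sum]

theorem r_orth (hrho : Sub2 rho) {a b x y : V} (hab : a < b) :
    ex (fun w => (chi a w * d.r x a w) * (chi b w * d.r y b w)) = 0 := by
  by_cases hb : b ∈ FF rho x a
  · by_cases ha : a ∈ FF rho y b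
    · have h1 : (fun w => (chi a w * d.r x a w) * (chi b w * d.r y b w))
          = fun w => (chi a w * d.r x a w * chi b w) * d.r y b w := by
        funext w; ring
      set A : Finset V := insert a (FF rho x a) with hA
      have hdep : Dep (fun w => chi a w * d.r x a w * chi b w) A := by
        refine ((chi_dep (by simp [hA])).mul ((d.r_dep x a).mono ?_)).mul (chi_dep ?_)
        · exact Finset.subset_insert _ _
        · exact Finset.mem_insert_of_mem hb
      have h2 : ex (fun w => (chi a w * d.r x a w * chi b w) * d.r y b w)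
          = ex (fun w => (chi a w * d.r x a w * chi b w) * av A (d.r y b) w) := by
        rw [← ex_av_mul, av_of_dep hdep]
      have h3 : av A (d.r y b) = fun _ => 0 := by
        have h4 : av A (d.r y b) = fun w => av A (d.g y b) w - av A (av (lo b) (d.g y b)) w := by
          rw [← av_sub]; rfl
        have h5 : av A (d.g y b) = av A (av (lo b) (d.g y b)) := by
          rw [d.g_eq, av_av, av_av, av_av]
          congr 1
          ext u
          simp only [Finset.mem_inter, mem_lo, hA, Finset.mem_insert, mem_FF]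
          constructor
          · rintro ⟨h6, h7⟩
            refine ⟨⟨h6, ?_⟩, h7⟩
            rcases h6 with h6 | h6
            · rw [h6]; exact hab
            · exact hrho.cross hab (mem_FF.mp hb).2 (mem_FF.mp ha).2 h6.1 h7.1 h6.2 h7.2
          · rintro ⟨⟨h6, _⟩, h7⟩
            exact ⟨h6, h7⟩
        rw [h4, ← h5]
        funext w
        ring
      rw [h1, h2, h3]
      simp only [mul_zero]
      exact ex_const 0
    · have h1 : (fun w => (chi a w * d.r x a w) * (chi b w * d.r y b w))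
          = fun w => chi a w * (d.r x a w * (chi b w * d.r y b w)) := by
        funext w; ring
      rw [h1]
      apply ex_chi_mul
      exact ((d.r_dep x a).ind not_mem_FF).mul ((chi_ind hab.ne').mul ((d.r_dep y b).ind ha))
  · have h1 : (fun w => (chi a w * d.r x a w) * (chi b w * d.r y b w))
        = fun w => chi b w * ((chi a w * d.r x a w) * d.r y b w) := by
      funext w; ring
    rw [h1]
    apply ex_chi_mul
    exact ((chi_ind hab.ne).mul ((d.r_dep x a).ind hb)).mul ((d.r_dep y b).ind not_mem_FF)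

theorem R_orth (hrho : Sub2 rho) {a b : V} (hab : a < b) :
    ex (fun w => d.R a w * d.R b w) = 0 := by
  have h1 : (fun w => d.R a w * d.R b w)
      = fun w => (∑ x, chi a w * d.r x a w) * (∑ x, chi b w * d.r x b w) := by
    funext w; rw [d.R_eq, d.R_eq]
  rw [h1, ex_sum_mul_sum]
  exact Finset.sum_eq_zero fun x _ => Finset.sum_eq_zero fun y _ => d.r_orth hrho hab

theorem step3 (hrho : Sub2 rho) :
    ex (fun w => (∑ a, chi a w * d.G a w) ^ 2) ≤ 4 * ∑ a, ex (fun w => d.G a w ^ 2) := by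
  have h1 : ex (fun w => (∑ a, chi a w * d.G a w) ^ 2)
      ≤ 2 * ex (fun w => (∑ a, d.P a w) ^ 2) + 2 * ex (fun w => (∑ a, d.R a w) ^ 2) := by
    rw [← ex_smul, ← ex_smul, ← ex_add]
    refine ex_mono fun w => ?_
    have h2 : ∑ a, chi a w * d.G a w = ∑ a, d.P a w + ∑ a, d.R a w := by
      rw [← Finset.sum_add_distrib]
      refine Finset.sum_congr rfl fun a _ => ?_
      unfold P R; ring
    rw [h2]
    nlinarith [sq_nonneg (∑ a, d.P a w - ∑ a, d.R a w)]
  have h2 : ex (fun w => (∑ a, d.P a w) ^ 2) = ∑ a, ex (fun w => d.P a w ^ 2) := by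
    refine ex_sq_sum_orth univ _ fun a _ b _ hab => ?_
    rcases lt_or_gt_of_ne hab with h | h
    · exact d.P_orth h
    · rw [← d.P_orth h]; congr 1; funext w; ring
  have h3 : ex (fun w => (∑ a, d.R a w) ^ 2) = ∑ a, ex (fun w => d.R a w ^ 2) := by
    refine ex_sq_sum_orth univ _ fun a _ b _ hab => ?_
    rcases lt_or_gt_of_ne hab with h | h
    · exact d.R_orth hrho h
    · rw [← d.R_orth hrho h]; congr 1; funext w; ring
  have h4 : ∑ a, ex (fun w => d.P a w ^ 2) ≤ ∑ a, ex (fun w => d.G a w ^ 2) :=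
    Finset.sum_le_sum fun a _ => d.P_sq a
  have h5 : ∑ a, ex (fun w => d.R a w ^ 2) ≤ ∑ a, ex (fun w => d.G a w ^ 2) :=
    Finset.sum_le_sum fun a _ => d.R_sq a
  linarith

theorem step2 (hrho : Sub2 rho) :
    ex (fun w => (d.H w - d.S w) ^ 2) ≤ 256 * ex (fun w => d.H w * d.S w) := by
  have h1 : (fun w => (d.H w - d.S w) ^ 2) = fun w => 4 * (∑ a, chi a w * d.G a w) ^ 2 := by
    funext w
    rw [d.H_eq]; ring
  rw [h1, ex_smul]
  have h2 := d.step3 hrho
  have h3 := d.sum_G_bound hrho
  linarith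

theorem F4_le (hrho : Sub2 rho) :
    ex (fun w => d.F w ^ 4) ≤ (68 * 262148) * ex (fun w => d.S w ^ 2) := by
  have h1 := compare_of (K := 4) d.step1
  have h2 := compare_of (K := 256) (d.step2 hrho)
  have e1 : (fun w => (d.F w ^ 2) ^ 2) = fun w => d.F w ^ 4 := by funext w; ring
  rw [e1] at h1
  norm_num at h1 h2 ⊢
  linarith

theorem S2_le (hrho : Sub2 rho) :
    ex (fun w => d.S w ^ 2) ≤ (68 * 262148) * ex (fun w => d.F w ^ 4) := by
  have c1 : ex (fun w => (d.H w - d.F w ^ 2) ^ 2) ≤ 4 * ex (fun w => d.H w * d.F w ^ 2) := by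
    have e1 : (fun w => (d.H w - d.F w ^ 2) ^ 2) = fun w => (d.F w ^ 2 - d.H w) ^ 2 := by
      funext w; ring
    have e2 : (fun w => d.H w * d.F w ^ 2) = fun w => d.F w ^ 2 * d.H w := by
      funext w; ring
    rw [e1, e2]; exact d.step1
  have c2 : ex (fun w => (d.S w - d.H w) ^ 2) ≤ 256 * ex (fun w => d.S w * d.H w) := by
    have e1 : (fun w => (d.S w - d.H w) ^ 2) = fun w => (d.H w - d.S w) ^ 2 := by
      funext w; ring
    have e2 : (fun w => d.S w * d.H w) = fun w => d.H w * d.S w := by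
      funext w; ring
    rw [e1, e2]; exact d.step2 hrho
  have h1 := compare_of (K := 4) c1
  have h2 := compare_of (K := 256) c2
  have e1 : (fun w => (d.F w ^ 2) ^ 2) = fun w => d.F w ^ 4 := by funext w; ring
  rw [e1] at h1
  norm_num at h1 h2 ⊢
  linarith

end Dat

end main

end H60Unc
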