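import Pool.Agent.Helper60.Unc.Avg
import Pool.Agent.Helper60.Unc.Comb

/-!
Cylinders based on the paths of an increasing family of forest orders: correlation, overlap
functions and their moments, greedy selection.
-/

set_option linter.unusedSectionVars false

open Finset H60Unc

namespace H550Unc
noncomputable section

/-- A finite increasing family of forest orders on `V` (levels are natural numbers). -/
structure Lev (V : Type) [LinearOrder V] where
  R : ℕ → V → V → Prop
  refl : ∀ n u, R n u u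
  le : ∀ n u v, R n u v → u ≤ v
  trans : ∀ n u v w, R n u v → R n v w → R n u w
  tree : ∀ n u v w, R n u w → R n v w → u ≤ v → R n u v
  mono : ∀ m n u v, m ≤ n → R m u v → R n u v

variable {V : Type} [LinearOrder V] [Fintype V]

/-- a path of level `n`: a chain for the forest order which is closed downwards -/
def Lev.Path (L : Lev V) (n : ℕ) (A : Finset V) : Prop :=
  (∀ u ∈ A, ∀ v, L.R n v u → v ∈ A) ∧ (∀ u ∈ A, ∀ v ∈ A, u ≤ v → L.R n u v)

/-- the indicator of a cylinder -/
def ci (A : Finset V) (y : V → Bool) (w : V → Bool) : ℝ := if ∀ u ∈ A, w u = y u then 1 else 0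

/-- cylinders based on paths -/
structure Cyl (L : Lev V) where
  n : ℕ
  A : Finset V
  y : V → Bool
  h : L.Path n A

variable {L : Lev V}

/-- the indicator function -/
def Cyl.i (c : Cyl L) (w : V → Bool) : ℝ := ci c.A c.y w

/-- the indicator of the complement of the union of the cylinders of a list -/
def Nn (l : List (Cyl L)) (w : V → Bool) : ℝ := (l.map fun c => 1 - c.i w).prod

/-- the indicator of the intersection of the cylinders of a list -/
def Px (l : List (Cyl L)) (w : V → Bool) : ℝ := (l.map fun c => c.i w).prod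

/-- the probability, given `c`, of the complement of the union of the cylinders of a list -/
def pI (c : Cyl L) (l : List (Cyl L)) : ℝ := ex (fun w => Nn l w * c.i w) / ex c.i

/-- the overlap function of a list (the head of the list is the latest cylinder) -/
def Phi : List (Cyl L) → (V → Bool) → ℝ
  | [], _ => 0
  | c :: l, w => pI c l * c.i w + Phi l w

/-- a list in which every cylinder, when added, still had conditional probability at least `θ`
of being new, and the levels increase towards the head -/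
def Good (θ : ℝ) : List (Cyl L) → Prop
  | [] => True
  | c :: l => θ ≤ pI c l ∧ (∀ c' ∈ l, c'.n ≤ c.n) ∧ Good θ l

theorem ex_mul_indep {f g : (V → Bool) → ℝ} {A B : Finset V} (hf : Dep f A) (hg : Dep g B)
    (h : Disjoint A B) : ex (fun w => f w * g w) = ex f * ex g := by
  rw [← ex_av A]
  rw [av_mul_left hf]
  have h1 : av A g = fun _ => ex g := by
    have h2 : av A (av B g) = av (A ∩ B) g := av_av A B g
    rw [av_of_dep hg, Finset.disjoint_iff_inter_eq_empty.mp h] at h2
    rw [h2]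
    funext w
    simp only [av]
    congr 1
  rw [h1]
  have h3 : (fun w => f w * ex g) = fun w => ex g * f w := by funext w; ring
  rw [h3, ex_smul, mul_comm]

theorem ci_dep (A : Finset V) (y : V → Bool) : Dep (ci A y) A := by
  intro w w' h
  unfold ci
  congr 1
  apply propext
  constructor
  · intro h1 u hu; rw [← h u hu]; exact h1 u hu
  · intro h1 u hu; rw [h u hu]; exact h1 u hu

theorem ci_nonneg (A : Finset V) (y : V → Bool) (w : V → Bool) : 0 ≤ ci A y w := by
  unfold ci; split_ifs <;> norm_num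

theorem ci_le_one (A : Finset V) (y : V → Bool) (w : V → Bool) : ci A y w ≤ 1 := by
  unfold ci; split_ifs <;> norm_num

theorem ex_pos_of {f : (V → Bool) → ℝ} (h : ∀ w, 0 ≤ f w) (w0 : V → Bool) (h0 : 0 < f w0) :
    0 < ex f := by
  unfold ex
  refine mul_pos (inv_pos.mpr card_pos') ?_
  exact Finset.sum_pos' (fun w _ => h w) ⟨w0, Finset.mem_univ _, h0⟩

theorem ex_ci_pos (A : Finset V) (y : V → Bool) : 0 < ex (ci A y) := by
  refine ex_pos_of (ci_nonneg A y) y ?_
  simp [ci]

theorem Cyl.i_nonneg (c : Cyl L) (w : V → Bool) : 0 ≤ c.i w := ci_nonneg _ _ _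
theorem Cyl.i_le_one (c : Cyl L) (w : V → Bool) : c.i w ≤ 1 := ci_le_one _ _ _
theorem Cyl.i_zero_or_one (c : Cyl L) (w : V → Bool) : c.i w = 0 ∨ c.i w = 1 := by
  unfold Cyl.i ci; split_ifs <;> simp
theorem Cyl.i_mul_self (c : Cyl L) (w : V → Bool) : c.i w * c.i w = c.i w := by
  rcases c.i_zero_or_one w with h | h <;> rw [h] <;> norm_num
theorem Cyl.i_pos (c : Cyl L) : 0 < ex c.i := ex_ci_pos _ _

theorem Nn_cons (c : Cyl L) (l : List (Cyl L)) (w : V → Bool) :
    Nn (c :: l) w = (1 - c.i w) * Nn l w := by simp [Nn]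

theorem Nn_nil (w : V → Bool) : Nn ([] : List (Cyl L)) w = 1 := by simp [Nn]

theorem Nn_zero_or_one (l : List (Cyl L)) (w : V → Bool) : Nn l w = 0 ∨ Nn l w = 1 := by
  induction l with
  | nil => right; exact Nn_nil w
  | cons c l ih =>
    rw [Nn_cons]
    rcases c.i_zero_or_one w with h | h
    · rw [h]; simpa using ih
    · rw [h]; simp

theorem Nn_nonneg (l : List (Cyl L)) (w : V → Bool) : 0 ≤ Nn l w := by
  rcases Nn_zero_or_one l w with h | h <;> rw [h]; norm_num

theorem Nn_le_one (l : List (Cyl L)) (w : V → Bool) : Nn l w ≤ 1 := by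
  rcases Nn_zero_or_one l w with h | h <;> rw [h]; norm_num

theorem Nn_cons_le (c : Cyl L) (l : List (Cyl L)) (w : V → Bool) : Nn (c :: l) w ≤ Nn l w := by
  rw [Nn_cons]
  have h1 := c.i_nonneg w
  have h2 := c.i_le_one w
  have h3 := Nn_nonneg l w
  nlinarith

theorem Px_cons (c : Cyl L) (l : List (Cyl L)) (w : V → Bool) :
    Px (c :: l) w = c.i w * Px l w := by simp [Px]

theorem Px_nonneg (l : List (Cyl L)) (w : V → Bool) : 0 ≤ Px l w := by
  induction l with
  | nil => simp [Px]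
  | cons c l ih => rw [Px_cons]; exact mul_nonneg (c.i_nonneg w) ih

theorem pI_nonneg (c : Cyl L) (l : List (Cyl L)) : 0 ≤ pI c l :=
  div_nonneg (ex_nonneg fun w => mul_nonneg (Nn_nonneg l w) (c.i_nonneg w)) c.i_pos.le

theorem pI_le_one (c : Cyl L) (l : List (Cyl L)) : pI c l ≤ 1 := by
  unfold pI
  rw [div_le_one c.i_pos]
  refine ex_mono fun w => ?_
  have h1 := c.i_nonneg w
  have h3 := Nn_le_one l w
  nlinarith

theorem pI_mul (c : Cyl L) (l : List (Cyl L)) :
    pI c l * ex c.i = ex (fun w => Nn l w * c.i w) := by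
  unfold pI
  exact div_mul_cancel₀ _ c.i_pos.ne'

theorem pI_anti (c x : Cyl L) (l : List (Cyl L)) : pI x (c :: l) ≤ pI x l := by
  unfold pI
  refine div_le_div_of_nonneg_right ?_ x.i_pos.le
  refine ex_mono fun w => ?_
  exact mul_le_mul_of_nonneg_right (Nn_cons_le c l w) (x.i_nonneg w)

theorem Phi_nonneg (l : List (Cyl L)) (w : V → Bool) : 0 ≤ Phi l w := by
  induction l with
  | nil => exact le_rfl
  | cons c l ih => exact add_nonneg (mul_nonneg (pI_nonneg c l) (c.i_nonneg w)) ih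

/-- the total mass of the overlap function is the probability of the union -/
theorem ex_Phi (l : List (Cyl L)) : ex (Phi l) = ex (fun w => 1 - Nn l w) := by
  induction l with
  | nil =>
    have h1 : Phi ([] : List (Cyl L)) = fun w => 1 - Nn ([] : List (Cyl L)) w := by
      funext w; rw [Nn_nil]; simp [Phi]
    rw [h1]
  | cons c l ih =>
    have h1 : Phi (c :: l) = fun w => pI c l * c.i w + Phi l w := by funext w; rfl
    have h2 : (fun w => 1 - Nn (c :: l) w)
        = fun w => Nn l w * c.i w + (1 - Nn l w) := by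
      funext w; rw [Nn_cons]; ring
    have h3 : ex (fun w => pI c l * c.i w) = ex (fun w => Nn l w * c.i w) := by
      rw [ex_smul]; exact pI_mul c l
    rw [h1, h2, ex_add, ex_add, ih, h3]

theorem Nn_filter833 (P : Cyl L → Prop) [DecidablePred P] (l : List (Cyl L)) (w : V → Bool) :
    Nn l w = Nn (l.filter (fun c => decide (P c))) w * Nn (l.filter (fun c => decide (¬ P c))) w := by
  induction l with
  | nil => simp [Nn]
  | cons c l ih =>
    by_cases h : P c
    · have e1 : (c :: l).filter (fun c => decide (P c)) = c :: l.filter (fun c => decide (P c)) :=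
        List.filter_cons_of_pos (by simpa using h)
      have e2 : (c :: l).filter (fun c => decide (¬ P c)) = l.filter (fun c => decide (¬ P c)) :=
        List.filter_cons_of_neg (by simpa using h)
      rw [e1, e2, Nn_cons, Nn_cons, ih]; ring
    · have e1 : (c :: l).filter (fun c => decide (P c)) = l.filter (fun c => decide (P c)) :=
        List.filter_cons_of_neg (by simpa using h)
      have e2 : (c :: l).filter (fun c => decide (¬ P c)) = c :: l.filter (fun c => decide (¬ P c)) :=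
        List.filter_cons_of_pos (by simpa using h)
      rw [e1, e2, Nn_cons, Nn_cons, ih]; ring

theorem Nn_dep833 (l : List (Cyl L)) (S : Finset V) (h : ∀ c ∈ l, c.A ⊆ S) : Dep (Nn l) S := by
  induction l with
  | nil => intro w w' _; rw [Nn_nil, Nn_nil]
  | cons c l ih =>
    intro w w' hw
    rw [Nn_cons, Nn_cons]
    have h1 := ih (fun c' hc' => h c' (List.mem_cons_of_mem _ hc')) w w' hw
    have h2 : c.i w = c.i w' := ci_dep c.A c.y w w' (fun v hv => hw v (h c List.mem_cons_self hv))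
    rw [h1, h2]

theorem Nn_mix_dep833 (l : List (Cyl L)) (S A : Finset V) (y : V → Bool) (h : ∀ c ∈ l, c.A ⊆ S) :
    Dep (fun w => Nn l (mix A y w)) (S \ A) := by
  intro w w' hw
  apply Nn_dep833 l S h
  intro v hv
  unfold mix
  by_cases hA : v ∈ A
  · simp [hA]
  · simp only [hA, if_false]
    exact hw v (Finset.mem_sdiff.mpr ⟨hv, hA⟩)

theorem Nn_mix_mul833 (l : List (Cyl L)) (A : Finset V) (y : V → Bool) (w : V → Bool) :
    Nn l w * ci A y w = Nn l (mix A y w) * ci A y w := by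
  unfold ci
  split_ifs with h
  · have : mix A y w = w := by
      funext v
      unfold mix
      by_cases hA : v ∈ A
      · simp only [hA, if_true]; exact (h v hA).symm
      · simp [hA]
    rw [this]
  · ring

theorem correlation (l : List (Cyl L)) (ck cj : Cyl L) (h1 : ∀ c ∈ l, c.n ≤ ck.n)
    (h2 : ck.n ≤ cj.n) :
    ex (fun w => Nn l w * ck.i w) * ex (fun w => Nn l w * cj.i w)
        * ex (fun w => ck.i w * cj.i w)
      ≤ ex (fun w => Nn l w * (ck.i w * cj.i w)) * (ex ck.i * ex cj.i) := by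
  classical
  obtain ⟨TJ, hTJ⟩ : ∃ TJ : Cyl L → Prop, TJ = fun c => ∃ u ∈ cj.A, u ∉ ck.A ∧ ∃ a ∈ c.A, L.R ck.n u a :=
    ⟨_, rfl⟩
  have hTJ' : ∀ c, TJ c ↔ ∃ u ∈ cj.A, u ∉ ck.A ∧ ∃ a ∈ c.A, L.R ck.n u a := by intro c; rw [hTJ]
  -- comparability at level ck.n
  have cmp : ∀ c ∈ l, ∀ v ∈ c.A, ∀ a ∈ c.A, v ≤ a → L.R ck.n v a := by
    intro c hc v hv a ha hva
    exact L.mono _ _ _ _ (h1 c hc) (c.h.2 v hv a ha hva)
  -- (1)
  have p1 : ∀ c ∈ l, ¬ TJ c → ∀ v ∈ c.A, v ∈ cj.A → v ∈ ck.A := by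
    intro c hc hcK v hv hvj
    by_contra hcon
    exact hcK ((hTJ' c).mpr ⟨v, hvj, hcon, v, hv, L.refl _ _⟩)
  -- (2)
  have p2 : ∀ c ∈ l, TJ c → ∀ v ∈ c.A, v ∈ ck.A → v ∈ cj.A := by
    intro c hc hcJ v hv hvk
    obtain ⟨u, huj, huk, a, ha, hua⟩ := (hTJ' c).mp hcJ
    rcases le_total v a with hva | hva
    · have hRva := cmp c hc v hv a ha hva
      rcases le_total u v with huv | huv
      · exact absurd (ck.h.1 v hvk u (L.tree _ _ _ _ hua hRva huv)) huk
      · exact cj.h.1 u huj v (L.mono _ _ _ _ h2 (L.tree _ _ _ _ hRva hua huv))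
    · have hRav := cmp c hc a ha v hv hva
      exact absurd (ck.h.1 v hvk u (L.trans _ _ _ _ hua hRav)) huk
  -- (3)
  have p3 : ∀ c ∈ l, TJ c → ∀ c' : Cyl L, ∀ w ∈ c.A, w ∈ c'.A → w ∉ ck.A → w ∉ cj.A → TJ c' := by
    intro c hc hcJ c' w hw hw' hwk hwj
    obtain ⟨u, huj, huk, a, ha, hua⟩ := (hTJ' c).mp hcJ
    refine (hTJ' c').mpr ⟨u, huj, huk, w, hw', ?_⟩
    rcases le_total w a with hwa | hwa
    · have hRwa := cmp c hc w hw a ha hwa
      rcases le_total u w with huw | huw
      · exact L.tree _ _ _ _ hua hRwa huw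
      · exact absurd (cj.h.1 u huj w (L.mono _ _ _ _ h2 (L.tree _ _ _ _ hRwa hua huw))) hwj
    · exact L.trans _ _ _ _ hua (cmp c hc a ha w hw hwa)
  obtain ⟨lJ, hlJ⟩ : ∃ lJ, lJ = l.filter (fun c => decide (TJ c)) := ⟨_, rfl⟩
  obtain ⟨lK, hlK⟩ : ∃ lK, lK = l.filter (fun c => decide (¬ TJ c)) := ⟨_, rfl⟩
  have hN : ∀ w, Nn l w = Nn lJ w * Nn lK w := by
    intro w
    rw [hlJ, hlK]
    exact Nn_filter833 TJ l w
  have mJ : ∀ c ∈ lJ, c ∈ l ∧ TJ c := by
    intro c hc
    rw [hlJ, List.mem_filter] at hc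
    exact ⟨hc.1, by simpa using hc.2⟩
  have mK : ∀ c ∈ lK, c ∈ l ∧ ¬ TJ c := by
    intro c hc
    rw [hlK, List.mem_filter] at hc
    exact ⟨hc.1, by simpa using hc.2⟩
  obtain ⟨SJ, hSJ⟩ : ∃ SJ : Finset V, SJ = Finset.univ.filter (fun v => ∃ c ∈ lJ, v ∈ c.A) := ⟨_, rfl⟩
  obtain ⟨SK, hSK⟩ : ∃ SK : Finset V, SK = Finset.univ.filter (fun v => ∃ c ∈ lK, v ∈ c.A) := ⟨_, rfl⟩
  have sJ : ∀ c ∈ lJ, c.A ⊆ SJ := by
    intro c hc v hv
    rw [hSJ, Finset.mem_filter]
    exact ⟨Finset.mem_univ _, c, hc, hv⟩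
  have sK : ∀ c ∈ lK, c.A ⊆ SK := by
    intro c hc v hv
    rw [hSK, Finset.mem_filter]
    exact ⟨Finset.mem_univ _, c, hc, hv⟩
  have dJ := Nn_mix_dep833 lJ SJ cj.A cj.y sJ
  have dK := Nn_mix_dep833 lK SK ck.A ck.y sK
  have disjK : Disjoint (SK \ ck.A) (ck.A ∪ cj.A) := by
    rw [Finset.disjoint_left]
    intro v hv hv2
    rw [Finset.mem_sdiff, hSK, Finset.mem_filter] at hv
    obtain ⟨⟨-, c, hc, hvc⟩, hvk⟩ := hv
    rw [Finset.mem_union] at hv2
    rcases hv2 with h | h
    · exact hvk h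
    · exact hvk (p1 c (mK c hc).1 (mK c hc).2 v hvc h)
  have disjJ : Disjoint (SJ \ cj.A) (ck.A ∪ cj.A) := by
    rw [Finset.disjoint_left]
    intro v hv hv2
    rw [Finset.mem_sdiff, hSJ, Finset.mem_filter] at hv
    obtain ⟨⟨-, c, hc, hvc⟩, hvj⟩ := hv
    rw [Finset.mem_union] at hv2
    rcases hv2 with h | h
    · exact hvj (p2 c (mJ c hc).1 (mJ c hc).2 v hvc h)
    · exact hvj h
  have disjKJ : Disjoint (SK \ ck.A) (SJ \ cj.A) := by
    rw [Finset.disjoint_left]
    intro v hv hv2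
    rw [Finset.mem_sdiff, hSK, Finset.mem_filter] at hv
    rw [Finset.mem_sdiff, hSJ, Finset.mem_filter] at hv2
    obtain ⟨⟨-, c, hc, hvc⟩, hvk⟩ := hv
    obtain ⟨⟨-, c', hc', hvc'⟩, hvj⟩ := hv2
    exact (mK c hc).2 (p3 c' (mJ c' hc').1 (mJ c' hc').2 c v hvc' hvc hvk hvj)
  obtain ⟨eK, heK⟩ : ∃ eK : (V → Bool) → ℝ, eK = fun w => Nn lK (mix ck.A ck.y w) := ⟨_, rfl⟩
  obtain ⟨eJ, heJ⟩ : ∃ eJ : (V → Bool) → ℝ, eJ = fun w => Nn lJ (mix cj.A cj.y w) := ⟨_, rfl⟩
  rw [← heK] at dK
  rw [← heJ] at dJ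
  have hK : ∀ w, Nn lK w * ck.i w = eK w * ck.i w := by
    intro w
    rw [heK]
    exact Nn_mix_mul833 lK ck.A ck.y w
  have hJ : ∀ w, Nn lJ w * cj.i w = eJ w * cj.i w := by
    intro w
    rw [heJ]
    exact Nn_mix_mul833 lJ cj.A cj.y w
  have dk : Dep ck.i ck.A := ci_dep _ _
  have dj : Dep cj.i cj.A := ci_dep _ _
  have dkj : Dep (fun w => ck.i w * cj.i w) (ck.A ∪ cj.A) :=
    Dep.mul (dk.mono Finset.subset_union_left) (dj.mono Finset.subset_union_right)
  -- main product formula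
  have m1 : ex (fun w => Nn l w * (ck.i w * cj.i w)) = ex eK * (ex eJ * ex (fun w => ck.i w * cj.i w)) := by
    have e1 : (fun w => Nn l w * (ck.i w * cj.i w)) = fun w => eK w * (eJ w * (ck.i w * cj.i w)) := by
      funext w
      rw [hN w]
      have a1 := hK w
      have a2 := hJ w
      calc Nn lJ w * Nn lK w * (ck.i w * cj.i w) = (Nn lK w * ck.i w) * (Nn lJ w * cj.i w) := by ring
        _ = (eK w * ck.i w) * (eJ w * cj.i w) := by rw [a1, a2]
        _ = _ := by ring
    rw [e1]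
    have d2 : Dep (fun w => eJ w * (ck.i w * cj.i w)) ((SJ \ cj.A) ∪ (ck.A ∪ cj.A)) :=
      Dep.mul (dJ.mono Finset.subset_union_left) (dkj.mono Finset.subset_union_right)
    rw [ex_mul_indep dK d2 (Finset.disjoint_union_right.mpr ⟨disjKJ, disjK⟩),
      ex_mul_indep dJ dkj disjJ]
  have m2 : ex (fun w => Nn l w * ck.i w) ≤ ex eK * ex ck.i := by
    rw [← ex_mul_indep dK dk (disjK.mono_right Finset.subset_union_left)]
    apply ex_mono
    intro w
    rw [← hK w, hN w]
    have b1 := Nn_le_one lJ w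
    have b2 := Nn_nonneg lK w
    have b3 := ck.i_nonneg w
    have b4 := mul_nonneg b2 b3
    nlinarith
  have m3 : ex (fun w => Nn l w * cj.i w) ≤ ex eJ * ex cj.i := by
    rw [← ex_mul_indep dJ dj (disjJ.mono_right Finset.subset_union_right)]
    apply ex_mono
    intro w
    rw [← hJ w, hN w]
    have b1 := Nn_le_one lK w
    have b2 := Nn_nonneg lJ w
    have b3 := cj.i_nonneg w
    have b4 := mul_nonneg b2 b3
    nlinarith
  have n1 : 0 ≤ ex (fun w => Nn l w * ck.i w) :=
    ex_nonneg fun w => mul_nonneg (Nn_nonneg l w) (ck.i_nonneg w)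
  have n2 : 0 ≤ ex (fun w => Nn l w * cj.i w) :=
    ex_nonneg fun w => mul_nonneg (Nn_nonneg l w) (cj.i_nonneg w)
  have n3 : 0 ≤ ex (fun w => ck.i w * cj.i w) :=
    ex_nonneg fun w => mul_nonneg (ck.i_nonneg w) (cj.i_nonneg w)
  rw [m1]
  calc ex (fun w => Nn l w * ck.i w) * ex (fun w => Nn l w * cj.i w) * ex (fun w => ck.i w * cj.i w)
      ≤ (ex eK * ex ck.i) * (ex eJ * ex cj.i) * ex (fun w => ck.i w * cj.i w) := by
        apply mul_le_mul_of_nonneg_right _ n3
        exact mul_le_mul m2 m3 n2 (n1.trans m2)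
    _ = _ := by ring

theorem ci_anti {A B : Finset V} (h : B ⊆ A) (y w : V → Bool) : ci A y w ≤ ci B y w := by
  unfold ci
  by_cases h1 : ∀ u ∈ A, w u = y u
  · have h2 : ∀ u ∈ B, w u = y u := fun u hu => h1 u (h hu)
    rw [if_pos h1, if_pos h2]
  · rw [if_neg h1]
    split_ifs <;> norm_num

theorem Px_dep (X : List (Cyl L)) (S : Finset V) (h : ∀ x ∈ X, x.A ⊆ S) : Dep (Px X) S := by
  induction X with
  | nil =>
    intro w w' _
    simp [Px]
  | cons c l ih =>
    intro w w' hw
    rw [Px_cons, Px_cons]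
    have h1 : Dep (Px l) S := ih (fun x hx => h x (List.mem_cons_of_mem _ hx))
    have h2 : Dep c.i S := (ci_dep c.A c.y).mono (h c (List.mem_cons_self))
    rw [h1 w w' hw, h2 w w' hw]

theorem Px_eq_zero {X : List (Cyl L)} {x : Cyl L} (hx : x ∈ X) {w : V → Bool} (h : x.i w = 0) :
    Px X w = 0 := by
  unfold Px
  apply List.prod_eq_zero
  rw [List.mem_map]
  exact ⟨x, hx, h⟩

theorem trace_down (c x : Cyl L) (h : c.n ≤ x.n) {u v : V} (hu : u ∈ c.A) (hu' : u ∈ x.A)
    (hv : v ∈ c.A) (hvu : v ≤ u) : v ∈ x.A :=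
  x.h.1 u hu' v (L.mono c.n x.n v u h (c.h.2 v hv u hu hvu))

theorem trace_nested (c x x' : Cyl L) (h : c.n ≤ x.n) (h' : c.n ≤ x'.n)
    (hc : (c.A ∩ x'.A).card ≤ (c.A ∩ x.A).card) : c.A ∩ x'.A ⊆ x.A := by
  intro u hu
  rw [Finset.mem_inter] at hu
  by_contra hux
  have h1 : c.A ∩ x.A ⊆ c.A ∩ x'.A := by
    intro v hv
    rw [Finset.mem_inter] at hv ⊢
    refine ⟨hv.1, ?_⟩
    rcases le_total u v with huv | hvu
    · exact absurd (trace_down c x h hv.1 hv.2 hu.1 huv) hux
    · exact trace_down c x' h' hu.1 hu.2 hv.1 hvu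
  have h2 : c.A ∩ x.A ⊂ c.A ∩ x'.A := by
    refine (Finset.ssubset_iff_of_subset h1).2 ⟨u, Finset.mem_inter.2 hu, ?_⟩
    intro h3
    exact hux (Finset.mem_inter.1 h3).2
  exact absurd (Finset.card_lt_card h2) (not_lt.2 hc)

theorem multi (c : Cyl L) (X : List (Cyl L)) (hX : X ≠ []) (h : ∀ x ∈ X, c.n ≤ x.n) :
    ∃ x ∈ X, ex (fun w => c.i w * Px X w) * ex x.i ≤ ex (Px X) * ex (fun w => c.i w * x.i w) := by
  have hne : {x | x ∈ X}.Nonempty := by
    obtain ⟨x, hx⟩ := List.exists_mem_of_ne_nil X hX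
    exact ⟨x, hx⟩
  obtain ⟨x, hx, hmax⟩ := Set.exists_max_image {x | x ∈ X} (fun x => (c.A ∩ x.A).card)
    (List.finite_toSet X) hne
  refine ⟨x, hx, ?_⟩
  have hnest : ∀ x' ∈ X, c.A ∩ x'.A ⊆ x.A := fun x' hx' =>
    trace_nested c x x' (h x hx) (h x' hx') (hmax x' hx')
  by_cases hag : ∀ u ∈ c.A ∩ x.A, c.y u = x.y u
  · -- the two cylinders are compatible
    have h1 : (fun w => c.i w * x.i w) = fun w => ci (c.A \ x.A) c.y w * x.i w := by
      funext w
      by_cases hw : ∀ u ∈ x.A, w u = x.y u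
      · have h2 : (∀ u ∈ c.A, w u = c.y u) ↔ (∀ u ∈ c.A \ x.A, w u = c.y u) := by
          constructor
          · intro h3 u hu
            exact h3 u (Finset.mem_sdiff.1 hu).1
          · intro h3 u hu
            by_cases hux : u ∈ x.A
            · rw [hw u hux, hag u (Finset.mem_inter.2 ⟨hu, hux⟩)]
            · exact h3 u (Finset.mem_sdiff.2 ⟨hu, hux⟩)
        have h3 : c.i w = ci (c.A \ x.A) c.y w := by
          unfold Cyl.i ci
          by_cases h4 : ∀ u ∈ c.A, w u = c.y u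
          · rw [if_pos h4, if_pos (h2.1 h4)]
          · rw [if_neg h4, if_neg (fun h5 => h4 (h2.2 h5))]
        rw [h3]
      · have h3 : x.i w = 0 := by
          unfold Cyl.i ci
          rw [if_neg hw]
        rw [h3, mul_zero, mul_zero]
    have h2 : ex (fun w => c.i w * x.i w) = ex (ci (c.A \ x.A) c.y) * ex x.i := by
      rw [h1]
      exact ex_mul_indep (ci_dep _ _) (ci_dep x.A x.y) Finset.sdiff_disjoint
    have h3 : Dep (Px X) (c.A \ x.A)ᶜ := by
      apply Px_dep
      intro x' hx' u hu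
      rw [Finset.mem_compl, Finset.mem_sdiff]
      rintro ⟨h4, h5⟩
      exact h5 (hnest x' hx' (Finset.mem_inter.2 ⟨h4, hu⟩))
    have h4 : ex (fun w => ci (c.A \ x.A) c.y w * Px X w)
        = ex (ci (c.A \ x.A) c.y) * ex (Px X) :=
      ex_mul_indep (ci_dep _ _) h3 disjoint_compl_right
    have h5 : ex (fun w => c.i w * Px X w) ≤ ex (fun w => ci (c.A \ x.A) c.y w * Px X w) :=
      ex_mono fun w => mul_le_mul_of_nonneg_right (ci_anti Finset.sdiff_subset c.y w)
        (Px_nonneg X w)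
    rw [h4] at h5
    rw [h2]
    have h6 := x.i_pos
    calc ex (fun w => c.i w * Px X w) * ex x.i
        ≤ (ex (ci (c.A \ x.A) c.y) * ex (Px X)) * ex x.i :=
          mul_le_mul_of_nonneg_right h5 h6.le
      _ = ex (Px X) * (ex (ci (c.A \ x.A) c.y) * ex x.i) := by ring
  · -- the two cylinders are disjoint
    push Not at hag
    obtain ⟨u, hu, hne⟩ := hag
    rw [Finset.mem_inter] at hu
    have h1 : ∀ w, c.i w * Px X w = 0 := by
      intro w
      by_cases hc : c.i w = 0
      · rw [hc, zero_mul]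
      · have h2 : x.i w = 0 := by
          by_contra hxw
          have h3 : w u = c.y u := by
            by_contra h4
            apply hc
            unfold Cyl.i ci
            rw [if_neg (fun h5 => h4 (h5 u hu.1))]
          have h4 : w u = x.y u := by
            by_contra h4
            apply hxw
            unfold Cyl.i ci
            rw [if_neg (fun h5 => h4 (h5 u hu.2))]
          exact hne (h3.symm.trans h4)
        rw [Px_eq_zero hx h2, mul_zero]
    have h2 : (fun w => c.i w * Px X w) = fun _ => 0 := funext h1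
    rw [h2, ex_const, zero_mul]
    exact mul_nonneg (ex_nonneg (Px_nonneg X))
      (ex_nonneg fun w => mul_nonneg (c.i_nonneg w) (x.i_nonneg w))

theorem overlap_aux (θ : ℝ) (x : Cyl L) (l : List (Cyl L)) (hl : Good θ l)
    (hx : ∀ c ∈ l, c.n ≤ x.n) (hp : 0 < pI x l) :
    ex (fun w => Phi l w * x.i w) ≤ - Real.log (pI x l) * ex x.i := by
  induction l with
  | nil =>
    have h1 : (fun w => Phi ([] : List (Cyl L)) w * x.i w) = fun _ => (0 : ℝ) := by
      funext w; simp [Phi]
    have h2 : pI x ([] : List (Cyl L)) = 1 := by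
      unfold pI
      have : (fun w => Nn ([] : List (Cyl L)) w * x.i w) = x.i := by
        funext w; rw [Nn_nil, one_mul]
      rw [this]
      exact div_self x.i_pos.ne'
    rw [h1, ex_const, h2, Real.log_one]
    simp
  | cons c l ih =>
    obtain ⟨hc, hlev, hl0⟩ := hl
    have hx0 : ∀ c' ∈ l, c'.n ≤ x.n := fun c' h => hx c' (List.mem_cons_of_mem _ h)
    have hcx : c.n ≤ x.n := hx c List.mem_cons_self
    have hanti := pI_anti c x l
    have hn0 : 0 < pI x l := hp.trans_le hanti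
    have ih' := ih hl0 hx0 hn0
    set n0 := pI x l with hn0d
    set n1 := pI x (c :: l) with hn1d
    have hX : 0 < ex x.i := x.i_pos
    have hC : 0 < ex c.i := c.i_pos
    have e1 : n1 * ex x.i = ex (fun w => Nn (c :: l) w * x.i w) := pI_mul x (c :: l)
    have e0 : n0 * ex x.i = ex (fun w => Nn l w * x.i w) := pI_mul x l
    have ediff : (n0 - n1) * ex x.i = ex (fun w => Nn l w * (c.i w * x.i w)) := by
      rw [sub_mul, e0, e1, ← ex_sub]
      congr 1
      funext w
      rw [Nn_cons]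
      ring
    have hcor := correlation l c x hlev hcx
    rw [← ediff, ← pI_mul c l, ← e0] at hcor
    have hcor2 : pI c l * n0 * ex (fun w => c.i w * x.i w) ≤ (n0 - n1) * ex x.i := by
      have h3 : (pI c l * n0 * ex (fun w => c.i w * x.i w)) * (ex c.i * ex x.i)
          ≤ ((n0 - n1) * ex x.i) * (ex c.i * ex x.i) := by
        refine le_trans (le_of_eq ?_) hcor
        ring
      exact le_of_mul_le_mul_right h3 (mul_pos hC hX)
    have hlog : Real.log (n1 / n0) ≤ n1 / n0 - 1 :=
      Real.log_le_sub_one_of_pos (div_pos hp hn0)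
    rw [Real.log_div hp.ne' hn0.ne'] at hlog
    have hcor3 : pI c l * ex (fun w => c.i w * x.i w) ≤ (1 - n1 / n0) * ex x.i := by
      have h4 : (pI c l * ex (fun w => c.i w * x.i w)) * n0 ≤ ((1 - n1 / n0) * ex x.i) * n0 := by
        have h5 : ((1 - n1 / n0) * ex x.i) * n0 = (n0 - n1) * ex x.i := by
          field_simp
        rw [h5]
        refine le_trans (le_of_eq ?_) hcor2
        ring
      exact le_of_mul_le_mul_right h4 hn0
    have hsplit : ex (fun w => Phi (c :: l) w * x.i w) =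
        pI c l * ex (fun w => c.i w * x.i w) + ex (fun w => Phi l w * x.i w) := by
      rw [← ex_smul, ← ex_add]
      congr 1
      funext w
      show (pI c l * c.i w + Phi l w) * x.i w = _
      ring
    rw [hsplit]
    have h6 : (1 - n1 / n0) * ex x.i ≤ (Real.log n0 - Real.log n1) * ex x.i := by
      refine mul_le_mul_of_nonneg_right ?_ hX.le
      linarith
    nlinarith [h6, hcor3, ih']

theorem overlap_one (l : List (Cyl L)) {θ : ℝ} (hθ : 0 < θ) (hl : Good θ l) (x : Cyl L)
    (hx : ∀ c ∈ l, c.n ≤ x.n) (hp : θ ≤ pI x l) :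
    ex (fun w => Phi l w * x.i w) ≤ Real.log (1 / θ) * ex x.i := by
  refine (overlap_aux θ x l hl hx (hθ.trans_le hp)).trans ?_
  refine mul_le_mul_of_nonneg_right ?_ x.i_pos.le
  rw [one_div, Real.log_inv]
  exact neg_le_neg (Real.log_le_log hθ hp)

theorem overlap_multi_aux (l : List (Cyl L)) (X : List (Cyl L))
    (hX : X ≠ []) (hx : ∀ x ∈ X, ∀ c ∈ l, c.n ≤ x.n) :
    ex (fun w => Phi l w * Px X w) ≤
      ex (Px X) * (X.map fun x => ex (fun w => Phi l w * x.i w) / ex x.i).sum := by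
  induction l with
  | nil =>
    have h1 : (fun w : V → Bool => Phi ([] : List (Cyl L)) w * Px X w) = fun _ => 0 := by
      funext w; simp [Phi]
    have h2 : ∀ x : Cyl L, ex (fun w => Phi ([] : List (Cyl L)) w * x.i w) / ex x.i = 0 := by
      intro x
      have : (fun w : V → Bool => Phi ([] : List (Cyl L)) w * x.i w) = fun _ => 0 := by
        funext w; simp [Phi]
      rw [this, ex_const, zero_div]
    rw [h1, ex_const]
    simp only [h2]
    simp
  | cons c l ih =>
    have ih' := ih (fun x hxX c' hc' => hx x hxX c' (List.mem_cons_of_mem _ hc'))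
    have hPx : 0 ≤ ex (Px X) := ex_nonneg (Px_nonneg X)
    have h1 : ex (fun w => Phi (c :: l) w * Px X w) =
        pI c l * ex (fun w => c.i w * Px X w) + ex (fun w => Phi l w * Px X w) := by
      rw [← ex_smul, ← ex_add]
      congr 1
      funext w
      simp only [Phi]
      ring
    have h2 : ∀ x : Cyl L, ex (fun w => Phi (c :: l) w * x.i w) / ex x.i =
        pI c l * (ex (fun w => c.i w * x.i w) / ex x.i) + ex (fun w => Phi l w * x.i w) / ex x.i := by
      intro x
      have : ex (fun w => Phi (c :: l) w * x.i w) =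
          pI c l * ex (fun w => c.i w * x.i w) + ex (fun w => Phi l w * x.i w) := by
        rw [← ex_smul, ← ex_add]
        congr 1
        funext w
        simp only [Phi]
        ring
      rw [this, add_div, mul_div_assoc]
    simp only [h2]
    rw [h1, List.sum_map_add, mul_add]
    refine add_le_add ?_ ih'
    obtain ⟨x, hxX, hxm⟩ := multi c X hX (fun x hxX => hx x hxX c List.mem_cons_self)
    have h3 : ex (fun w => c.i w * Px X w) ≤ ex (Px X) * (ex (fun w => c.i w * x.i w) / ex x.i) := by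
      rw [← mul_div_assoc, le_div_iff₀ x.i_pos]
      exact hxm
    have hnn : ∀ x : Cyl L, 0 ≤ ex (fun w => c.i w * x.i w) / ex x.i := fun x =>
      div_nonneg (ex_nonneg fun w => mul_nonneg (c.i_nonneg w) (x.i_nonneg w)) x.i_pos.le
    have h4 : ex (fun w => c.i w * x.i w) / ex x.i ≤
        (X.map fun x => ex (fun w => c.i w * x.i w) / ex x.i).sum := by
      apply List.single_le_sum
      · intro y hy
        rw [List.mem_map] at hy
        obtain ⟨x', -, rfl⟩ := hy
        exact hnn x'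
      · exact List.mem_map.2 ⟨x, hxX, rfl⟩
    rw [List.sum_map_mul_left, mul_left_comm]
    refine mul_le_mul_of_nonneg_left ?_ (pI_nonneg c l)
    exact h3.trans (mul_le_mul_of_nonneg_left h4 hPx)

theorem overlap_multi (l : List (Cyl L)) {θ : ℝ} (hθ : 0 < θ) (hl : Good θ l) (X : List (Cyl L))
    (hX : X ≠ []) (hx : ∀ x ∈ X, ∀ c ∈ l, c.n ≤ x.n) (hp : ∀ x ∈ X, θ ≤ pI x l) :
    ex (fun w => Phi l w * Px X w) ≤ X.length * Real.log (1 / θ) * ex (Px X) := by
  have h1 := overlap_multi_aux l X hX hx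
  have hPx : 0 ≤ ex (Px X) := ex_nonneg (Px_nonneg X)
  have h2 : (X.map fun x => ex (fun w => Phi l w * x.i w) / ex x.i).sum ≤ X.length * Real.log (1 / θ) := by
    have := List.sum_le_card_nsmul (X.map fun x => ex (fun w => Phi l w * x.i w) / ex x.i)
      (Real.log (1 / θ)) (by
        intro y hy
        rw [List.mem_map] at hy
        obtain ⟨x, hxX, rfl⟩ := hy
        rw [div_le_iff₀ x.i_pos]
        exact overlap_one l hθ hl x (hx x hxX) (hp x hxX))
    rw [List.length_map, nsmul_eq_mul] at this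
    exact this
  calc ex (fun w => Phi l w * Px X w) ≤ _ := h1
    _ ≤ ex (Px X) * (X.length * Real.log (1 / θ)) := mul_le_mul_of_nonneg_left h2 hPx
    _ = _ := by ring

/-- constants of the moment estimates -/
def Kc : ℕ → ℕ → ℝ
  | 0, _ => 1
  | m + 1, n => 1 + (m + 1) * 2 ^ m * n * Kc m (n + 1)

theorem j8278_bern (m : ℕ) (s t : ℝ) (hs : 0 ≤ s) (ht : 0 ≤ t) :
    (s + t) ^ (m + 1) ≤ s ^ (m + 1) + (m + 1) * t * (s + t) ^ m := by
  induction m with
  | zero => simp
  | succ m ih =>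
    have h1 : (s + t) ^ (m + 1 + 1) = (s + t) * (s + t) ^ (m + 1) := by ring
    have h2 := mul_le_mul_of_nonneg_left ih (show 0 ≤ s + t by linarith)
    have h3 : s ^ (m + 1) ≤ (s + t) ^ (m + 1) := pow_le_pow_left₀ hs (by linarith) _
    have h4 := mul_le_mul_of_nonneg_left h3 ht
    have h5 : (s + t) * (s ^ (m + 1) + (m + 1) * t * (s + t) ^ m) =
        s ^ (m + 1 + 1) + t * s ^ (m + 1) + (m + 1) * t * (s + t) ^ (m + 1) := by ring
    rw [h1]
    push_cast
    have h6 : ((m : ℝ) + 1 + 1) * t * (s + t) ^ (m + 1) =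
        (m + 1) * t * (s + t) ^ (m + 1) + t * (s + t) ^ (m + 1) := by ring
    rw [h6]
    linarith

theorem j8278_bern2 (m : ℕ) (s t : ℝ) (hs : 1 ≤ s) (ht : 0 ≤ t) (ht1 : t ≤ 1) :
    (s + t) ^ (m + 1) ≤ s ^ (m + 1) + (m + 1) * 2 ^ m * (t * s ^ m) := by
  have h1 := j8278_bern m s t (by linarith) ht
  have h2 : (s + t) ^ m ≤ 2 ^ m * s ^ m := by
    rw [← mul_pow]
    exact pow_le_pow_left₀ (by linarith) (by linarith) m
  have h3 : ((m : ℝ) + 1) * t * (s + t) ^ m ≤ (m + 1) * t * (2 ^ m * s ^ m) :=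
    mul_le_mul_of_nonneg_left h2 (by positivity)
  calc (s + t) ^ (m + 1) ≤ s ^ (m + 1) + (m + 1) * t * (s + t) ^ m := h1
    _ ≤ s ^ (m + 1) + (m + 1) * t * (2 ^ m * s ^ m) := by linarith
    _ = _ := by ring

theorem j8278_Kc (m : ℕ) : ∀ n, 0 ≤ Kc m n := by
  induction m with
  | zero => intro n; simp [Kc]
  | succ m ih =>
    intro n
    have := ih (n + 1)
    rw [Kc]
    positivity

theorem j8278_claim (m : ℕ) {θ : ℝ} (B : ℝ) (X : List (Cyl L))
    (hB : ∀ (l : List (Cyl L)) (c : Cyl L), Good θ l → (∀ x ∈ c :: X, ∀ c' ∈ l, c'.n ≤ x.n) →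
      (∀ x ∈ c :: X, θ ≤ pI x l) →
      ex (fun w => (1 + Phi l w) ^ m * Px (c :: X) w) ≤ B * ex (Px (c :: X)))
    (l : List (Cyl L)) : Good θ l → (∀ x ∈ X, ∀ c ∈ l, c.n ≤ x.n) → (∀ x ∈ X, θ ≤ pI x l) →
    ex (fun w => (1 + Phi l w) ^ (m + 1) * Px X w) ≤
      ex (Px X) + (m + 1) * 2 ^ m * B * ex (fun w => Phi l w * Px X w) := by
  induction l with
  | nil =>
    intro _ _ _
    have h1 : (fun w => (1 + Phi ([] : List (Cyl L)) w) ^ (m + 1) * Px X w) = Px X := by
      funext w; simp [Phi]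
    have h2 : (fun w => Phi ([] : List (Cyl L)) w * Px X w) = fun _ => 0 := by
      funext w; simp [Phi]
    rw [h1, h2, ex_const, mul_zero, add_zero]
  | cons c l ih =>
    rintro ⟨hθc, hcn, hl⟩ hx hp
    have hx' : ∀ x ∈ X, ∀ c' ∈ l, c'.n ≤ x.n := fun x hx1 c' hc' =>
      hx x hx1 c' (List.mem_cons_of_mem _ hc')
    have hp' : ∀ x ∈ X, θ ≤ pI x l := fun x hx1 => (hp x hx1).trans (pI_anti c x l)
    have h1 := ih hl hx' hp'
    have h2 := hB l c hl (by
      intro x hx1 c' hc'
      rcases List.mem_cons.mp hx1 with h | h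
      · rw [h]; exact hcn c' hc'
      · exact hx' x h c' hc') (by
      intro x hx1
      rcases List.mem_cons.mp hx1 with h | h
      · rw [h]; exact hθc
      · exact hp' x h)
    have hpt : ∀ w, (1 + Phi (c :: l) w) ^ (m + 1) * Px X w ≤
        (1 + Phi l w) ^ (m + 1) * Px X w +
          ((m + 1) * 2 ^ m * pI c l) * ((1 + Phi l w) ^ m * Px (c :: X) w) := by
      intro w
      have e1 : 1 + Phi (c :: l) w = (1 + Phi l w) + pI c l * c.i w := by
        show 1 + (pI c l * c.i w + Phi l w) = _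
        ring
      have ht0 : 0 ≤ pI c l * c.i w := mul_nonneg (pI_nonneg c l) (c.i_nonneg w)
      have ht1 : pI c l * c.i w ≤ 1 := mul_le_one₀ (pI_le_one c l) (c.i_nonneg w) (c.i_le_one w)
      have e2 := j8278_bern2 m (1 + Phi l w) (pI c l * c.i w)
        (by have := Phi_nonneg l w; linarith) ht0 ht1
      have e3 := mul_le_mul_of_nonneg_right e2 (Px_nonneg X w)
      rw [e1, Px_cons]
      refine e3.trans (le_of_eq ?_)
      ring
    have h3 := ex_mono hpt
    rw [ex_add, ex_smul] at h3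
    have hK : 0 ≤ ((m : ℝ) + 1) * 2 ^ m * pI c l := by
      have := pI_nonneg c l
      positivity
    have h4 := mul_le_mul_of_nonneg_left h2 hK
    have h5 : ex (fun w => Phi (c :: l) w * Px X w) =
        pI c l * ex (Px (c :: X)) + ex (fun w => Phi l w * Px X w) := by
      have e1 : (fun w => Phi (c :: l) w * Px X w) =
          fun w => pI c l * Px (c :: X) w + Phi l w * Px X w := by
        funext w
        show (pI c l * c.i w + Phi l w) * Px X w = _
        rw [Px_cons]; ring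
      rw [e1, ex_add, ex_smul]
    rw [h5]
    calc ex (fun w => (1 + Phi (c :: l) w) ^ (m + 1) * Px X w)
        ≤ ex (fun w => (1 + Phi l w) ^ (m + 1) * Px X w) +
          ((m + 1) * 2 ^ m * pI c l) * ex (fun w => (1 + Phi l w) ^ m * Px (c :: X) w) := h3
      _ ≤ (ex (Px X) + (m + 1) * 2 ^ m * B * ex (fun w => Phi l w * Px X w)) +
          ((m + 1) * 2 ^ m * pI c l) * (B * ex (Px (c :: X))) := add_le_add h1 h4
      _ = _ := by ring

theorem moment_multi (m : ℕ) (l : List (Cyl L)) {θ : ℝ} (hθ : 0 < θ) (hθ1 : θ ≤ 1)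
    (hl : Good θ l) (X : List (Cyl L)) (hX : X ≠ []) (hx : ∀ x ∈ X, ∀ c ∈ l, c.n ≤ x.n)
    (hp : ∀ x ∈ X, θ ≤ pI x l) :
    ex (fun w => (1 + Phi l w) ^ m * Px X w)
      ≤ Kc m X.length * (1 + Real.log (1 / θ)) ^ m * ex (Px X) := by
  have hlog : 0 ≤ Real.log (1 / θ) := Real.log_nonneg (by rw [le_div_iff₀ hθ]; linarith)
  obtain ⟨lg, hlg⟩ : ∃ lg : ℝ, lg = Real.log (1 / θ) := ⟨_, rfl⟩
  rw [← hlg] at hlog
  rw [← hlg]
  induction m generalizing X l with
  | zero =>
    simp [Kc]
  | succ m ih =>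
    have hexX : 0 ≤ ex (Px X) := ex_nonneg (Px_nonneg X)
    have hK := j8278_Kc m (X.length + 1)
    have hLm : 0 ≤ (1 + lg) ^ m := by positivity
    have h1 := j8278_claim m (θ := θ) (Kc m (X.length + 1) * (1 + lg) ^ m) X (by
      intro l' c hl' hx' hp'
      have := ih l' hl' (c :: X) (List.cons_ne_nil _ _) hx' hp'
      simpa using this) l hl hx hp
    have h2 := overlap_multi l hθ hl X hX hx hp
    rw [← hlg] at h2
    have hn : (0 : ℝ) ≤ X.length := Nat.cast_nonneg _
    have h3 : ex (fun w => Phi l w * Px X w) ≤ X.length * (1 + lg) * ex (Px X) := by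
      refine h2.trans (mul_le_mul_of_nonneg_right ?_ hexX)
      nlinarith
    have hC : 0 ≤ ((m : ℝ) + 1) * 2 ^ m * (Kc m (X.length + 1) * (1 + lg) ^ m) := by positivity
    have h4 := mul_le_mul_of_nonneg_left h3 hC
    have h5 : (1 : ℝ) ≤ (1 + lg) ^ (m + 1) := one_le_pow₀ (by linarith)
    have h6 : ex (Px X) ≤ (1 + lg) ^ (m + 1) * ex (Px X) := by nlinarith
    refine h1.trans ?_
    have h7 : Kc (m + 1) X.length = 1 + (m + 1) * 2 ^ m * X.length * Kc m (X.length + 1) := by
      rw [Kc]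
    rw [h7]
    calc ex (Px X) + (m + 1) * 2 ^ m * (Kc m (X.length + 1) * (1 + lg) ^ m) *
          ex (fun w => Phi l w * Px X w)
        ≤ (1 + lg) ^ (m + 1) * ex (Px X) +
          ((m : ℝ) + 1) * 2 ^ m * (Kc m (X.length + 1) * (1 + lg) ^ m) *
            (X.length * (1 + lg) * ex (Px X)) := add_le_add h6 h4
      _ = _ := by ring

theorem Kc_nonneg_aux (m : ℕ) : ∀ n : ℕ, 0 ≤ Kc m n := by
  induction m with
  | zero => intro n; simp [Kc]
  | succ m ih =>
    intro n
    have h := ih (n + 1)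
    rw [Kc]
    positivity

theorem pow_aux (m : ℕ) (P t : ℝ) (hP : 0 ≤ P) (ht : 0 ≤ t) :
    (t + P) ^ (m + 1) ≤ P ^ (m + 1) + (m + 1) * t * (t + P) ^ m := by
  induction m with
  | zero => simp [add_comm]
  | succ m ih =>
    have h1 : (t + P) ^ (m + 1 + 1) = P * (t + P) ^ (m + 1) + t * (t + P) ^ (m + 1) := by ring
    have h2 : P * (t + P) ^ (m + 1) ≤ P * (P ^ (m + 1) + (m + 1) * t * (t + P) ^ m) :=
      mul_le_mul_of_nonneg_left ih hP
    have h3 : P * ((m + 1) * t * (t + P) ^ m) ≤ (t + P) * ((m + 1) * t * (t + P) ^ m) := by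
      apply mul_le_mul_of_nonneg_right (by linarith)
      positivity
    rw [h1]
    push_cast
    calc P * (t + P) ^ (m + 1) + t * (t + P) ^ (m + 1)
        ≤ P * (P ^ (m + 1) + (m + 1) * t * (t + P) ^ m) + t * (t + P) ^ (m + 1) := by linarith
      _ = P ^ (m + 1 + 1) + P * ((m + 1) * t * (t + P) ^ m) + t * (t + P) ^ (m + 1) := by ring
      _ ≤ P ^ (m + 1 + 1) + (t + P) * ((m + 1) * t * (t + P) ^ m) + t * (t + P) ^ (m + 1) := by
          linarith
      _ = P ^ (m + 1 + 1) + (m + 1 + 1) * t * (t + P) ^ (m + 1) := by ring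

theorem moment (m : ℕ) (l : List (Cyl L)) {θ : ℝ} (hθ : 0 < θ) (hθ1 : θ ≤ 1) (hl : Good θ l) :
    ex (fun w => Phi l w ^ (m + 1))
      ≤ (m + 1) * 2 ^ m * Kc m 1 * (1 + Real.log (1 / θ)) ^ m * ex (Phi l) := by
  induction l with
  | nil =>
    have h1 : (fun w => Phi ([] : List (Cyl L)) w ^ (m + 1)) = fun _ => (0 : ℝ) := by
      funext w
      simp [Phi]
    have h2 : Phi ([] : List (Cyl L)) = fun _ => (0 : ℝ) := by
      funext w
      simp [Phi]
    rw [h1, h2, ex_const]
    simp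
  | cons c l ih =>
    obtain ⟨hp, hn, hg⟩ := hl
    have ih' := ih hg
    have hL : 0 ≤ Real.log (1 / θ) := Real.log_nonneg (by rw [le_div_iff₀ hθ]; linarith)
    obtain ⟨Λ, hΛ⟩ : ∃ Λ : ℝ, Λ = 1 + Real.log (1 / θ) := ⟨_, rfl⟩
    have hmm := moment_multi m l hθ hθ1 hg [c] (by simp)
      (by
        intro x hx c' hc'
        rw [List.mem_singleton] at hx
        subst hx
        exact hn c' hc')
      (by
        intro x hx
        rw [List.mem_singleton] at hx
        subst hx
        exact hp)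
    rw [← hΛ] at hmm ih' ⊢
    have hΛ0 : 0 ≤ Λ := by rw [hΛ]; linarith
    have hPx : Px [c] = c.i := by
      funext w
      simp [Px]
    rw [hPx, List.length_singleton] at hmm
    have hK := Kc_nonneg_aux m 1
    have hpt : ∀ w, Phi (c :: l) w ^ (m + 1) ≤
        Phi l w ^ (m + 1) + ((m + 1) * pI c l) * ((1 + Phi l w) ^ m * c.i w) := by
      intro w
      have h1 : Phi (c :: l) w = pI c l * c.i w + Phi l w := rfl
      have hP := Phi_nonneg l w
      have hi0 := c.i_nonneg w
      have hi1 := c.i_le_one w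
      have hp0 := pI_nonneg c l
      have hp1 := pI_le_one c l
      have ht0 : 0 ≤ pI c l * c.i w := mul_nonneg hp0 hi0
      have ht1 : pI c l * c.i w ≤ 1 := by nlinarith
      rw [h1]
      have h2 := pow_aux m (Phi l w) (pI c l * c.i w) hP ht0
      have h3 : (pI c l * c.i w + Phi l w) ^ m ≤ (1 + Phi l w) ^ m :=
        pow_le_pow_left₀ (by linarith) (by linarith) m
      have h4 : (m + 1) * (pI c l * c.i w) * (pI c l * c.i w + Phi l w) ^ m ≤
          (m + 1) * (pI c l * c.i w) * (1 + Phi l w) ^ m :=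
        mul_le_mul_of_nonneg_left h3 (by positivity)
      calc _ ≤ _ := h2
        _ ≤ Phi l w ^ (m + 1) + (m + 1) * (pI c l * c.i w) * (1 + Phi l w) ^ m := by linarith
        _ = _ := by ring
    have h5 := ex_mono hpt
    rw [ex_add, ex_smul] at h5
    have h6 : ex (Phi (c :: l)) = pI c l * ex c.i + ex (Phi l) := by
      have h7 : Phi (c :: l) = fun w => pI c l * c.i w + Phi l w := by funext w; rfl
      rw [h7, ex_add, ex_smul]
    have hp0 := pI_nonneg c l
    have hic := c.i_pos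
    have h8 : ((m : ℝ) + 1) * pI c l * ex (fun w => (1 + Phi l w) ^ m * c.i w) ≤
        ((m : ℝ) + 1) * pI c l * (Kc m 1 * Λ ^ m * ex c.i) :=
      mul_le_mul_of_nonneg_left hmm (by positivity)
    have h9 : (1 : ℝ) ≤ 2 ^ m := one_le_pow₀ (by norm_num)
    have h10 : ((m : ℝ) + 1) * pI c l * (Kc m 1 * Λ ^ m * ex c.i) ≤
        2 ^ m * (((m : ℝ) + 1) * pI c l * (Kc m 1 * Λ ^ m * ex c.i)) := by
      apply le_mul_of_one_le_left _ h9
      positivity
    rw [h6]
    calc ex (fun w => Phi (c :: l) w ^ (m + 1))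
        ≤ ex (fun w => Phi l w ^ (m + 1)) +
          ((m : ℝ) + 1) * pI c l * ex (fun w => (1 + Phi l w) ^ m * c.i w) := h5
      _ ≤ (m + 1) * 2 ^ m * Kc m 1 * Λ ^ m * ex (Phi l) +
          2 ^ m * (((m : ℝ) + 1) * pI c l * (Kc m 1 * Λ ^ m * ex c.i)) := by linarith
      _ = _ := by ring

theorem selection_aux (w : (V → Bool) → ℝ) (Λ : ℝ) {θ : ℝ} (hθ : 0 < θ)
    (all : List (Cyl L)) (hs : all.Pairwise fun a b => b.n ≤ a.n) :
    ∃ l : List (Cyl L), (∀ c ∈ l, c ∈ all) ∧ Good θ l ∧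
      (∀ c ∈ l, Λ * ex c.i ≤ ex (fun o => w o * c.i o)) ∧
      (∀ c ∈ all, Λ * ex c.i ≤ ex (fun o => w o * c.i o) →
        ex (fun o => Nn l o * c.i o) ≤ θ * ex c.i) := by
  induction all with
  | nil => exact ⟨[], by simp, trivial, by simp, by simp⟩
  | cons c all' ih =>
    rw [List.pairwise_cons] at hs
    obtain ⟨l, h1, h2, h3, h4⟩ := ih hs.2
    by_cases hc : Λ * ex c.i ≤ ex (fun o => w o * c.i o)
    · by_cases hp : θ ≤ pI c l
      · refine ⟨c :: l, ?_, ⟨hp, fun c' hc' => hs.1 c' (h1 c' hc'), h2⟩, ?_, ?_⟩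
        · intro d hd
          rcases List.mem_cons.mp hd with rfl | hd
          · exact List.mem_cons_self
          · exact List.mem_cons_of_mem _ (h1 d hd)
        · intro d hd
          rcases List.mem_cons.mp hd with rfl | hd
          · exact hc
          · exact h3 d hd
        · intro d hd hdΛ
          rcases List.mem_cons.mp hd with rfl | hd
          · have h5 : (fun o => Nn (d :: l) o * d.i o) = fun _ => (0 : ℝ) := by
              funext o
              rw [Nn_cons]
              have := d.i_mul_self o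
              linear_combination (-(Nn l o)) * this
            rw [h5, ex_const]
            exact mul_nonneg hθ.le d.i_pos.le
          · refine le_trans ?_ (h4 d hd hdΛ)
            exact ex_mono fun o => mul_le_mul_of_nonneg_right (Nn_cons_le c l o) (d.i_nonneg o)
      · refine ⟨l, fun d hd => List.mem_cons_of_mem _ (h1 d hd), h2, h3, ?_⟩
        intro d hd hdΛ
        rcases List.mem_cons.mp hd with rfl | hd
        · rw [← pI_mul]
          exact mul_le_mul_of_nonneg_right (not_le.mp hp).le d.i_pos.le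
        · exact h4 d hd hdΛ
    · refine ⟨l, fun d hd => List.mem_cons_of_mem _ (h1 d hd), h2, h3, ?_⟩
      intro d hd hdΛ
      rcases List.mem_cons.mp hd with rfl | hd
      · exact absurd hdΛ hc
      · exact h4 d hd hdΛ

theorem selection (w : (V → Bool) → ℝ) (Λ : ℝ) {θ : ℝ} (hθ : 0 < θ) (hθ1 : θ ≤ 1)
    (all : List (Cyl L)) (hs : all.Pairwise fun a b => b.n ≤ a.n) :
    ∃ l : List (Cyl L), Good θ l ∧
      (∀ c ∈ l, Λ * ex c.i ≤ ex (fun o => w o * c.i o)) ∧
      (∀ c ∈ all, Λ * ex c.i ≤ ex (fun o => w o * c.i o) →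
        ex (fun o => Nn l o * c.i o) ≤ θ * ex c.i) := by
  obtain ⟨l, -, h2, h3, h4⟩ := selection_aux w Λ hθ all hs
  exact ⟨l, h2, h3, h4⟩

end
end H550Unc
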