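import Pool.Agent.Helper60.Unc.Avg

/-!
The product measure of fair coins, and integrals of functions of finitely many coins.
-/

namespace H60Unc

open MeasureTheory
open scoped ENNReal

/-- the fair coin -/
noncomputable def coin : Measure Bool := (2⁻¹ : ℝ≥0∞) • (Measure.dirac true + Measure.dirac false)

instance : IsProbabilityMeasure coin := by
  refine ⟨?_⟩
  simp only [coin, Measure.smul_apply, Measure.add_apply, measure_univ, smul_eq_mul]
  rw [one_add_one_eq_two]
  exact ENNReal.inv_mul_cancel (by norm_num) (by norm_num)

theorem coin_singleton (b : Bool) : coin {b} = 2⁻¹ := by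
  simp only [coin, Measure.smul_apply, Measure.add_apply, smul_eq_mul]
  rw [Measure.dirac_apply, Measure.dirac_apply]
  cases b <;> simp

/-- the coin-tossing measure -/
noncomputable def mu (I : Type*) : Measure (I → Bool) := Measure.infinitePi (fun _ : I => coin)

instance (I : Type*) : IsProbabilityMeasure (mu I) := by
  unfold mu; infer_instance

theorem integral_pi_coin {J : Type*} [Fintype J] [DecidableEq J] (g : (J → Bool) → ℝ) :
    ∫ w, g w ∂(Measure.pi (fun _ : J => coin)) = ex g := by
  rw [integral_fintype (Integrable.of_finite)]
  have h1 : ∀ w : J → Bool, (Measure.pi (fun _ : J => coin)).real {w}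
      = (Fintype.card (J → Bool) : ℝ)⁻¹ := by
    intro w
    rw [measureReal_def, Measure.pi_singleton]
    simp only [coin_singleton, Finset.prod_const, Finset.card_univ, ENNReal.toReal_pow,
      ENNReal.toReal_inv, ENNReal.toReal_ofNat, Fintype.card_fun, Fintype.card_bool]
    push_cast
    rw [inv_pow]
  simp only [h1, smul_eq_mul]
  rw [ex, Finset.mul_sum]

theorem integral_mu_restrict {I : Type*} [DecidableEq I] (s : Finset I) (g : (s → Bool) → ℝ) :
    ∫ w, g (s.restrict w) ∂(mu I) = ex g := by
  unfold mu
  rw [integral_restrict_infinitePi (μ := fun _ : I => coin) (f := g)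
    (measurable_of_finite g).aestronglyMeasurable]
  exact integral_pi_coin g

end H60Unc
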