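import Pool.Agent.Helper60.Unc.Transfer

/-!
Products of signs are finite combinations of the system; measurability; general scalars.
-/

namespace H60Unc

open MeasureTheory Finset

variable {I : Type*} [LinearOrder I]

theorem exists_last {P : Pack I} (x : I) (W : Finset I) (hW : W.Nonempty) :
    ∃ a ∈ W, ∀ u ∈ W, u ≠ a → lt2 P.rho x u a := by
  obtain ⟨a, ha, hmax⟩ := W.exists_max_image (fun u => toLex (P.rho u x, u)) hW
  refine ⟨a, ha, fun u hu hua => ?_⟩
  rcases lt2_tri (rho := P.rho) (x := x) hua with h | h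
  · exact h
  · exfalso
    have h1 := hmax u hu
    rw [Prod.Lex.toLex_le_toLex] at h1
    rcases h with h | h
    · rcases h1 with h1 | h1
      · exact lt_asymm h h1
      · exact h.ne h1.1.symm
    · rcases h1 with h1 | h1
      · exact h1.ne h.1.symm
      · exact absurd h.2 (not_lt.mpr h1.2)

open Classical in
theorem walsh_comb (P : Pack I) (W : Finset I) :
    ∃ (d : Finset (Idx P)) (al : Idx P → ℝ), ∀ w, ∏ i ∈ W, chi i w = ∑ i ∈ d, al i * e i w := by
  rcases W.eq_empty_or_nonempty with h | h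
  · subst h
    exact ⟨{none}, fun _ => 1, fun w => by simp [e]⟩
  · set x := W.max' h with hx
    have hxW : x ∈ W := W.max'_mem h
    rcases (W.erase x).eq_empty_or_nonempty with h2 | h2
    · refine ⟨{some (Sum.inl x)}, fun _ => 1, fun w => ?_⟩
      rw [← Finset.mul_prod_erase W _ hxW, h2]
      simp [e]
    · obtain ⟨a, ha, hlast⟩ := exists_last (P := P) x (W.erase x) h2
      have hax : a < x := lt_of_le_of_ne (W.le_max' a (Finset.mem_of_mem_erase ha))
        (Finset.ne_of_mem_erase ha)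
      set W2 := (W.erase x).erase a with hW2
      have hW2F : ∀ u ∈ W2, u ∈ P.FI x a := by
        intro u hu
        have hu1 := Finset.mem_of_mem_erase hu
        rw [Pack.mem_FI]
        exact ⟨lt_of_le_of_ne (W.le_max' u (Finset.mem_of_mem_erase hu1))
          (Finset.ne_of_mem_erase hu1), hlast u hu1 (Finset.ne_of_mem_erase hu)⟩
      let ph : {s // s ∈ (P.FI x a).powerset} ↪ Idx P :=
        ⟨fun s => some (Sum.inr ⟨x, a, hax, s.1, Finset.mem_powerset.mp s.2⟩), by
          intro s t hst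
          simp only [Option.some.injEq, Sum.inr.injEq, Tri.mk.injEq, true_and] at hst
          exact Subtype.ext hst⟩
      let co : Idx P → ℝ := fun i => match i with
        | none => 0
        | some (Sum.inl _) => 0
        | some (Sum.inr t) => ∏ u ∈ W2, (if u ∈ t.s then (1 : ℝ) else -1)
      refine ⟨Finset.univ.map ph, co, fun w => ?_⟩
      rw [Finset.sum_map]
      have hs0 : (P.FI x a).filter (fun u => w u = true) ∈ (P.FI x a).powerset :=
        Finset.mem_powerset.mpr (Finset.filter_subset _ _)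
      rw [Finset.sum_eq_single ⟨(P.FI x a).filter (fun u => w u = true), hs0⟩]
      · have h3 : (⟨x, a, hax, (P.FI x a).filter (fun u => w u = true),
            Finset.mem_powerset.mp hs0⟩ : Tri P).ind w = 1 := by
          unfold Tri.ind
          rw [if_pos]
          intro u hu
          simp only at hu
          simp [hu]
        simp only [ph, co, Function.Embedding.coeFn_mk, e, h3, mul_one]
        rw [← Finset.mul_prod_erase W _ hxW, ← Finset.mul_prod_erase (W.erase x) _ ha]
        have h4 : ∏ u ∈ W2, chi u w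
            = ∏ u ∈ W2, (if u ∈ (P.FI x a).filter (fun u => w u = true) then (1 : ℝ) else -1) := by
          refine Finset.prod_congr rfl fun u hu => ?_
          simp [chi, hW2F u hu]
        rw [← hW2, h4]
        ring
      · intro s _ hs
        have h3 : (⟨x, a, hax, s.1, Finset.mem_powerset.mp s.2⟩ : Tri P).ind w = 0 := by
          unfold Tri.ind
          rw [if_neg]
          intro h4
          apply hs
          apply Subtype.ext
          ext u
          simp only [Finset.mem_filter]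
          constructor
          · intro hu
            have hu1 := (Finset.mem_powerset.mp s.2) hu
            exact ⟨hu1, (h4 u hu1).mpr hu⟩
          · rintro ⟨hu1, hu2⟩
            exact (h4 u hu1).mp hu2
        simp only [ph, Function.Embedding.coeFn_mk, e, h3, mul_zero]
      · intro h3; exact absurd (Finset.mem_univ _) h3

theorem measurable_of_dep {E : Type*} [MeasurableSpace E] (s : Finset I) (f : (I → Bool) → E)
    (h : ∀ w w' : I → Bool, (∀ i ∈ s, w i = w' i) → f w = f w') : Measurable f := by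
  classical
  let g : (s → Bool) → E := fun v => f (fun i => if hi : i ∈ s then v ⟨i, hi⟩ else false)
  have h1 : f = g ∘ s.restrict := by
    funext w
    apply h
    intro i hi
    simp [hi]
  rw [h1]
  exact (measurable_of_finite g).comp (Finset.measurable_restrict s)

theorem e_dep {P : Pack I} (i : Idx P) (w w' : I → Bool) (h : ∀ u ∈ supp i, w u = w' u) :
    e i w = e i w' := by
  rcases i with _ | x | t
  · rfl
  · simp only [e, chi]
    rw [h x (by simp [supp])]
  · have h1 : chi t.x w = chi t.x w' := by simp only [chi]; rw [h t.x (by simp [supp])]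
    have h2 : chi t.a w = chi t.a w' := by simp only [chi]; rw [h t.a (by simp [supp])]
    have h3 : t.ind w = t.ind w' := by
      unfold Tri.ind
      congr 1
      apply propext
      constructor
      · intro h4 u hu
        rw [← h4 u hu, h u (by simp [supp, hu])]
      · intro h4 u hu
        rw [← h4 u hu, h u (by simp [supp, hu])]
    simp only [e, h1, h2, h3]

theorem e_meas {P : Pack I} (i : Idx P) : Measurable (e i) :=
  measurable_of_dep (supp i) _ (e_dep i)

theorem abs_chi' (x : I) (w : I → Bool) : |chi x w| = 1 := by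
  simp only [chi]; split_ifs <;> norm_num

theorem abs_e_le {P : Pack I} (i : Idx P) (w : I → Bool) : |e i w| ≤ 1 := by
  rcases i with _ | x | t
  · simp [e]
  · simp [e, abs_chi']
  · simp only [e, abs_mul, abs_chi', one_mul]
    unfold Tri.ind
    split_ifs <;> simp

section scalars

variable {K : Type*} [RCLike K] {P : Pack I}

theorem e_memLp (i : Idx P) (p : ENNReal) : MemLp (fun w => ((e i w : ℝ) : K)) p (mu I) := by
  refine MemLp.of_bound (RCLike.measurable_ofReal.comp (e_meas i)).aestronglyMeasurable 1 ?_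
  refine Filter.Eventually.of_forall fun w => ?_
  rw [RCLike.norm_ofReal]
  exact abs_e_le i w

theorem comb_memLp (d : Finset (Idx P)) (al : Idx P → K) (p : ENNReal) :
    MemLp (fun w => ∑ i ∈ d, al i * ((e i w : ℝ) : K)) p (mu I) :=
  memLp_finsetSum d fun i _ => (e_memLp i p).const_mul (al i)

theorem comb_memLp_real (d : Finset (Idx P)) (al : Idx P → ℝ) (p : ENNReal) :
    MemLp (fun w => ∑ i ∈ d, al i * e i w) p (mu I) := by
  have := comb_memLp (K := ℝ) d al p
  exact this

theorem int4 (d : Finset (Idx P)) (al : Idx P → ℝ) :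
    Integrable (fun w => (∑ i ∈ d, al i * e i w) ^ 4) (mu I) := by
  have h := (comb_memLp_real d al (4 : ℕ)).integrable_norm_pow (by norm_num)
  refine h.congr (Filter.Eventually.of_forall fun w => ?_)
  simp only [Real.norm_eq_abs]
  exact (show Even 4 by decide).pow_abs _

theorem int4K (d : Finset (Idx P)) (al : Idx P → K) :
    Integrable (fun w => ‖∑ i ∈ d, al i * ((e i w : ℝ) : K)‖ ^ 4) (mu I) :=
  (comb_memLp d al (4 : ℕ)).integrable_norm_pow (by norm_num)

theorem re_comb (d : Finset (Idx P)) (al : Idx P → K) (w : I → Bool) :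
    RCLike.re (∑ i ∈ d, al i * ((e i w : ℝ) : K)) = ∑ i ∈ d, RCLike.re (al i) * e i w := by
  rw [map_sum]
  refine Finset.sum_congr rfl fun i _ => ?_
  rw [RCLike.re_mul_ofReal]

theorem im_comb (d : Finset (Idx P)) (al : Idx P → K) (w : I → Bool) :
    RCLike.im (∑ i ∈ d, al i * ((e i w : ℝ) : K)) = ∑ i ∈ d, RCLike.im (al i) * e i w := by
  rw [map_sum]
  refine Finset.sum_congr rfl fun i _ => ?_
  rw [RCLike.im_mul_ofReal]

theorem scalar_ineq (d : Finset (Idx P)) (al : Idx P → K) (ep : Idx P → ℝ)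
    (hep : ∀ i, |ep i| ≤ 1) :
    ∫ w, ‖∑ i ∈ d, ((ep i : ℝ) : K) * al i * ((e i w : ℝ) : K)‖ ^ 4 ∂(mu I)
      ≤ 4 * KK * ∫ w, ‖∑ i ∈ d, al i * ((e i w : ℝ) : K)‖ ^ 4 ∂(mu I) := by
  set u : (I → Bool) → ℝ := fun w => ∑ i ∈ d, RCLike.re (al i) * e i w with hu
  set v : (I → Bool) → ℝ := fun w => ∑ i ∈ d, RCLike.im (al i) * e i w with hv
  set u' : (I → Bool) → ℝ := fun w => ∑ i ∈ d, (ep i * RCLike.re (al i)) * e i w with hu'
  set v' : (I → Bool) → ℝ := fun w => ∑ i ∈ d, (ep i * RCLike.im (al i)) * e i w with hv'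
  have hK : (0 : ℝ) ≤ KK := by unfold KK; positivity
  have n1 : ∀ w, ‖∑ i ∈ d, ((ep i : ℝ) : K) * al i * ((e i w : ℝ) : K)‖ ^ 4
      ≤ 2 * u' w ^ 4 + 2 * v' w ^ 4 := by
    intro w
    have h1 := RCLike.norm_sq_eq_def (K := K)
      (z := ∑ i ∈ d, ((ep i : ℝ) : K) * al i * ((e i w : ℝ) : K))
    rw [re_comb d (fun i => ((ep i : ℝ) : K) * al i),
      im_comb d (fun i => ((ep i : ℝ) : K) * al i)] at h1
    simp only [RCLike.re_ofReal_mul, RCLike.im_ofReal_mul] at h1
    have h2 : ‖∑ i ∈ d, ((ep i : ℝ) : K) * al i * ((e i w : ℝ) : K)‖ ^ 4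
        = (u' w * u' w + v' w * v' w) ^ 2 := by
      rw [← h1]; ring
    rw [h2]
    nlinarith [sq_nonneg (u' w ^ 2 - v' w ^ 2)]
  have n2 : ∀ w, u w ^ 4 ≤ ‖∑ i ∈ d, al i * ((e i w : ℝ) : K)‖ ^ 4 ∧
      v w ^ 4 ≤ ‖∑ i ∈ d, al i * ((e i w : ℝ) : K)‖ ^ 4 := by
    intro w
    have h1 := RCLike.norm_sq_eq_def (K := K) (z := ∑ i ∈ d, al i * ((e i w : ℝ) : K))
    rw [re_comb, im_comb] at h1
    have h2 : ‖∑ i ∈ d, al i * ((e i w : ℝ) : K)‖ ^ 4
        = (u w * u w + v w * v w) ^ 2 := by
      rw [← h1]; ring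
    rw [h2]
    constructor
    · nlinarith [mul_nonneg (sq_nonneg (u w)) (sq_nonneg (v w)), sq_nonneg (v w ^ 2)]
    · nlinarith [mul_nonneg (sq_nonneg (u w)) (sq_nonneg (v w)), sq_nonneg (u w ^ 2)]
  have h1 : ∫ w, ‖∑ i ∈ d, ((ep i : ℝ) : K) * al i * ((e i w : ℝ) : K)‖ ^ 4 ∂(mu I)
      ≤ 2 * ∫ w, u' w ^ 4 ∂(mu I) + 2 * ∫ w, v' w ^ 4 ∂(mu I) := by
    rw [← integral_const_mul, ← integral_const_mul, ← integral_add]
    · exact integral_mono (int4K d (fun i => ((ep i : ℝ) : K) * al i))
        (((int4 d _).const_mul 2).add ((int4 d _).const_mul 2)) n1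
    · exact (int4 d _).const_mul 2
    · exact (int4 d _).const_mul 2
  have h2 : ∫ w, u' w ^ 4 ∂(mu I) ≤ KK * ∫ w, u w ^ 4 ∂(mu I) := by
    refine real_ineq d _ _ fun i => ?_
    rw [abs_mul]
    exact mul_le_of_le_one_left (abs_nonneg _) (hep i)
  have h3 : ∫ w, v' w ^ 4 ∂(mu I) ≤ KK * ∫ w, v w ^ 4 ∂(mu I) := by
    refine real_ineq d _ _ fun i => ?_
    rw [abs_mul]
    exact mul_le_of_le_one_left (abs_nonneg _) (hep i)
  have h4 : ∫ w, u w ^ 4 ∂(mu I) ≤ ∫ w, ‖∑ i ∈ d, al i * ((e i w : ℝ) : K)‖ ^ 4 ∂(mu I) :=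
    integral_mono (int4 d _) (int4K d al) fun w => (n2 w).1
  have h5 : ∫ w, v w ^ 4 ∂(mu I) ≤ ∫ w, ‖∑ i ∈ d, al i * ((e i w : ℝ) : K)‖ ^ 4 ∂(mu I) :=
    integral_mono (int4 d _) (int4K d al) fun w => (n2 w).2
  have h6 := mul_le_mul_of_nonneg_left h4 hK
  have h7 := mul_le_mul_of_nonneg_left h5 hK
  linarith

end scalars

end H60Unc
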