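import Pool.Agent.Helper60.Unc.Avg

/-!
The square-norm Stein inequality for averages over a chain of coordinate sets, and over
intersections of two chains.
-/

namespace H60Unc

open Finset

variable {V : Type*} [Fintype V] [DecidableEq V]

theorem cross_le {A B : Finset V} (hAB : A ⊆ B) {f g : (V → Bool) → ℝ}
    (hf : ∀ w, 0 ≤ f w) (hg : ∀ w, 0 ≤ g w) :
    ex (fun w => av A f w * av B g w)
      ≤ ex (fun w => av A f w * g w) + ex (fun w => f w * av B g w) := by
  have h1 : ex (fun w => av A f w * av B g w) = ex (fun w => av A f w * g w) := by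
    rw [← ex_av_mul B (av A f) g, av_av, Finset.inter_eq_right.mpr hAB]
  have h2 : 0 ≤ ex (fun w => f w * av B g w) :=
    ex_nonneg fun w => mul_nonneg (hf w) (av_nonneg hg w)
  linarith

theorem cross_le' {A B : Finset V} (hAB : A ⊆ B ∨ B ⊆ A) {f g : (V → Bool) → ℝ}
    (hf : ∀ w, 0 ≤ f w) (hg : ∀ w, 0 ≤ g w) :
    ex (fun w => av A f w * av B g w)
      ≤ ex (fun w => av A f w * g w) + ex (fun w => f w * av B g w) := by
  rcases hAB with h | h
  · exact cross_le h hf hg
  · have h1 := cross_le h hg hf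
    have e1 : ex (fun w => av B g w * av A f w) = ex (fun w => av A f w * av B g w) := by
      congr 1; funext w; ring
    have e2 : ex (fun w => av B g w * f w) = ex (fun w => f w * av B g w) := by
      congr 1; funext w; ring
    have e3 : ex (fun w => g w * av A f w) = ex (fun w => av A f w * g w) := by
      congr 1; funext w; ring
    rw [e1, e2, e3] at h1
    linarith

theorem ex_sum_mul_sum {J : Type*} (s : Finset J) (f g : J → (V → Bool) → ℝ) :
    ex (fun w => (∑ i ∈ s, f i w) * (∑ i ∈ s, g i w))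
      = ∑ i ∈ s, ∑ j ∈ s, ex (fun w => f i w * g j w) := by
  have : (fun w => (∑ i ∈ s, f i w) * (∑ i ∈ s, g i w))
      = fun w => ∑ i ∈ s, ∑ j ∈ s, f i w * g j w := by
    funext w; rw [Finset.sum_mul_sum]
  rw [this, ex_sum]
  refine Finset.sum_congr rfl fun i _ => ?_
  rw [ex_sum s (fun j w => f i w * g j w)]

theorem stein_chain {J : Type*} (s : Finset J) (A : J → Finset V)
    (hA : ∀ i ∈ s, ∀ j ∈ s, A i ⊆ A j ∨ A j ⊆ A i) (g : J → (V → Bool) → ℝ)
    (hg : ∀ i w, 0 ≤ g i w) :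
    ex (fun w => (∑ i ∈ s, av (A i) (g i) w) ^ 2) ≤ 4 * ex (fun w => (∑ i ∈ s, g i w) ^ 2) := by
  have h1 : ex (fun w => (∑ i ∈ s, av (A i) (g i) w) ^ 2)
      ≤ 2 * ex (fun w => (∑ i ∈ s, av (A i) (g i) w) * (∑ i ∈ s, g i w)) := by
    have e0 : (fun w => (∑ i ∈ s, av (A i) (g i) w) ^ 2)
        = fun w => (∑ i ∈ s, av (A i) (g i) w) * (∑ i ∈ s, av (A i) (g i) w) := by
      funext w; ring
    rw [e0, ex_sum_mul_sum, ex_sum_mul_sum, two_mul]
    have h3 : ∑ i ∈ s, ∑ j ∈ s, ex (fun w => av (A i) (g i) w * av (A j) (g j) w)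
        ≤ ∑ i ∈ s, ∑ j ∈ s, (ex (fun w => av (A i) (g i) w * g j w)
          + ex (fun w => g i w * av (A j) (g j) w)) :=
      Finset.sum_le_sum fun i hi => Finset.sum_le_sum fun j hj =>
        cross_le' (hA i hi j hj) (hg i) (hg j)
    refine h3.trans (le_of_eq ?_)
    simp only [Finset.sum_add_distrib]
    congr 1
    rw [Finset.sum_comm]
    refine Finset.sum_congr rfl fun i _ => Finset.sum_congr rfl fun j _ => ?_
    congr 1; funext w; ring
  have h2 : 2 * ex (fun w => (∑ i ∈ s, av (A i) (g i) w) * (∑ i ∈ s, g i w))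
      ≤ (1 / 2) * ex (fun w => (∑ i ∈ s, av (A i) (g i) w) ^ 2)
        + 2 * ex (fun w => (∑ i ∈ s, g i w) ^ 2) := by
    rw [← ex_smul, ← ex_smul, ← ex_smul, ← ex_add]
    refine ex_mono fun w => ?_
    nlinarith [sq_nonneg ((∑ i ∈ s, av (A i) (g i) w) - 2 * (∑ i ∈ s, g i w))]
  linarith

theorem stein_tree {J : Type*} (s : Finset J) (L R : J → Finset V)
    (hL : ∀ i ∈ s, ∀ j ∈ s, L i ⊆ L j ∨ L j ⊆ L i)
    (hR : ∀ i ∈ s, ∀ j ∈ s, R i ⊆ R j ∨ R j ⊆ R i) (g : J → (V → Bool) → ℝ) :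
    ex (fun w => (∑ i ∈ s, av (L i ∩ R i) (g i) w) ^ 2)
      ≤ 16 * ex (fun w => (∑ i ∈ s, |g i w|) ^ 2) := by
  have h1 := stein_chain s L hL (fun i => av (R i) (fun w => |g i w|))
    (fun i w => av_nonneg (fun w => abs_nonneg _) w)
  have h2 := stein_chain s R hR (fun i w => |g i w|) (fun i w => abs_nonneg _)
  have h3 : ex (fun w => (∑ i ∈ s, av (L i ∩ R i) (g i) w) ^ 2)
      ≤ ex (fun w => (∑ i ∈ s, av (L i) (av (R i) (fun w => |g i w|)) w) ^ 2) := by
    refine ex_mono fun w => ?_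
    apply sq_le_sq'
    · have : ∀ i ∈ s, -(av (L i) (av (R i) (fun w => |g i w|)) w) ≤ av (L i ∩ R i) (g i) w := by
        intro i _
        rw [av_av]
        exact (neg_le_neg (abs_av_le _ _ _)).trans (neg_abs_le _)
      calc -(∑ i ∈ s, av (L i) (av (R i) (fun w => |g i w|)) w)
          = ∑ i ∈ s, -(av (L i) (av (R i) (fun w => |g i w|)) w) := by
            rw [Finset.sum_neg_distrib]
        _ ≤ _ := Finset.sum_le_sum this
    · refine Finset.sum_le_sum fun i _ => ?_
      rw [av_av]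
      exact (le_abs_self _).trans (abs_av_le _ _ _)
  linarith

end H60Unc
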