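import Pool.Agent.Helper60.Unc.Main4
import Pool.Agent.Helper60.Unc.Meas

/-!
The system attached to a subadditive function with finite rows, and the multiplier
inequality for its finite combinations in the fourth-power norm.
-/

namespace H60Unc

open MeasureTheory Finset

variable {I : Type*} [LinearOrder I]

/-- a subadditive function with finite rows -/
structure Pack (I : Type*) [LinearOrder I] where
  rho : I → I → ℕ
  sub : Sub2 rho
  fin : ∀ (x : I) (m : ℕ), {u | u < x ∧ rho u x ≤ m}.Finite

theorem Pack.fin' (P : Pack I) (x a : I) : {u | u < x ∧ lt2 P.rho x u a}.Finite := by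
  refine (P.fin x (P.rho a x)).subset ?_
  rintro u ⟨h1, h2⟩
  refine ⟨h1, ?_⟩
  rcases h2 with h2 | h2
  · exact h2.le
  · exact h2.1.le

/-- the finite set attached to a pair -/
noncomputable def Pack.FI (P : Pack I) (x a : I) : Finset I := (P.fin' x a).toFinset

theorem Pack.mem_FI {P : Pack I} {x a u : I} : u ∈ P.FI x a ↔ u < x ∧ lt2 P.rho x u a := by
  simp [Pack.FI]

/-- a pair with a pattern on its finite set -/
structure Tri (P : Pack I) where
  x : I
  a : I
  hax : a < x
  s : Finset I
  hs : s ⊆ P.FI x a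

/-- the index set of the system -/
abbrev Idx (P : Pack I) := Option (I ⊕ Tri P)

open Classical in
/-- indicator of the pattern -/
noncomputable def Tri.ind {P : Pack I} (t : Tri P) (w : I → Bool) : ℝ :=
  if ∀ u ∈ P.FI t.x t.a, (w u = true ↔ u ∈ t.s) then 1 else 0

/-- the functions of the system -/
noncomputable def e {P : Pack I} : Idx P → (I → Bool) → ℝ
  | none, _ => 1
  | some (Sum.inl x), w => chi x w
  | some (Sum.inr t), w => chi t.x w * chi t.a w * t.ind w

/-- the coordinates used by a function of the system -/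
noncomputable def supp {P : Pack I} : Idx P → Finset I
  | none => ∅
  | some (Sum.inl x) => {x}
  | some (Sum.inr t) => insert t.x (insert t.a (P.FI t.x t.a))

theorem sq_sum_disj {J : Type*} (d : Finset J) (f : J → ℝ)
    (h : ∀ i ∈ d, ∀ j ∈ d, i ≠ j → f i * f j = 0) :
    (∑ i ∈ d, f i) ^ 2 = ∑ i ∈ d, f i ^ 2 := by
  classical
  rw [sq, Finset.sum_mul_sum]
  refine Finset.sum_congr rfl fun i hi => ?_
  rw [Finset.sum_eq_single i]
  · ring
  · intro j hj hji
    exact h i hi j hj (Ne.symm hji)
  · intro h'; exact absurd hi h'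

section loc

variable {P : Pack I} (s : Finset I)

/-- restriction of the function on pairs to a finite set of coordinates -/
def rhoV (P : Pack I) (s : Finset I) (u v : s) : ℕ := P.rho u v

theorem sub_rhoV (P : Pack I) (s : Finset I) : Sub2 (rhoV P s) :=
  ⟨fun a b c h1 h2 => P.sub.ha a b c h1 h2, fun a b c h1 h2 => P.sub.hb a b c h1 h2⟩

theorem mem_FF_rhoV {x a u : s} : u ∈ FF (rhoV P s) x a ↔ (u : I) ∈ P.FI x a := by
  rw [mem_FF, Pack.mem_FI]
  rfl

def a0 : Idx P → ℝ
  | none => 1
  | some _ => 0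

open Classical in
noncomputable def a1 (x : s) : Idx P → ℝ
  | none => 0
  | some (Sum.inl y) => if y = (x : I) then 1 else 0
  | some (Sum.inr _) => 0

open Classical in
noncomputable def indV (t : Tri P) (w : s → Bool) : ℝ :=
  if ∀ u : s, (u : I) ∈ P.FI t.x t.a → (w u = true ↔ (u : I) ∈ t.s) then 1 else 0

open Classical in
noncomputable def a2 (x a : s) (w : s → Bool) : Idx P → ℝ
  | none => 0
  | some (Sum.inl _) => 0
  | some (Sum.inr t) => if t.x = (x : I) ∧ t.a = (a : I) then indV s t w else 0

theorem indV_eq (t : Tri P) (h : P.FI t.x t.a ⊆ s) (w : I → Bool) :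
    indV s t (s.restrict w) = t.ind w := by
  unfold indV Tri.ind
  congr 1
  apply propext
  constructor
  · intro h1 u hu
    exact h1 ⟨u, h hu⟩ hu
  · intro h1 u hu
    exact h1 u hu

theorem a0_disj (i j : Idx P) (h : i ≠ j) : a0 i * a0 j = 0 := by
  rcases i with _ | i <;> rcases j with _ | j
  · exact absurd rfl h
  all_goals simp [a0]

theorem a1_disj (x : s) (i j : Idx P) (h : i ≠ j) : a1 s x i * a1 s x j = 0 := by
  rcases i with _ | i | i <;> rcases j with _ | j | j
  all_goals try simp [a1]
  intro h1 h2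
  exact h (by rw [h1, h2])

theorem a2_disj (x a : s) (w : s → Bool) (i j : Idx P) (hi : supp i ⊆ s) (hj : supp j ⊆ s)
    (h : i ≠ j) : a2 s x a w i * a2 s x a w j = 0 := by
  rcases i with _ | i | t <;> rcases j with _ | j | t'
  all_goals try simp [a2]
  intro h4 h5 h1 h2
  by_contra hcon
  rw [not_or] at hcon
  obtain ⟨h3, h6⟩ := hcon
  have h7 : ∀ u : s, (u : I) ∈ P.FI t.x t.a → (w u = true ↔ (u : I) ∈ t.s) := by
    by_contra h8
    apply h3
    unfold indV
    rw [if_neg h8]
  have h9 : ∀ u : s, (u : I) ∈ P.FI t'.x t'.a → (w u = true ↔ (u : I) ∈ t'.s) := by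
    by_contra h8
    apply h6
    unfold indV
    rw [if_neg h8]
  apply h
  have hx : t.x = t'.x := by rw [h1, h4]
  have ha : t.a = t'.a := by rw [h2, h5]
  have hss : t.s = t'.s := by
    ext u
    constructor
    · intro hu
      have hu1 := t.hs hu
      have hu2 : u ∈ s := hi (by simp [supp, hu1])
      have hu3 := (h7 ⟨u, hu2⟩ hu1).mpr hu
      rw [hx, ha] at hu1
      exact (h9 ⟨u, hu2⟩ hu1).mp hu3
    · intro hu
      have hu1 := t'.hs hu
      have hu2 : u ∈ s := hj (by simp [supp, hu1])
      have hu3 := (h9 ⟨u, hu2⟩ hu1).mpr hu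
      rw [← hx, ← ha] at hu1
      exact (h7 ⟨u, hu2⟩ hu1).mp hu3
  cases t; cases t'
  simp only at hx ha hss
  subst hx ha hss
  rfl

/-- the finite data of a combination -/
noncomputable def dat (d : Finset (Idx P)) (al : Idx P → ℝ) : Dat (rhoV P s) where
  al0 := ∑ i ∈ d, al i * a0 i
  al := fun x => ∑ i ∈ d, al i * a1 s x i
  c := fun x a w => ∑ i ∈ d, al i * a2 s x a w i
  hc0 := by
    intro x a hax
    funext w
    refine Finset.sum_eq_zero fun i _ => ?_
    rcases i with _ | i | t
    · simp [a2]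
    · simp [a2]
    · simp only [a2]
      rw [if_neg, mul_zero]
      rintro ⟨h1, h2⟩
      apply hax
      have := t.hax
      rw [h1, h2] at this
      exact this
  hc := by
    intro x a
    refine Dep.sum fun i _ => ?_
    intro w w' hw
    refine congrArg (fun z => al i * z) ?_
    rcases i with _ | i | t
    · rfl
    · rfl
    · simp only [a2]
      split_ifs with h
      · unfold indV
        congr 1
        apply propext
        constructor
        · intro h1 u hu
          rw [← h1 u hu, hw u]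
          rw [mem_FF_rhoV, ← h.1, ← h.2]; exact hu
        · intro h1 u hu
          rw [← h1 u hu, hw u]
          rw [mem_FF_rhoV, ← h.1, ← h.2]; exact hu
      · rfl

theorem dat_F (d : Finset (Idx P)) (hd : ∀ i ∈ d, supp i ⊆ s) (al : Idx P → ℝ)
    (w : I → Bool) : (dat s d al).F (s.restrict w) = ∑ i ∈ d, al i * e i w := by
  have key : ∀ i ∈ d, al i * e i w = al i * a0 i + ∑ x : s, chi x (s.restrict w) *
      (al i * a1 s x i + ∑ a : s, chi a (s.restrict w) * (al i * a2 s x a (s.restrict w) i)) := by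
    intro i hi
    rcases i with _ | y | t
    · simp [a0, a1, a2, e]
    · have hy : y ∈ s := hd _ hi (by simp [supp])
      have h1 : ∀ x : s, (y = (x : I)) ↔ (⟨y, hy⟩ : s) = x := by
        intro x
        rw [Subtype.ext_iff]
      simp only [a0, a1, a2, e, mul_zero, Finset.sum_const_zero, add_zero, zero_add, h1]
      rw [Finset.sum_eq_single (⟨y, hy⟩ : s)]
      · simp [chi, Finset.restrict]
      · intro b _ hb
        simp [Ne.symm hb]
      · intro h; exact absurd (Finset.mem_univ _) h
    · have hx : t.x ∈ s := hd _ hi (by simp [supp])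
      have ha : t.a ∈ s := hd _ hi (by simp [supp])
      have hF : P.FI t.x t.a ⊆ s := fun u hu => hd _ hi (by simp [supp, hu])
      have h1 : ∀ x a : s, (t.x = (x : I) ∧ t.a = (a : I)) ↔
          ((⟨t.x, hx⟩ : s) = x ∧ (⟨t.a, ha⟩ : s) = a) := by
        intro x a
        rw [Subtype.ext_iff, Subtype.ext_iff]
      simp only [a0, a1, a2, e, mul_zero, zero_add, h1]
      rw [Finset.sum_eq_single (⟨t.x, hx⟩ : s)]
      · rw [Finset.sum_eq_single (⟨t.a, ha⟩ : s)]
        · rw [if_pos ⟨rfl, rfl⟩, indV_eq s t hF]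
          simp only [chi, Finset.restrict]; ring_nf
        · intro b _ hb
          simp [Ne.symm hb]
        · intro h; exact absurd (Finset.mem_univ _) h
      · intro b _ hb
        simp [Ne.symm hb]
      · intro h; exact absurd (Finset.mem_univ _) h
  rw [Finset.sum_congr rfl key, Finset.sum_add_distrib, Finset.sum_comm]
  unfold Dat.F Dat.f dat
  simp only
  congr 1
  refine Finset.sum_congr rfl fun x _ => ?_
  rw [← Finset.mul_sum, Finset.sum_add_distrib, Finset.sum_comm]
  congr 2
  refine Finset.sum_congr rfl fun a _ => ?_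
  rw [Finset.mul_sum]

theorem dat_S (d : Finset (Idx P)) (hd : ∀ i ∈ d, supp i ⊆ s) (al be : Idx P → ℝ)
    (hab : ∀ i, |be i| ≤ |al i|) (w : s → Bool) : (dat s d be).S w ≤ (dat s d al).S w := by
  have hsq : ∀ i, be i ^ 2 ≤ al i ^ 2 := fun i => sq_le_sq.mpr (hab i)
  have gen : ∀ (f : Idx P → ℝ), (∀ i ∈ d, ∀ j ∈ d, i ≠ j → f i * f j = 0) →
      (∑ i ∈ d, be i * f i) ^ 2 ≤ (∑ i ∈ d, al i * f i) ^ 2 := by
    intro f hf
    rw [sq_sum_disj, sq_sum_disj]
    · refine Finset.sum_le_sum fun i _ => ?_
      rw [mul_pow, mul_pow]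
      exact mul_le_mul_of_nonneg_right (hsq i) (sq_nonneg _)
    · intro i hi j hj hij
      have := hf i hi j hj hij
      calc al i * f i * (al j * f j) = al i * al j * (f i * f j) := by ring
        _ = 0 := by rw [this, mul_zero]
    · intro i hi j hj hij
      have := hf i hi j hj hij
      calc be i * f i * (be j * f j) = be i * be j * (f i * f j) := by ring
        _ = 0 := by rw [this, mul_zero]
  unfold Dat.S dat
  simp only
  refine add_le_add (gen _ fun i _ j _ h => a0_disj i j h) ?_
  refine Finset.sum_le_sum fun x _ => ?_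
  refine add_le_add (gen _ fun i _ j _ h => a1_disj s x i j h) ?_
  exact Finset.sum_le_sum fun a _ => gen _ fun i hi j hj h =>
    a2_disj s x a w i j (hd i hi) (hd j hj) h

end loc

/-- the constant -/
def KK : ℝ := (68 * 262148) ^ 2

theorem real_ineq {P : Pack I} (d : Finset (Idx P)) (al be : Idx P → ℝ)
    (hab : ∀ i, |be i| ≤ |al i|) :
    ∫ w, (∑ i ∈ d, be i * e i w) ^ 4 ∂(mu I) ≤ KK * ∫ w, (∑ i ∈ d, al i * e i w) ^ 4 ∂(mu I) := by
  classical
  set s : Finset I := d.biUnion supp with hs
  have hd : ∀ i ∈ d, supp i ⊆ s := fun i hi => Finset.subset_biUnion_of_mem supp hi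
  have h1 : ∀ ga : Idx P → ℝ, ∫ w, (∑ i ∈ d, ga i * e i w) ^ 4 ∂(mu I)
      = ex (fun w => (dat s d ga).F w ^ 4) := by
    intro ga
    rw [← integral_mu_restrict s (fun w => (dat s d ga).F w ^ 4)]
    refine integral_congr_ae (Filter.Eventually.of_forall fun w => ?_)
    simp only
    rw [dat_F s d hd]
  rw [h1, h1]
  have h2 := (dat s d be).F4_le (sub_rhoV P s)
  have h3 := (dat s d al).S2_le (sub_rhoV P s)
  have h4 : ex (fun w => (dat s d be).S w ^ 2) ≤ ex (fun w => (dat s d al).S w ^ 2) := by
    refine ex_mono fun w => ?_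
    refine pow_le_pow_left₀ ?_ (dat_S s d hd al be hab w) 2
    unfold Dat.S
    exact add_nonneg (sq_nonneg _) (Finset.sum_nonneg fun _ _ =>
      add_nonneg (sq_nonneg _) (Finset.sum_nonneg fun _ _ => sq_nonneg _))
  calc ex (fun w => (dat s d be).F w ^ 4)
      ≤ (68 * 262148) * ex (fun w => (dat s d be).S w ^ 2) := h2
    _ ≤ (68 * 262148) * ex (fun w => (dat s d al).S w ^ 2) :=
        mul_le_mul_of_nonneg_left h4 (by norm_num)
    _ ≤ (68 * 262148) * ((68 * 262148) * ex (fun w => (dat s d al).F w ^ 4)) :=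
        mul_le_mul_of_nonneg_left h3 (by norm_num)
    _ = _ := by unfold KK; ring

end H60Unc
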