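import Pool.Agent.Helper60.Unc.Weight
import Pool.Agent.Helper60.Unc.Chain

/-!
The weighted square-norm multiplier bound for weights with bounded characteristic on the path
sets, by two applications of the one-chain inequality.
-/

namespace H60Unc

open Finset

section

variable {V : Type*} [LinearOrder V] [Fintype V]

/-- the sets along the outer chain and along the inner chains -/
def PathSet (rho : V → V → ℕ) (A : Finset V) : Prop :=
  A = ∅ ∨ A = univ ∨ (∃ x, A = Dat.lo x) ∨ ∃ x a, a < x ∧ A = FF rho x a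

/-- reading off a coefficient -/
theorem coeff_of (al : ℝ) (u : V → (V → Bool) → ℝ) (A : Finset V) (x : V) (hxA : x ∉ A)
    (hd : Dep (u x) A) (h : ∀ y, y ≠ x → Ind (u y) x ∨ (y ∉ A ∧ Ind (u y) y)) :
    av A (fun w => chi x w * (al + ∑ y, chi y w * u y w)) = u x := by
  have e1 : (fun w : V → Bool => chi x w * (al + ∑ y, chi y w * u y w))
      = fun w => chi x w * al + ∑ y, chi x w * (chi y w * u y w) := by
    funext w; rw [mul_add, Finset.mul_sum]
  rw [e1, av_add, av_sum]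
  funext w
  have h0 : av A (fun w => chi x w * al) w = 0 := by
    rw [av_chi_mul (g := fun _ => al) (fun _ _ => rfl) hxA]
  rw [h0, zero_add]
  show ∑ i, av A (fun w => chi x w * (chi i w * u i w)) w = u x w
  rw [Finset.sum_eq_single x]
  · have e2 : (fun w => chi x w * (chi x w * u x w)) = u x := by
      funext w
      linear_combination (u x w) * chi_sq x w
    rw [e2, av_of_dep hd]
  · intro y _ hyx
    rcases h y hyx with h1 | ⟨h1, h2⟩
    · rw [av_chi_mul ((chi_ind hyx).mul h1) hxA]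
    · have e2 : (fun w => chi x w * (chi y w * u y w)) = fun w => chi y w * (chi x w * u y w) := by
        funext w; ring
      rw [e2, av_chi_mul ((chi_ind (Ne.symm hyx)).mul h2) h1]
  · intro h'; exact absurd (Finset.mem_univ _) h'

theorem ex_of (al : ℝ) (u : V → (V → Bool) → ℝ) (h : ∀ y, Ind (u y) y) :
    ex (fun w => al + ∑ y, chi y w * u y w) = al := by
  rw [ex_add, ex_const, ex_sum univ (fun y w => chi y w * u y w),
    Finset.sum_eq_zero (fun x _ => ex_chi_mul (h x)), add_zero]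

namespace Dat

variable {rho : V → V → ℕ} (d : Dat rho)

theorem ex_F : ex d.F = d.al0 := ex_of d.al0 d.f fun _ => d.f_ind le_rfl

theorem ex_f (x : V) : ex (d.f x) = d.al x :=
  ex_of (d.al x) (d.c x) fun _ => (d.hc x _).ind not_mem_FF

theorem coeff_F (x : V) : av (lo x) (fun w => chi x w * d.F w) = d.f x := by
  refine coeff_of d.al0 d.f (lo x) x (by rw [mem_lo]; exact lt_irrefl _) (d.f_dep x) ?_
  intro y hyx
  rcases lt_or_gt_of_ne hyx with h | h
  · exact Or.inl (d.f_ind h.le)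
  · exact Or.inr ⟨by rw [mem_lo]; exact not_lt.mpr h.le, d.f_ind le_rfl⟩

theorem coeff_f (x a : V) : av (FF rho x a) (fun w => chi a w * d.f x w) = d.c x a := by
  refine coeff_of (d.al x) (d.c x) (FF rho x a) a not_mem_FF (d.hc x a) ?_
  intro b hb
  rcases lt2_tri (rho := rho) (x := x) hb with h | h
  · exact Or.inl ((d.hc x b).ind fun h' => lt2_asymm h (mem_FF.mp h').2)
  · exact Or.inr ⟨fun h' => lt2_asymm h (mem_FF.mp h').2, (d.hc x b).ind not_mem_FF⟩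

/-- the order of the inner chain below `x`, extended to all coordinates -/
def rr (rho : V → V → ℕ) (x i j : V) : Prop :=
  (i < x ∧ j < x ∧ lt2 rho x i j) ∨ (i < x ∧ ¬ j < x) ∨ (¬ i < x ∧ ¬ j < x ∧ i < j)

instance (rho : V → V → ℕ) (x : V) : DecidableRel (rr rho x) := fun i j => by
  unfold rr; infer_instance

theorem rr_tri (x i j : V) (hij : i ≠ j) : rr rho x i j ∨ rr rho x j i := by
  unfold rr
  by_cases hi : i < x <;> by_cases hj : j < x
  · rcases lt2_tri (rho := rho) (x := x) hij with h | h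
    · exact Or.inl (Or.inl ⟨hi, hj, h⟩)
    · exact Or.inr (Or.inl ⟨hj, hi, h⟩)
  · exact Or.inl (Or.inr (Or.inl ⟨hi, hj⟩))
  · exact Or.inr (Or.inr (Or.inl ⟨hj, hi⟩))
  · rcases lt_or_gt_of_ne hij with h | h
    · exact Or.inl (Or.inr (Or.inr ⟨hi, hj, h⟩))
    · exact Or.inr (Or.inr (Or.inr ⟨hj, hi, h⟩))

theorem rr_irrefl (x i : V) : ¬ rr rho x i i := by
  rintro (⟨_, _, h⟩ | ⟨h1, h2⟩ | ⟨_, _, h⟩)
  · exact lt2_irrefl _ _ h
  · exact h2 h1
  · exact lt_irrefl _ h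

theorem rr_trans (x i j k : V) : rr rho x i j → rr rho x j k → rr rho x i k := by
  rintro (⟨h1, h2, h3⟩ | ⟨h1, h2⟩ | ⟨h1, h2, h3⟩) (⟨g1, g2, g3⟩ | ⟨g1, g2⟩ | ⟨g1, g2, g3⟩)
  · exact Or.inl ⟨h1, g2, lt2_trans h3 g3⟩
  · exact Or.inr (Or.inl ⟨h1, g2⟩)
  · exact absurd h2 g1
  · exact absurd g1 h2
  · exact absurd g1 h2
  · exact Or.inr (Or.inl ⟨h1, g2⟩)
  · exact absurd g1 h2
  · exact absurd g1 h2
  · exact Or.inr (Or.inr ⟨h1, g2, h3.trans g3⟩)

theorem rr_down (x i j : V) (h : rr rho x i j) (hj : j ∈ lo x) : i ∈ lo x := by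
  rcases h with ⟨h1, _, _⟩ | ⟨h1, _⟩ | ⟨_, h2, _⟩
  · exact mem_lo.mpr h1
  · exact mem_lo.mpr h1
  · exact absurd (mem_lo.mp hj) h2

theorem rr_FF (x a : V) (ha : a < x) : (univ.filter fun b => rr rho x b a) = FF rho x a := by
  ext b
  simp only [mem_FF, Finset.mem_filter, Finset.mem_univ, true_and]
  constructor
  · rintro (⟨h1, _, h2⟩ | ⟨_, h2⟩ | ⟨_, h2, _⟩)
    · exact ⟨h1, h2⟩
    · exact absurd ha h2
    · exact absurd ha h2
  · rintro ⟨h1, h2⟩
    exact Or.inl ⟨h1, ha, h2⟩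

/-- the weighted square norm of the coefficients -/
noncomputable def Q (W : (V → Bool) → ℝ) (d : Dat rho) : ℝ :=
  d.al0 ^ 2 * ex W + ∑ x, (d.al x ^ 2 * ex W + ∑ a ∈ lo x, ex (fun o => d.c x a o ^ 2 * W o))

section bounds

variable {K : ℝ} (hK : 1 ≤ K) {W : (V → Bool) → ℝ} (hW : ∀ o, 0 < W o)
  (hA : ∀ A, PathSet rho A → ∀ o, av A W o * av A (fun o => (W o)⁻¹) o ≤ K)
include hK hW hA

theorem hA0 : ex W * ex (fun o => (W o)⁻¹) ≤ K := by
  have h := hA ∅ (Or.inl rfl) (fun _ => true)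
  rw [av_empty, av_empty] at h
  exact h

theorem outer_upper : d.al0 ^ 2 * ex W + ∑ x, ex (fun o => d.f x o ^ 2 * W o)
    ≤ (2 * K + 16 * K ^ 3) * ex (fun o => d.F o ^ 2 * W o) := by
  have h := chain_upper (fun i j : V => i < j) (fun i j h => lt_or_gt_of_ne h)
    (fun i => lt_irrefl i) (fun i j k h1 h2 => h1.trans h2) K hK d.F W hW univ
    (fun _ _ _ _ => Finset.mem_univ _) (hA0 hK hW hA)
    (fun a _ o => hA _ (Or.inr (Or.inr (Or.inl ⟨a, rfl⟩))) o)
  rw [d.ex_F] at h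
  refine le_trans (le_of_eq ?_) h
  congr 1
  refine Finset.sum_congr rfl fun x _ => ?_
  congr 1
  funext o
  have := congrFun (d.coeff_F x) o
  rw [← this]
  rfl

theorem outer_lower : ex (fun o => d.F o ^ 2 * W o)
    ≤ (2 * K + 16 * K ^ 3) * (d.al0 ^ 2 * ex W + ∑ x, ex (fun o => d.f x o ^ 2 * W o)) := by
  have h := chain_lower (fun i j : V => i < j) (fun i j h => lt_or_gt_of_ne h)
    (fun i => lt_irrefl i) (fun i j k h1 h2 => h1.trans h2) K hK d.F W hW univ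
    (fun _ _ _ _ => Finset.mem_univ _) (hA0 hK hW hA)
    (fun a _ o => hA _ (Or.inr (Or.inr (Or.inl ⟨a, rfl⟩))) o)
    (fun w w' hw => by rw [show w = w' from funext fun v => hw v (Finset.mem_univ v)])
  rw [d.ex_F] at h
  refine le_trans h (le_of_eq ?_)
  congr 2
  refine Finset.sum_congr rfl fun x _ => ?_
  congr 1
  funext o
  have := congrFun (d.coeff_F x) o
  rw [← this]
  rfl

theorem inner_upper (x : V) : d.al x ^ 2 * ex W + ∑ a ∈ lo x, ex (fun o => d.c x a o ^ 2 * W o)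
    ≤ (2 * K + 16 * K ^ 3) * ex (fun o => d.f x o ^ 2 * W o) := by
  have h := chain_upper (rr rho x) (rr_tri x) (rr_irrefl x) (rr_trans x) K hK (d.f x) W hW (lo x)
    (rr_down x) (hA0 hK hW hA) (fun a ha o => by
      have hax : a < x := mem_lo.mp ha
      rw [rr_FF x a hax]
      exact hA _ (Or.inr (Or.inr (Or.inr ⟨x, a, hax, rfl⟩))) o)
  rw [d.ex_f] at h
  refine le_trans (le_of_eq ?_) h
  congr 1
  refine Finset.sum_congr rfl fun a ha => ?_
  rw [rr_FF x a (mem_lo.mp ha), d.coeff_f]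

theorem inner_lower (x : V) : ex (fun o => d.f x o ^ 2 * W o)
    ≤ (2 * K + 16 * K ^ 3) * (d.al x ^ 2 * ex W
      + ∑ a ∈ lo x, ex (fun o => d.c x a o ^ 2 * W o)) := by
  have h := chain_lower (rr rho x) (rr_tri x) (rr_irrefl x) (rr_trans x) K hK (d.f x) W hW (lo x)
    (rr_down x) (hA0 hK hW hA) (fun a ha o => by
      have hax : a < x := mem_lo.mp ha
      rw [rr_FF x a hax]
      exact hA _ (Or.inr (Or.inr (Or.inr ⟨x, a, hax, rfl⟩))) o) (d.f_dep x)
  rw [d.ex_f] at h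
  refine le_trans h (le_of_eq ?_)
  congr 2
  refine Finset.sum_congr rfl fun a ha => ?_
  rw [rr_FF x a (mem_lo.mp ha), d.coeff_f]

theorem C1_ge : 1 ≤ 2 * K + 16 * K ^ 3 := by
  have : 0 ≤ K ^ 3 := by positivity
  linarith

theorem Q_le : Q W d ≤ (2 * K + 16 * K ^ 3) ^ 2 * ex (fun o => d.F o ^ 2 * W o) := by
  set C := 2 * K + 16 * K ^ 3 with hC
  have hC1 : 1 ≤ C := C1_ge hK hW hA
  have h1 := d.outer_upper hK hW hA
  have h0 : 0 ≤ d.al0 ^ 2 * ex W := mul_nonneg (sq_nonneg _) (ex_nonneg fun o => (hW o).le)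
  have h2 : Q W d ≤ C * (d.al0 ^ 2 * ex W + ∑ x, ex (fun o => d.f x o ^ 2 * W o)) := by
    unfold Q
    rw [mul_add, Finset.mul_sum]
    refine add_le_add ?_ (Finset.sum_le_sum fun x _ => d.inner_upper hK hW hA x)
    nlinarith
  calc Q W d ≤ C * (d.al0 ^ 2 * ex W + ∑ x, ex (fun o => d.f x o ^ 2 * W o)) := h2
    _ ≤ C * (C * ex (fun o => d.F o ^ 2 * W o)) := mul_le_mul_of_nonneg_left h1 (by linarith)
    _ = _ := by ring

theorem le_Q : ex (fun o => d.F o ^ 2 * W o) ≤ (2 * K + 16 * K ^ 3) ^ 2 * Q W d := by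
  set C := 2 * K + 16 * K ^ 3 with hC
  have hC1 : 1 ≤ C := C1_ge hK hW hA
  have h1 := d.outer_lower hK hW hA
  have h0 : 0 ≤ d.al0 ^ 2 * ex W := mul_nonneg (sq_nonneg _) (ex_nonneg fun o => (hW o).le)
  have h2 : d.al0 ^ 2 * ex W + ∑ x, ex (fun o => d.f x o ^ 2 * W o) ≤ C * Q W d := by
    unfold Q
    rw [mul_add, Finset.mul_sum]
    refine add_le_add ?_ (Finset.sum_le_sum fun x _ => d.inner_lower hK hW hA x)
    nlinarith
  calc ex (fun o => d.F o ^ 2 * W o)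
      ≤ C * (d.al0 ^ 2 * ex W + ∑ x, ex (fun o => d.f x o ^ 2 * W o)) := h1
    _ ≤ C * (C * Q W d) := mul_le_mul_of_nonneg_left h2 (by linarith)
    _ = _ := by ring

end bounds

theorem Q_mono {W : (V → Bool) → ℝ} (hW : ∀ o, 0 < W o) {d d' : Dat rho}
    (h0 : |d'.al0| ≤ |d.al0|) (h1 : ∀ x, |d'.al x| ≤ |d.al x|)
    (h2 : ∀ x a w, |d'.c x a w| ≤ |d.c x a w|) : Q W d' ≤ Q W d := by
  have hE : 0 ≤ ex W := ex_nonneg fun o => (hW o).le
  unfold Q
  refine add_le_add (mul_le_mul_of_nonneg_right (sq_le_sq.mpr h0) hE)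
    (Finset.sum_le_sum fun x _ => add_le_add
      (mul_le_mul_of_nonneg_right (sq_le_sq.mpr (h1 x)) hE) (Finset.sum_le_sum fun a _ => ?_))
  exact ex_mono fun o => mul_le_mul_of_nonneg_right (sq_le_sq.mpr (h2 x a o)) (hW o).le

theorem two_level {K : ℝ} (hK : 1 ≤ K) {W : (V → Bool) → ℝ} (hW : ∀ o, 0 < W o)
    (hA : ∀ A, PathSet rho A → ∀ o, av A W o * av A (fun o => (W o)⁻¹) o ≤ K) {d d' : Dat rho}
    (h0 : |d'.al0| ≤ |d.al0|) (h1 : ∀ x, |d'.al x| ≤ |d.al x|)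
    (h2 : ∀ x a w, |d'.c x a w| ≤ |d.c x a w|) :
    ex (fun o => d'.F o ^ 2 * W o) ≤ (2 * K + 16 * K ^ 3) ^ 4 * ex (fun o => d.F o ^ 2 * W o) := by
  have hC1 : 1 ≤ 2 * K + 16 * K ^ 3 := C1_ge hK hW hA
  calc ex (fun o => d'.F o ^ 2 * W o) ≤ (2 * K + 16 * K ^ 3) ^ 2 * Q W d' := d'.le_Q hK hW hA
    _ ≤ (2 * K + 16 * K ^ 3) ^ 2 * Q W d :=
      mul_le_mul_of_nonneg_left (Q_mono hW h0 h1 h2) (by positivity)
    _ ≤ (2 * K + 16 * K ^ 3) ^ 2 * ((2 * K + 16 * K ^ 3) ^ 2 * ex (fun o => d.F o ^ 2 * W o)) :=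
      mul_le_mul_of_nonneg_left (d.Q_le hK hW hA) (by positivity)
    _ = _ := by ring

end Dat

/-- the majorant weights exist at the exponent `r` -/
def HasMajorant (r : ℝ) : Prop :=
  ∃ K C : ℝ, 1 ≤ K ∧ 0 < C ∧ ∀ (V : Type) [LinearOrder V] [Fintype V] (rho : V → V → ℕ),
    Sub2 rho → ∀ w : (V → Bool) → ℝ, (∀ o, 1 ≤ w o) → ∃ W : (V → Bool) → ℝ, (∀ o, w o ≤ W o) ∧
      ex (fun o => W o ^ r) ≤ C * ex (fun o => w o ^ r) ∧
      ∀ A, PathSet rho A → ∀ o, av A W o * av A (fun o => (W o)⁻¹) o ≤ K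

theorem major_of {r : ℝ} (h : HasMajorant r) : ∃ K, Major r K := by
  obtain ⟨K, C, hK, hC, h⟩ := h
  set D := (2 * K + 16 * K ^ 3) ^ 4 with hD
  refine ⟨max C D, lt_max_of_lt_left hC, ?_⟩
  intro V _ _ rho hrho w hw
  obtain ⟨W, h1, h2, h3⟩ := h V rho hrho w hw
  have hW : ∀ o, 0 < W o := fun o => lt_of_lt_of_le one_pos ((hw o).trans (h1 o))
  refine ⟨W, h1, h2.trans (mul_le_mul_of_nonneg_right (le_max_left _ _) ?_), ?_⟩
  · exact ex_nonneg fun o => Real.rpow_nonneg (by linarith [hw o]) _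
  · intro d d' g0 g1 g2
    refine (Dat.two_level hK hW h3 g0 g1 g2).trans
      (mul_le_mul_of_nonneg_right (le_max_right _ _) ?_)
    exact ex_nonneg fun o => mul_nonneg (sq_nonneg _) (hW o).le

end

end H60Unc
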